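import Pool.Agent.Lib.MP_fc0680_nt.Conic

/-!
# Legendre theorem without a condition at two
-/

namespace X15B

open Pool.Agent.HP Pool.Agent.HP.Conic

theorem leg_aux (N : ℕ) : ∀ a b : ℤ, a ≠ 0 → b ≠ 0 → Squarefree a → Squarefree b →
    |a| + |b| ≤ N → Iso ℝ a b → (∀ (p : ℕ) (_ : Fact p.Prime), p ≠ 2 → Iso ℚ_[p] a b) → Iso ℚ a b := by
  induction N using Nat.strong_induction_on with
  | _ N IH =>
  -- the case |a| ≤ |b|
  have key : ∀ a b : ℤ, a ≠ 0 → b ≠ 0 → Squarefree a → Squarefree b → |a| ≤ |b| →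
      |a| + |b| ≤ N → Iso ℝ a b → (∀ (p : ℕ) (_ : Fact p.Prime), p ≠ 2 → Iso ℚ_[p] a b) →
      Iso ℚ a b := by
    intro a b ha hb hsa hsb hab hN hR hP
    have hapos : 1 ≤ |a| := Int.one_le_abs ha
    have hbpos : 1 ≤ |b| := Int.one_le_abs hb
    rcases eq_or_lt_of_le hbpos with h1 | h2
    · -- |b| = 1, |a| = 1
      have ha1 : |a| = 1 := by omega
      have hb1 : |b| = 1 := h1.symm
      rcases (abs_eq (by norm_num : (0:ℤ) ≤ 1)).1 ha1 with rfl | rfl
      · exact ⟨1, 0, 1, Or.inl one_ne_zero, by simp⟩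
      · rcases (abs_eq (by norm_num : (0:ℤ) ≤ 1)).1 hb1 with rfl | rfl
        · exact ⟨0, 1, 1, Or.inr (Or.inl one_ne_zero), by simp⟩
        · exfalso
          obtain ⟨x, y, z, h0, h1⟩ := hR
          push_cast at h1
          have hx : x = 0 := by nlinarith [sq_nonneg x, sq_nonneg y, sq_nonneg z]
          have hy : y = 0 := by nlinarith [sq_nonneg x, sq_nonneg y, sq_nonneg z]
          have hz : z = 0 := by nlinarith [sq_nonneg x, sq_nonneg y, sq_nonneg z]
          tauto
    · -- |b| ≥ 2
      have hn : 0 < |b| := by omega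
      obtain ⟨t0, ht0⟩ := crt_sq a b.natAbs (Int.squarefree_natAbs.2 hsb) (by
        intro p hp hd
        have : Fact p.Prime := ⟨hp⟩
        have hd' : (p : ℤ) ∣ b := Int.natCast_dvd.2 hd
        by_cases hp2 : p = 2
        · subst hp2
          rcases Int.even_or_odd a with ⟨k, hk⟩ | ⟨k, hk⟩
          · exact ⟨0, -k, by rw [hk]; push_cast; ring⟩
          · exact ⟨1, -k, by rw [hk]; push_cast; ring⟩
        refine local_sq hd' ?_ (hP p ⟨hp⟩ hp2)
        intro hd2
        have := hsb (p : ℤ) (by rw [← sq]; exact hd2)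
        have h3 := Int.isUnit_iff_natAbs_eq.1 this
        simp at h3
        exact hp.one_lt.ne' h3)
      rw [Int.natCast_natAbs, abs_dvd] at ht0
      obtain ⟨t, htd, hts⟩ := small_rep |b| t0 hn
      rw [abs_dvd] at htd
      have hbt : b ∣ t ^ 2 - a := by
        have : t ^ 2 - a = (t0 ^ 2 - a) - (t0 - t) * (t0 + t) := by ring
        rw [this]
        exact dvd_sub ht0 (htd.mul_right _)
      obtain ⟨b', hb'⟩ := hbt
      have htb : t ^ 2 = a + b * b' := by linarith
      by_cases hb0 : b' = 0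
      · -- a is a square
        subst hb0
        refine ⟨1, 0, t, Or.inl one_ne_zero, ?_⟩
        have : (t : ℚ) ^ 2 = a + b * 0 := by exact_mod_cast congrArg (Int.cast : ℤ → ℚ) htb
        rw [this]; ring
      · -- size of b'
        have hsz : |b'| < |b| := by
          have h3 : |b| * |b'| ≤ |t| ^ 2 + |a| := by
            rw [← abs_mul]
            have : b * b' = t ^ 2 - a := by linarith
            rw [this, ← abs_pow]
            exact abs_sub _ _
          have h4 : 4 * |t| ^ 2 ≤ |b| ^ 2 := by nlinarith [abs_nonneg t, abs_nonneg b]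
          by_contra hcon
          push Not at hcon
          nlinarith [abs_nonneg b, abs_nonneg b']
        obtain ⟨u, b'', hu, hb'', hsb'', hle, hub⟩ := int_sqfree b' hb0
        have hfin : Iso ℚ a b'' := by
          refine IH (|a| + |b''|).toNat ?_ a b'' ha hb'' hsa hsb'' ?_ ?_ ?_
          · have := abs_nonneg a
            have := abs_nonneg b''
            omega
          · have := abs_nonneg a
            have := abs_nonneg b''
            omega
          · exact (Iso.sq hu hub).1 (hR.norm hb htb)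
          · intro p hp hp2
            exact (Iso.sq hu hub).1 ((hP p hp hp2).norm hb htb)
        have h5 : Iso ℚ a b' := (Iso.sq hu hub).2 hfin
        exact h5.norm hb0 (by rw [htb]; ring)
  intro a b ha hb hsa hsb hN hR hP
  rcases le_total |a| |b| with h | h
  · exact key a b ha hb hsa hsb h hN hR hP
  · exact (key b a hb ha hsb hsa h (by rw [add_comm]; exact hN) hR.symm
      (fun p hp hp2 => (hP p hp hp2).symm)).symm

theorem leg (a b : ℤ) (ha : a ≠ 0) (hb : b ≠ 0) (hR : Iso ℝ a b)
    (hP : ∀ (p : ℕ) (_ : Fact p.Prime), p ≠ 2 → Iso ℚ_[p] a b) : Iso ℚ a b := by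
  obtain ⟨u, a', hu, ha', hsa, -, hua⟩ := int_sqfree a ha
  obtain ⟨v, b', hv, hb', hsb, -, hvb⟩ := int_sqfree b hb
  have tr : ∀ (k : Type) [Field k] [CharZero k], Iso k a b ↔ Iso k a' b' := by
    intro k _ _
    rw [Iso.sq hv hvb]
    constructor
    · intro h; exact ((Iso.sq hu hua).1 h.symm).symm
    · intro h; exact ((Iso.sq hu hua).2 h.symm).symm
  rw [tr]
  exact leg_aux _ a' b' ha' hb' hsa hsb (le_of_eq (Int.toNat_of_nonneg (by positivity)).symm)
    ((tr _).1 hR) (fun p hp hp2 => (tr _).1 (hP p hp hp2))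


end X15B
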