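import Pool.Agent.Lib.MP_87c685_nt_X15.PadicSq
import Pool.Agent.Lib.MP_fc0680_nt.Conic

open NumberField WeierstrassCurve Finset

namespace X15B

open X15

/-- L2: solubility at odd primes not dividing the coefficients. -/
theorem iso_of_unit {p : ℕ} [Fact p.Prime] (hp : p ≠ 2) (a b : ℤ) (ha : ¬ (p : ℤ) ∣ a)
    (hb : ¬ (p : ℤ) ∣ b) : Pool.Agent.HP.Conic.Iso ℚ_[p] a b := by
  have ha0 : ((a : ℤ) : ZMod p) ≠ 0 := by
    intro h
    exact ha ((ZMod.intCast_zmod_eq_zero_iff_dvd a p).1 h)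
  have hb0 : ((b : ℤ) : ZMod p) ≠ 0 := by
    intro h
    exact hb ((ZMod.intCast_zmod_eq_zero_iff_dvd b p).1 h)
  have hodd : Fintype.card (ZMod p) % 2 = 1 := by
    rw [ZMod.card]
    rcases (Fact.out : p.Prime).eq_two_or_odd with h | h
    · exact absurd h hp
    · exact h
  have hdeg1 : (Polynomial.C ((a : ℤ) : ZMod p) * Polynomial.X ^ 2).degree = 2 := by
    rw [Polynomial.degree_C_mul_X_pow 2 ha0]
    rfl
  have hdeg2 : (Polynomial.C ((b : ℤ) : ZMod p) * Polynomial.X ^ 2 -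
      Polynomial.C (1 : ZMod p)).degree = 2 := by
    rw [Polynomial.degree_sub_C]
    · rw [Polynomial.degree_C_mul_X_pow 2 hb0]
      rfl
    · rw [Polynomial.degree_C_mul_X_pow 2 hb0]
      exact_mod_cast (by norm_num : (0 : ℕ) < 2)
  obtain ⟨x, y, hxy⟩ := FiniteField.exists_root_sum_quadratic hdeg1 hdeg2 hodd
  simp only [Polynomial.eval_mul, Polynomial.eval_C, Polynomial.eval_pow, Polynomial.eval_X,
    Polynomial.eval_sub] at hxy
  obtain ⟨x, rfl⟩ := ZMod.intCast_surjective x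
  obtain ⟨y, rfl⟩ := ZMod.intCast_surjective y
  have hdvd : (p : ℤ) ∣ a * x ^ 2 + b * y ^ 2 - 1 := by
    rw [← ZMod.intCast_zmod_eq_zero_iff_dvd]
    push_cast
    linear_combination hxy
  have hz : ‖((a * x ^ 2 + b * y ^ 2 - 1 : ℤ) : ℚ_[p])‖ < 1 := by
    have h2 := (PadicInt.norm_int_lt_one_iff_dvd (p := p) (a * x ^ 2 + b * y ^ 2 - 1)).2 hdvd
    rw [PadicInt.norm_def] at h2
    simpa using h2
  obtain ⟨w, hw⟩ := isSquare_one_add hp _ hz
  have hw' : w ^ 2 = (a : ℚ_[p]) * (x : ℚ_[p]) ^ 2 + (b : ℚ_[p]) * (y : ℚ_[p]) ^ 2 := by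
    push_cast at hw
    linear_combination -hw
  refine ⟨(x : ℚ_[p]), (y : ℚ_[p]), w, ?_, hw'⟩
  by_contra hcon
  push Not at hcon
  obtain ⟨h1, h2, h3⟩ := hcon
  have h4 : ((a * x ^ 2 + b * y ^ 2 - 1 : ℤ) : ℚ_[p]) = -1 := by
    push_cast
    rw [h1, h2]
    ring
  rw [h4, norm_neg, norm_one] at hz
  exact lt_irrefl _ hz

/-- L2': solubility if `a` is a square. -/
theorem iso_of_sq {p : ℕ} [Fact p.Prime] (a b : ℤ) (h : Sq p a) :
    Pool.Agent.HP.Conic.Iso ℚ_[p] a b := by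
  obtain ⟨r, hr⟩ := h
  refine ⟨1, 0, r, Or.inl one_ne_zero, ?_⟩
  push_cast at hr
  linear_combination -hr

/-- L2'': solubility if `-a b` is a square. -/
theorem iso_of_sq' {p : ℕ} [Fact p.Prime] (a b : ℤ) (hb : b ≠ 0) (h : Sq p (-a * b : ℤ)) :
    Pool.Agent.HP.Conic.Iso ℚ_[p] a b := by
  obtain ⟨r, hr⟩ := h
  push_cast at hr
  by_cases ha : a = 0
  · subst ha
    refine ⟨1, 0, 0, Or.inl one_ne_zero, ?_⟩
    simp
  · refine ⟨r, (a : ℚ_[p]), 0, Or.inr (Or.inl (by exact_mod_cast ha)), ?_⟩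
    linear_combination (a : ℚ_[p]) * hr

end X15B
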