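import Pool.Agent.Lib.MP_87c685_nt_X15B.Defs
import Pool.Agent.Lib.MP_87c685_nt_X15B.Leg
import Pool.Agent.Lib.MP_87c685_nt_X15B.OddIso

open NumberField WeierstrassCurve Finset

namespace X15B

open X15

theorem phl_SS {n s : ℕ} (hs : s ∈ SS n) :
    s.Prime ∧ ((s ∣ n ∧ s ≠ 2) ∨ (s = 2 ∧ n % 4 ≠ 3) ∨ (s = 5 ∧ n % 3 = 1)) := by
  unfold SS at hs
  rw [Finset.mem_union, Finset.mem_union, Finset.mem_filter] at hs
  rcases hs with (⟨h1, h2⟩ | h) | h
  · exact ⟨Nat.prime_of_mem_primeFactors h1, Or.inl ⟨Nat.dvd_of_mem_primeFactors h1, h2⟩⟩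
  · by_cases h4 : n % 4 = 3
    · rw [if_pos h4] at h
      exact absurd h (Finset.notMem_empty _)
    · rw [if_neg h4, Finset.mem_singleton] at h
      subst h
      exact ⟨Nat.prime_two, Or.inr (Or.inl ⟨rfl, h4⟩)⟩
  · by_cases h4 : n % 3 = 1
    · rw [if_pos h4, Finset.mem_singleton] at h
      subst h
      exact ⟨by norm_num, Or.inr (Or.inr ⟨rfl, h4⟩)⟩
    · rw [if_neg h4] at h
      exact absurd h (Finset.notMem_empty _)

theorem phl_TT {n p : ℕ} (hn : n ≠ 0) (hp : p.Prime) (hp2 : p ≠ 2) (hd : p ∣ n) : p ∈ TT n := by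
  unfold TT
  rw [Finset.mem_union, Finset.mem_filter]
  exact Or.inl ⟨Nat.mem_primeFactors.mpr ⟨hp, hd, hn⟩, hp2⟩

theorem phl_TT3 {n : ℕ} (h : n % 3 = 1) : 3 ∈ TT n := by
  unfold TT
  rw [Finset.mem_union, if_pos h]
  exact Or.inr (Finset.mem_singleton_self 3)

theorem phl_sqf (m : Finset ℕ) (hm : ∀ s ∈ m, s.Prime) : Squarefree (∏ s ∈ m, s) := by
  classical
  induction m using Finset.induction_on with
  | empty => simp
  | insert a m ha ih =>
    rw [Finset.prod_insert ha]
    have h1 : a.Prime := hm a (Finset.mem_insert_self a m)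
    have h2 : a.Coprime (∏ s ∈ m, s) := by
      refine Nat.Coprime.prod_right fun s hs => ?_
      rw [Nat.coprime_primes h1 (hm s (Finset.mem_insert_of_mem hs))]
      rintro rfl
      exact ha hs
    rw [Nat.squarefree_mul h2]
    exact ⟨h1.squarefree, ih fun s hs => hm s (Finset.mem_insert_of_mem hs)⟩

theorem phl_dvd {p : ℕ} (hp : p.Prime) (m : Finset ℕ) (hm : ∀ s ∈ m, s.Prime) :
    p ∣ ∏ s ∈ m, s ↔ p ∈ m := by
  constructor
  · intro h
    obtain ⟨s, hs, hd⟩ := (hp.prime.dvd_finsetProd_iff _).mp h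
    rwa [(Nat.prime_dvd_prime_iff_eq hp (hm s hs)).mp hd]
  · intro h
    exact Finset.dvd_prod_of_mem _ h

/-- product of symbols -/
theorem phl_jac (n q : ℕ) (m : Finset ℕ) (hq : q ∉ m) :
    ∏ s ∈ m, ep n q s = jacobiSym ((∏ s ∈ m, s : ℕ) : ℤ) q := by
  classical
  induction m using Finset.induction_on with
  | empty => simp
  | insert a m ha ih =>
    have h1 : q ≠ a := fun h => hq (h ▸ Finset.mem_insert_self a m)
    have h2 : q ∉ m := fun h => hq (Finset.mem_insert_of_mem h)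
    rw [Finset.prod_insert ha, Finset.prod_insert ha, ih h2]
    push_cast
    rw [jacobiSym.mul_left]
    congr 1
    unfold ep
    rw [if_neg h1.symm]

theorem phl_Sq {p : ℕ} [Fact p.Prime] (hp2 : p ≠ 2) (a : ℤ) (ha : ¬ (p : ℤ) ∣ a)
    (h : jacobiSym a p = 1) : Sq p a := by
  rw [sq_int_iff hp2 a ha]
  rw [← jacobiSym.legendreSym.to_jacobiSym] at h
  refine (legendreSym.eq_one_iff p ?_).mp h
  intro h0
  exact ha ((ZMod.intCast_zmod_eq_zero_iff_dvd a p).mp h0)

/-- local solubility at the odd primes -/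
theorem phl_local (n : ℕ) (hn : Squarefree n)
    (hsign : n % 3 = 1 ↔ n % 5 = 1 ∨ n % 5 = 4) (m : Finset ℕ) (hm : m ∈ PhiF n)
    (p : ℕ) [hpf : Fact p.Prime] (hp2 : p ≠ 2) :
    Pool.Agent.HP.Conic.Iso ℚ_[p] (-(n : ℤ)) ((∏ s ∈ m, s : ℕ) : ℤ) := by
  have hp : p.Prime := hpf.out
  have hn0 : n ≠ 0 := hn.ne_zero
  obtain ⟨hsub, hsym⟩ := Finset.mem_filter.mp hm
  rw [Finset.mem_powerset] at hsub
  have hprime : ∀ s ∈ m, s.Prime := fun s hs => (phl_SS (hsub hs)).1
  set c : ℕ := ∏ s ∈ m, s with hc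
  have hcs : Squarefree c := phl_sqf m hprime
  have hc0 : c ≠ 0 := hcs.ne_zero
  by_cases hpn : p ∣ n
  · have hT := hsym p (phl_TT hn0 hp hp2 hpn)
    by_cases hpc : p ∣ c
    · -- both
      have hpm : p ∈ m := (phl_dvd hp m hprime).mp hpc
      obtain ⟨n', hn'⟩ := hpn
      obtain ⟨c', hc'⟩ := hpc
      have hpn' : ¬ p ∣ n' := by
        intro h
        obtain ⟨k, hk⟩ := h
        have h2 : p * p ∣ n := ⟨k, by rw [hn', hk]; ring⟩
        exact hp.one_lt.ne' (Nat.isUnit_iff.mp (hn p h2))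
      have hpc' : ¬ p ∣ c' := by
        intro h
        obtain ⟨k, hk⟩ := h
        have h2 : p * p ∣ c := ⟨k, by rw [hc', hk]; ring⟩
        exact hp.one_lt.ne' (Nat.isUnit_iff.mp (hcs p h2))
      have hdiv : n / p = n' := by
        rw [hn']; exact Nat.mul_div_cancel_left n' hp.pos
      have hprod : ∏ s ∈ m.erase p, s = c' := by
        have h1 : p * ∏ s ∈ m.erase p, s = p * c' := by
          rw [Finset.mul_prod_erase m (fun s => s) hpm, ← hc, hc']
        exact Nat.eq_of_mul_eq_mul_left hp.pos h1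
      have h1 : jacobiSym ((n' : ℤ) * (c' : ℤ)) p = 1 := by
        rw [← Finset.mul_prod_erase m _ hpm, phl_jac n p (m.erase p) (Finset.notMem_erase p m),
          hprod] at hT
        rw [jacobiSym.mul_left]
        rw [← hT]
        congr 1
        unfold ep
        rw [if_pos rfl, hdiv]
      have h2 : Sq p ((n' : ℤ) * (c' : ℤ) : ℤ) := by
        refine phl_Sq hp2 _ ?_ h1
        intro h
        have h3 : p ∣ n' * c' := by exact_mod_cast h
        rcases hp.dvd_mul.mp h3 with h4 | h4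
        · exact hpn' h4
        · exact hpc' h4
      refine iso_of_sq' _ _ (by exact_mod_cast hc0) ?_
      have h3 : ((-(-(n : ℤ)) * (c : ℤ) : ℤ) : ℚ) = ((n' : ℤ) * (c' : ℤ) : ℤ) * ((p : ℚ)) ^ 2 := by
        rw [hn', hc']
        push_cast
        ring
      rw [h3]
      exact (sq_mul_sq_iff _ _ (by exact_mod_cast hp.ne_zero)).mpr h2
    · have hpm : p ∉ m := fun h => hpc ((phl_dvd hp m hprime).mpr h)
      rw [phl_jac n p m hpm] at hT
      refine (iso_of_sq _ _ (phl_Sq hp2 _ ?_ hT)).symm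
      intro h
      exact hpc (by exact_mod_cast h)
  · by_cases hpc : p ∣ c
    · have hpm : p ∈ m := (phl_dvd hp m hprime).mp hpc
      rcases (phl_SS (hsub hpm)).2 with h | h | h
      · exact absurd h.1 hpn
      · exact absurd h.1 hp2
      · obtain ⟨h5, h3⟩ := h
        subst h5
        refine iso_of_sq _ _ ?_
        have h5 := hsign.mp h3
        rw [sq_int_iff (by norm_num) _ (by omega)]
        have h6 : ((-(n : ℤ) : ℤ) : ZMod 5) = 1 ∨ ((-(n : ℤ) : ℤ) : ZMod 5) = 4 := by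
          rcases h5 with h5 | h5
          · right
            have : ((-(n : ℤ) : ℤ) : ZMod 5) = ((4 : ℤ) : ZMod 5) := by
              rw [ZMod.intCast_eq_intCast_iff_dvd_sub]
              push_cast
              omega
            rw [this]; rfl
          · left
            have : ((-(n : ℤ) : ℤ) : ZMod 5) = ((1 : ℤ) : ZMod 5) := by
              rw [ZMod.intCast_eq_intCast_iff_dvd_sub]
              push_cast
              omega
            rw [this]; rfl
        rcases h6 with h6 | h6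
        · rw [h6]; exact ⟨1, rfl⟩
        · rw [h6]; exact ⟨2, rfl⟩
    · refine iso_of_unit hp2 _ _ ?_ ?_
      · intro h
        rw [dvd_neg] at h
        exact hpn (by exact_mod_cast h)
      · intro h
        exact hpc (by exact_mod_cast h)

theorem phl_norm (n c : ℕ) (hn : n ≠ 0) (h : Pool.Agent.HP.Conic.Iso ℚ (-(n : ℤ)) (c : ℤ)) :
    ∃ x y z : ℤ, z ≠ 0 ∧ (c : ℤ) * z ^ 2 = x ^ 2 + n * y ^ 2 := by
  obtain ⟨x, y, z, h0, h1⟩ := h
  push_cast at h1
  have hnpos : (0 : ℚ) < n := by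
    have : 0 < n := Nat.pos_of_ne_zero hn
    exact_mod_cast this
  have hy : y ≠ 0 := by
    intro hy
    rw [hy] at h1
    have hz : z = 0 := by
      have : z ^ 2 ≤ 0 := by nlinarith [sq_nonneg x]
      exact pow_eq_zero_iff (two_ne_zero) |>.mp (le_antisymm this (sq_nonneg z))
    have hx : x = 0 := by
      rw [hz] at h1
      have : (n : ℚ) * x ^ 2 = 0 := by linarith
      rcases mul_eq_zero.mp this with h2 | h2
      · exact absurd h2 hnpos.ne'
      · exact pow_eq_zero_iff (two_ne_zero) |>.mp h2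
    rcases h0 with h | h | h
    · exact h hx
    · exact h hy
    · exact h hz
  set D : ℤ := (x.den : ℤ) * y.den * z.den with hD
  have ex : (x * D : ℚ) = ((x.num * y.den * z.den : ℤ) : ℚ) := by
    rw [hD]
    push_cast
    have := Rat.mul_den_eq_num x
    calc x * ((x.den : ℚ) * y.den * z.den) = (x * x.den) * y.den * z.den := by ring
      _ = _ := by rw [this]
  have ey : (y * D : ℚ) = ((x.den * y.num * z.den : ℤ) : ℚ) := by
    rw [hD]
    push_cast
    have := Rat.mul_den_eq_num y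
    calc y * ((x.den : ℚ) * y.den * z.den) = x.den * (y * y.den) * z.den := by ring
      _ = _ := by rw [this]
  have ez : (z * D : ℚ) = ((x.den * y.den * z.num : ℤ) : ℚ) := by
    rw [hD]
    push_cast
    have := Rat.mul_den_eq_num z
    calc z * ((x.den : ℚ) * y.den * z.den) = x.den * y.den * (z * z.den) := by ring
      _ = _ := by rw [this]
  refine ⟨x.den * y.den * z.num, x.num * y.den * z.den, x.den * y.num * z.den, ?_, ?_⟩
  · refine mul_ne_zero (mul_ne_zero ?_ ?_) ?_
    · exact_mod_cast x.den_ne_zero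
    · exact Rat.num_ne_zero.mpr hy
    · exact_mod_cast z.den_ne_zero
  · have h2 : (c : ℚ) * (y * D) ^ 2 = (z * D) ^ 2 + n * (x * D) ^ 2 := by
      linear_combination (-(D : ℚ) ^ 2) * h1
    rw [ex, ey, ez] at h2
    exact_mod_cast h2

/-- L3: symbols give norms (Legendre). -/
theorem mem_Phi_of_mem_PhiF (n : ℕ) (hn : Squarefree n)
    (hsign : n % 3 = 1 ↔ n % 5 = 1 ∨ n % 5 = 4) (m : Finset ℕ) (hm : m ∈ PhiF n) :
    ∏ s ∈ m, s ∈ Phi n := by
  have hn0 : n ≠ 0 := hn.ne_zero
  obtain ⟨hsub, hsym⟩ := Finset.mem_filter.mp hm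
  rw [Finset.mem_powerset] at hsub
  have hprime : ∀ s ∈ m, s.Prime := fun s hs => (phl_SS (hsub hs)).1
  have hcs : Squarefree (∏ s ∈ m, s) := phl_sqf m hprime
  have hc0 : (∏ s ∈ m, s) ≠ 0 := hcs.ne_zero
  refine ⟨hcs, ?_, ?_, ?_⟩
  · intro p hp hd
    have hpm := (phl_dvd hp m hprime).mp hd
    rcases (phl_SS (hsub hpm)).2 with h | h | h
    · exact Or.inl h.1
    · exact Or.inr (Or.inl h)
    · exact Or.inr (Or.inr h)
  · refine phl_norm n _ hn0 ?_
    refine leg _ _ (neg_ne_zero.mpr (by exact_mod_cast hn0)) (by exact_mod_cast hc0) ?_ ?_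
    · refine ⟨0, 1, Real.sqrt ((∏ s ∈ m, s : ℕ) : ℝ), Or.inr (Or.inl one_ne_zero), ?_⟩
      rw [Real.sq_sqrt (Nat.cast_nonneg _)]
      push_cast
      ring
    · intro p hp hp2
      exact phl_local n hn hsign m hm p hp2
  · intro h3
    have h1 := hsym 3 (phl_TT3 h3)
    have h3m : 3 ∉ m := by
      intro h
      rcases (phl_SS (hsub h)).2 with h' | h' | h'
      · have := h'.1
        omega
      · omega
      · omega
    rw [phl_jac n 3 m h3m] at h1
    set c : ℕ := ∏ s ∈ m, s with hc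
    have h5 : jacobiSym (c : ℤ) 3 = jacobiSym ((c : ℤ) % 3) 3 := by
      exact_mod_cast jacobiSym.mod_left (c : ℤ) 3
    have h6 : c % 3 = 0 ∨ c % 3 = 1 ∨ c % 3 = 2 := by omega
    rcases h6 with h6 | h6 | h6
    · exfalso
      have h7 : (c : ℤ) % 3 = 0 := by omega
      rw [h5, h7, jacobiSym.zero_left (by norm_num)] at h1
      exact zero_ne_one h1
    · exact h6
    · exfalso
      have h7 : (c : ℤ) % 3 = 2 := by omega
      rw [h5, h7] at h1
      have h8 : jacobiSym 2 3 = -1 := by decide +kernel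
      rw [h8] at h1
      norm_num at h1

theorem Phi_finite (n : ℕ) (hn : Squarefree n) : (Phi n).Finite := by
  classical
  have hn0 : n ≠ 0 := hn.ne_zero
  refine Set.Finite.subset
    (((n.primeFactors ∪ {2, 5}).powerset.image fun m => ∏ s ∈ m, s).finite_toSet) ?_
  intro c hc
  obtain ⟨h1, h2, -, -⟩ := hc
  rw [Finset.mem_coe, Finset.mem_image]
  refine ⟨c.primeFactors, ?_, Nat.prod_primeFactors_of_squarefree h1⟩
  rw [Finset.mem_powerset]
  intro p hp
  rw [Finset.mem_union]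
  rcases h2 p (Nat.prime_of_mem_primeFactors hp) (Nat.dvd_of_mem_primeFactors hp) with h | h | h
  · exact Or.inl (Nat.mem_primeFactors.mpr ⟨Nat.prime_of_mem_primeFactors hp, h, hn0⟩)
  · right; rw [h.1]; simp
  · right; rw [h.1]; simp

theorem card_PhiF_le (n : ℕ) (hn : Squarefree n) (hsign : n % 3 = 1 ↔ n % 5 = 1 ∨ n % 5 = 4) :
    (PhiF n).card ≤ Nat.card (Phi n) := by
  classical
  have hinj : Set.InjOn (fun m : Finset ℕ => ∏ s ∈ m, s) (PhiF n) := by
    intro m hm m' hm' he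
    have h1 := (Finset.mem_filter.mp (Finset.mem_coe.mp hm)).1
    have h2 := (Finset.mem_filter.mp (Finset.mem_coe.mp hm')).1
    rw [Finset.mem_powerset] at h1 h2
    have hp1 : ∀ s ∈ m, s.Prime := fun s hs => (phl_SS (h1 hs)).1
    have hp2 : ∀ s ∈ m', s.Prime := fun s hs => (phl_SS (h2 hs)).1
    simp only at he
    ext p
    constructor
    · intro hp
      have h3 := (phl_dvd (hp1 p hp) m hp1).mpr hp
      rw [he] at h3
      exact (phl_dvd (hp1 p hp) m' hp2).mp h3
    · intro hp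
      have h3 := (phl_dvd (hp2 p hp) m' hp2).mpr hp
      rw [← he] at h3
      exact (phl_dvd (hp2 p hp) m hp1).mp h3
  rw [← Finset.card_image_of_injOn hinj, ← Set.ncard_coe_finset]
  have h1 : Nat.card (Phi n) = (Phi n).ncard := rfl
  rw [h1]
  refine Set.ncard_le_ncard ?_ (Phi_finite n hn)
  intro c hc
  rw [Finset.mem_coe, Finset.mem_image] at hc
  obtain ⟨m, hm, rfl⟩ := hc
  exact mem_Phi_of_mem_PhiF n hn hsign m hm

end X15B
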