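import Mathlib

open NumberField WeierstrassCurve Finset

namespace X15B

theorem fk_rank_zero_of_finite (G : Type*) [AddCommGroup G] [Finite G] :
    Module.finrank ℤ G = 0 := by
  have h : Module.rank ℤ G = 0 := by
    rw [rank_eq_zero_iff]
    intro x
    refine ⟨(addOrderOf x : ℤ), ?_, ?_⟩
    · exact_mod_cast (addOrderOf_pos x).ne'
    · rw [natCast_zsmul]
      exact addOrderOf_nsmul_eq_zero x
  unfold Module.finrank
  rw [h]
  exact map_zero _

/-- L17: homomorphisms with finite kernel. -/
theorem finite_of_ker {G H : Type*} [AddCommGroup G] [AddCommGroup H] [Module.Finite ℤ H]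
    (φ : G →+ H) (hφ : Finite φ.ker) :
    Module.Finite ℤ G ∧ Module.finrank ℤ G ≤ Module.finrank ℤ H := by
  set f : G →ₗ[ℤ] H := φ.toIntLinearMap with hf
  have hk : Finite (LinearMap.ker f) := hφ
  have h1 : Module.Finite ℤ G := by
    refine ⟨Submodule.fg_of_fg_map_of_fg_inf_ker f ?_ ?_⟩
    · exact IsNoetherian.noetherian _
    · rw [top_inf_eq]
      have : Module.Finite ℤ (LinearMap.ker f) := Module.Finite.of_finite
      exact Module.Finite.iff_fg.1 this
  refine ⟨h1, ?_⟩
  have h2 := Submodule.finrank_quotient_add_finrank (LinearMap.ker f)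
  rw [fk_rank_zero_of_finite (LinearMap.ker f), add_zero, (f.quotKerEquivRange).finrank_eq] at h2
  rw [← h2]
  exact Submodule.finrank_le _

theorem finite_of_rank_zero {G : Type*} [AddCommGroup G] [Module.Finite ℤ G]
    (h : Module.finrank ℤ G = 0) : Finite G := by
  have h1 : Module.IsTorsion ℤ G := Module.finrank_eq_zero_iff_isTorsion.1 h
  exact Module.finite_of_fg_torsion G h1

end X15B
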