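import Pool.Agent.Lib.MP_87c685_nt_X15B.Defs
import Pool.Agent.Lib.MP_87c685_nt_X15.SqId
import Pool.Agent.Lib.MP_87c685_nt_X15.Ram
import Pool.Agent.Lib.MP_87c685_nt_X15.Conj

open NumberField WeierstrassCurve Finset

namespace X15B

open X15

private theorem pcl_eq_of_sq (c c' : ℕ) (hc : Squarefree c) (hc' : Squarefree c')
    (h : IsSquare (c * c')) : c = c' := by
  obtain ⟨r, hr⟩ := h
  have h0 : c ≠ 0 := hc.ne_zero
  have h0' : c' ≠ 0 := hc'.ne_zero
  have hr0 : r ≠ 0 := by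
    rintro rfl
    simp at hr
    omega
  apply Nat.eq_of_factorization_eq h0 h0'
  intro p
  have h1 := congrArg (fun m => m.factorization p) hr
  simp only [Nat.factorization_mul h0 h0', Nat.factorization_mul hr0 hr0, Finsupp.add_apply] at h1
  have h2 := hc.natFactorization_le_one p
  have h3 := hc'.natFactorization_le_one p
  omega

private theorem pcl_sq_cancel (a b : ℕ) (ha : a ≠ 0) (h : IsSquare (a ^ 2 * b)) : IsSquare b := by
  obtain ⟨r, hr⟩ := h
  have h1 : a ^ 2 ∣ r ^ 2 := ⟨b, by rw [hr]; ring⟩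
  rw [Nat.pow_dvd_pow_iff two_ne_zero] at h1
  obtain ⟨t, rfl⟩ := h1
  refine ⟨t, ?_⟩
  have : a ^ 2 * b = a ^ 2 * (t * t) := by rw [hr]; ring
  exact Nat.eq_of_mul_eq_mul_left (by positivity) this

private theorem pcl_three (n a b c : ℕ) (hn : n ≠ 0) (ha : Squarefree a) (hb : Squarefree b)
    (hc : Squarefree c) (hab : a ≠ b) (hac : a ≠ c)
    (h1 : IsSquare (a * b) ∨ IsSquare (n * (a * b)))
    (h2 : IsSquare (a * c) ∨ IsSquare (n * (a * c))) : b = c := by
  have k1 : IsSquare (n * (a * b)) := h1.resolve_left fun h => hab (pcl_eq_of_sq a b ha hb h)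
  have k2 : IsSquare (n * (a * c)) := h2.resolve_left fun h => hac (pcl_eq_of_sq a c ha hc h)
  apply pcl_eq_of_sq b c hb hc
  apply pcl_sq_cancel (n * a) (b * c) (Nat.mul_ne_zero hn ha.ne_zero)
  have h3 := k1.mul k2
  have e : n * (a * b) * (n * (a * c)) = (n * a) ^ 2 * (b * c) := by ring
  rwa [e] at h3

private theorem pcl_half (N : ℕ) (w : ℤ) (h : w ^ 2 = 4 * (N : ℤ)) : IsSquare N := by
  have h1 : (2 : ℤ) ^ 2 ∣ w ^ 2 := ⟨N, by rw [h]; norm_num⟩
  rw [Int.pow_dvd_pow_iff two_ne_zero] at h1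
  obtain ⟨t, rfl⟩ := h1
  refine ⟨t.natAbs, ?_⟩
  have h2 : (N : ℤ) = t * t := by nlinarith
  zify
  rw [h2, ← sq, ← sq, sq_abs]

/-- The square root ideals of two elements of `Φ_n` in the same class. -/
private theorem pcl_fibre (n : ℕ) (hn : Squarefree n) (hn1 : n ≠ 1) (hn3 : n ≠ 3) (K : Type*)
    [Field K] [NumberField K] (h2 : Module.finrank ℚ K = 2) (s : K) (hs : s ^ 2 = ((-(n : ℤ) : ℤ) : K))
    (c c' : ℕ) (hc : c ≠ 0) (hc' : c' ≠ 0) (M M' : Ideal (𝓞 K))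
    (hM : M ^ 2 = Ideal.span {((c : ℤ) : 𝓞 K)}) (hM' : M' ^ 2 = Ideal.span {((c' : ℤ) : 𝓞 K)})
    (hp : (M * M').IsPrincipal) : IsSquare (c * c') ∨ IsSquare (n * (c * c')) := by
  have hn0 : n ≠ 0 := hn.ne_zero
  have hd : Squarefree (-(n : ℤ)) := by
    rw [← Int.squarefree_natAbs, Int.natAbs_neg, Int.natAbs_natCast]
    exact hn
  have hneg : (-(n : ℤ)) < 0 := by omega
  obtain ⟨γ, hγ⟩ := (Submodule.isPrincipal_iff _).1 hp
  change M * M' = Ideal.span {γ} at hγ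
  have hN : Ideal.absNorm (Ideal.span {γ}) = c * c' := by
    rw [← hγ, map_mul, ram_norm K h2 c M hM, ram_norm K h2 c' M' hM', Int.natAbs_natCast,
      Int.natAbs_natCast]
  have hsq : Ideal.span {γ ^ 2} = Ideal.span {((c * c' : ℤ) : 𝓞 K)} := by
    rw [← Ideal.span_singleton_pow, ← hγ, mul_pow, hM, hM', Ideal.span_singleton_mul_span_singleton]
    push_cast
    rfl
  rw [Ideal.span_singleton_eq_span_singleton] at hsq
  obtain ⟨u, hu⟩ := hsq.symm
  obtain ⟨a, w, h1, h3, _⟩ := norm_form K h2 (-(n : ℤ)) hd hneg s hs γ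
  obtain ⟨a', w', h1', h3', h4'⟩ := norm_form K h2 (-(n : ℤ)) hd hneg s hs (u : 𝓞 K)
  rw [hN] at h3
  have hNu : Ideal.absNorm (Ideal.span {(u : 𝓞 K)}) = 1 := by
    rw [Ideal.absNorm_eq_one_iff]
    exact Ideal.span_singleton_eq_top.2 u.isUnit
  rw [hNu] at h3'
  have hw' : w' = 0 := by
    by_contra hw0
    have hw1 : 1 ≤ w' ^ 2 := by
      have : 0 < w' ^ 2 := by positivity
      omega
    have ha0 : 0 ≤ a' ^ 2 := sq_nonneg _
    have hn4 : (n : ℤ) ≤ 4 := by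
      push_cast at h3'
      nlinarith
    have hn4' : n ≤ 4 := by exact_mod_cast hn4
    have hn2 : n = 2 := by
      have h5 : n ≠ 4 := by
        rintro rfl
        have := hn 2 ⟨1, by norm_num⟩
        norm_num at this
      omega
    subst hn2
    obtain ⟨⟨x, hx⟩, ⟨y, hy⟩⟩ := h4' (by norm_num)
    have hy0 : y ≠ 0 := by
      rintro rfl
      exact hw0 (by rw [hy]; ring)
    have hy1 : 1 ≤ y ^ 2 := by
      have : 0 < y ^ 2 := by positivity
      omega
    rw [hx, hy] at h3'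
    push_cast at h3'
    nlinarith [sq_nonneg x]
  have ha' : a' ≠ 0 := by
    rintro rfl
    rw [hw'] at h3'
    norm_num at h3'
  -- compare the coefficient of `s`
  have hK : ((γ : K)) ^ 2 = ((c : K) * (c' : K)) * ((u : 𝓞 K) : K) := by
    have := congrArg (fun x : 𝓞 K => (x : K)) hu
    simp only [map_mul, map_pow, map_intCast] at this
    rw [← this]
    push_cast
    ring
  have hu2 : 2 * (((u : 𝓞 K) : K)) = (a' : K) := by
    rw [h1', hw']
    simp
  have hs' : s ^ 2 = -(n : K) := by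
    rw [hs]
    push_cast
    ring
  have hcmp : (((a : ℚ) ^ 2 - n * (w : ℚ) ^ 2 : ℚ) : K) + ((2 * (a : ℚ) * w : ℚ) : K) * s =
      ((2 * (c : ℚ) * c' * a' : ℚ) : K) + ((0 : ℚ) : K) * s := by
    have h5 : (2 * (γ : K)) ^ 2 = 2 * ((c : K) * (c' : K)) * (2 * ((u : 𝓞 K) : K)) := by
      rw [mul_pow, hK]
      ring
    rw [h1, hu2] at h5
    push_cast
    linear_combination h5 - (w : K) ^ 2 * hs'
  have h6 := (conj_uniq K (-(n : ℤ)) hneg s hs hcmp).2
  have h7 : a = 0 ∨ w = 0 := by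
    have h8 : (a : ℚ) = 0 ∨ (w : ℚ) = 0 := by
      rcases mul_eq_zero.1 h6 with h | h
      · left
        rcases mul_eq_zero.1 h with h | h
        · norm_num at h
        · exact h
      · right; exact h
    rcases h8 with h | h
    · left; exact_mod_cast h
    · right; exact_mod_cast h
  rcases h7 with h | h
  · right
    apply pcl_half _ (n * w)
    rw [h] at h3
    push_cast at h3 ⊢
    linear_combination (n : ℤ) * h3
  · left
    apply pcl_half _ a
    rw [h] at h3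
    push_cast at h3 ⊢
    linear_combination h3

private theorem pcl_condM (n : ℕ) (h3 : n % 3 ≠ 1) (c : ℕ) (hc : c ∈ Phi n) :
    CondM (-(n : ℤ)) c := by
  obtain ⟨h1, h2, _, _⟩ := hc
  refine ⟨?_, ?_, ?_, ?_⟩
  · have := h1.ne_zero
    omega
  · rw [← Int.squarefree_natAbs, Int.natAbs_natCast]
    exact h1
  · intro q hq hq2 hqc
    have h4 := h2 q hq (by exact_mod_cast hqc)
    rcases h4 with h | h | h
    · rw [dvd_neg]
      exact_mod_cast h
    · exact absurd h.1 hq2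
    · exact absurd h.2 h3
  · intro h
    have h4 := h2 2 Nat.prime_two (by exact_mod_cast h)
    rcases h4 with h | h | h
    · omega
    · omega
    · omega

/-- The class of the square root of `c` is a square. -/
private theorem pcl_square (n : ℕ) (hn : Squarefree n) (K : Type*)
    [Field K] [NumberField K] (h2 : Module.finrank ℚ K = 2) (s : K) (hs : s ^ 2 = ((-(n : ℤ) : ℤ) : K))
    (c : ℕ) (hc : c ≠ 0) (M : (nonZeroDivisors (Ideal (𝓞 K))))
    (hM : (M : Ideal (𝓞 K)) ^ 2 = Ideal.span {((c : ℤ) : 𝓞 K)})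
    (hx : ∃ x y z : ℤ, z ≠ 0 ∧ (c : ℤ) * z ^ 2 = x ^ 2 + n * y ^ 2) :
    ∃ b, b ^ 2 = ClassGroup.mk0 M := by
  have hn0 : n ≠ 0 := hn.ne_zero
  have hd : Squarefree (-(n : ℤ)) := by
    rw [← Int.squarefree_natAbs, Int.natAbs_neg, Int.natAbs_natCast]
    exact hn
  have hneg : (-(n : ℤ)) < 0 := by omega
  obtain ⟨x, y, z, hz, hxyz⟩ := hx
  have hint : IsIntegral ℤ s := by
    apply IsIntegral.of_pow (n := 2) (by norm_num)
    rw [hs]
    exact isIntegral_algebraMap (R := ℤ) (A := K) (x := -(n : ℤ))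
  let S : 𝓞 K := ⟨s, hint⟩
  let τ : 𝓞 K := (x : 𝓞 K) + (y : 𝓞 K) * S
  have hτ : (τ : K) = (x : K) + (y : K) * s := by
    show ((((x : 𝓞 K) + (y : 𝓞 K) * S : 𝓞 K)) : K) = _
    simp only [map_add, map_mul, map_intCast]
    rfl
  obtain ⟨a, w, h1, h3, _⟩ := norm_form K h2 (-(n : ℤ)) hd hneg s hs τ
  have h4 : ((2 * x : ℚ) : K) + ((2 * y : ℚ) : K) * s = ((a : ℚ) : K) + ((w : ℚ) : K) * s := by
    rw [hτ] at h1
    push_cast
    linear_combination h1
  obtain ⟨h5, h6⟩ := conj_uniq K (-(n : ℤ)) hneg s hs h4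
  have h5' : a = 2 * x := by exact_mod_cast h5.symm
  have h6' : w = 2 * y := by exact_mod_cast h6.symm
  have hNτ : (Ideal.absNorm (Ideal.span {τ}) : ℤ) = c * z ^ 2 := by
    rw [hxyz]
    rw [h5', h6'] at h3
    nlinarith
  have hNM := ram_norm K h2 c M hM
  rw [Int.natAbs_natCast] at hNM
  have hNI : Ideal.absNorm (Ideal.span {τ} * (M : Ideal (𝓞 K))) = (c * z.natAbs) ^ 2 := by
    rw [map_mul, hNM]
    zify
    rw [hNτ, mul_pow, sq_abs]
    ring
  have hτ0 : τ ≠ 0 := by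
    intro h
    rw [h] at hNτ
    simp at hNτ
    omega
  have hI0 : Ideal.span {τ} * (M : Ideal (𝓞 K)) ≠ ⊥ := by
    intro h
    rw [h, Ideal.absNorm_bot] at hNI
    have : 0 < (c * z.natAbs) ^ 2 := by positivity
    omega
  obtain ⟨J, hJ, x', y', hx', hy', hJe⟩ :=
    exists_sq_of_absNorm K h2 (-(n : ℤ)) hd hneg s hs _ hI0 _ hNI
  have hJm : J ∈ nonZeroDivisors (Ideal (𝓞 K)) := mem_nonZeroDivisors_iff_ne_zero.2 hJ
  have hsp : ∀ v : 𝓞 K, v ≠ 0 → Ideal.span {v} ∈ nonZeroDivisors (Ideal (𝓞 K)) := by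
    intro v hv
    rw [mem_nonZeroDivisors_iff_ne_zero]
    intro h
    apply hv
    rwa [Ideal.zero_eq_bot, Ideal.span_singleton_eq_bot] at h
  have hone : ∀ (v : 𝓞 K) (hv : v ≠ 0), ClassGroup.mk0 ⟨Ideal.span {v}, hsp v hv⟩ = 1 := by
    intro v hv
    rw [ClassGroup.mk0_eq_one_iff]
    exact ⟨v, rfl⟩
  refine ⟨ClassGroup.mk0 ⟨J, hJm⟩, ?_⟩
  have e1 : (⟨Ideal.span {x'}, hsp x' hx'⟩ : nonZeroDivisors (Ideal (𝓞 K))) *
      (⟨Ideal.span {τ}, hsp τ hτ0⟩ * M) = ⟨Ideal.span {y'}, hsp y' hy'⟩ * ⟨J, hJm⟩ ^ 2 := by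
    apply Subtype.ext
    exact hJe
  have e2 := congrArg ClassGroup.mk0 e1
  rw [map_mul, map_mul, map_mul, map_pow, hone x' hx', hone τ hτ0, hone y' hy', one_mul, one_mul,
    one_mul] at e2
  exact e2.symm

/-- L18: `Φ_n` and the `4`-rank of the class group, `3` not inert. -/
theorem card_Phi_le (n : ℕ) (hn : Squarefree n) (h3 : n % 3 ≠ 1) (K : Type*) [Field K]
    [NumberField K] (h2 : Module.finrank ℚ K = 2) (s : K) (hs : s ^ 2 = -(n : K)) :
    Nat.card (Phi n) ≤ 2 * Nat.card {c : ClassGroup (𝓞 K) // c ^ 2 = 1 ∧ ∃ b, b ^ 2 = c} := by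
  classical
  rcases finite_or_infinite (Phi n) with hf | hf
  swap
  · rw [Nat.card_eq_zero_of_infinite]
    exact Nat.zero_le _
  have : Fintype (Phi n) := Fintype.ofFinite _
  have hn0 : n ≠ 0 := hn.ne_zero
  have hn1 : n ≠ 1 := by omega
  have hs' : s ^ 2 = ((-(n : ℤ) : ℤ) : K) := by
    rw [hs]
    push_cast
    ring
  have hd : Squarefree (-(n : ℤ)) := by
    rw [← Int.squarefree_natAbs, Int.natAbs_neg, Int.natAbs_natCast]
    exact hn
  have hneg : (-(n : ℤ)) < 0 := by omega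
  -- the ideals
  have hex : ∀ c : Phi n, ∃ M : (nonZeroDivisors (Ideal (𝓞 K))),
      (M : Ideal (𝓞 K)) ^ 2 = Ideal.span {(((c : ℕ) : ℤ) : 𝓞 K)} := by
    intro c
    obtain ⟨M, hM, _⟩ := exists_ram_ideal K h2 (-(n : ℤ)) hd hneg s hs' ((c : ℕ) : ℤ)
      (pcl_condM n h3 c c.2)
    refine ⟨⟨M, ?_⟩, hM⟩
    rw [mem_nonZeroDivisors_iff_ne_zero]
    rintro rfl
    have hc0 : (c : ℕ) ≠ 0 := c.2.1.ne_zero
    have h4 : (((c : ℕ) : ℤ) : 𝓞 K) = 0 := by
      rw [zero_pow two_ne_zero, Ideal.zero_eq_bot, eq_comm, Ideal.span_singleton_eq_bot] at hM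
      exact hM
    have h5 : ((c : ℕ) : ℤ) = 0 := by exact_mod_cast h4
    omega
  choose M hM using hex
  have hsq1 : ∀ c : Phi n, ClassGroup.mk0 (M c) ^ 2 = 1 := by
    intro c
    rw [← map_pow]
    have h4 : Ideal.span {(((c : ℕ) : ℤ) : 𝓞 K)} ∈ nonZeroDivisors (Ideal (𝓞 K)) := by
      rw [← hM c]
      exact pow_mem (M c).2 2
    have h5 : (M c) ^ 2 = ⟨Ideal.span {(((c : ℕ) : ℤ) : 𝓞 K)}, h4⟩ := by
      apply Subtype.ext
      rw [SubmonoidClass.coe_pow]
      exact hM c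
    rw [h5, ClassGroup.mk0_eq_one_iff]
    exact ⟨_, rfl⟩
  let f : Phi n → {c : ClassGroup (𝓞 K) // c ^ 2 = 1 ∧ ∃ b, b ^ 2 = c} := fun c =>
    ⟨ClassGroup.mk0 (M c), hsq1 c,
      pcl_square n hn K h2 s hs' c c.2.1.ne_zero (M c) (hM c) c.2.2.2.1⟩
  have hkey : ∀ c c' : Phi n, f c = f c' →
      IsSquare ((c : ℕ) * (c' : ℕ)) ∨ IsSquare (n * ((c : ℕ) * (c' : ℕ))) := by
    intro c c' h
    by_cases hn3 : n = 3
    · have hmem : ∀ c : Phi n, (c : ℕ) = 1 ∨ (c : ℕ) = 3 := by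
        intro c
        have h5 : (c : ℕ) ∣ 3 := by
          apply ram_dvd_nat _ _ c.2.1
          intro p hp hpc
          rcases c.2.2.1 p hp hpc with h | h | h
          · rwa [hn3] at h
          · omega
          · omega
        exact (Nat.dvd_prime Nat.prime_three).1 h5
      rcases hmem c with h6 | h6 <;> rcases hmem c' with h7 | h7 <;> rw [h6, h7, hn3]
      · left; exact ⟨1, rfl⟩
      · right; exact ⟨3, rfl⟩
      · right; exact ⟨3, rfl⟩
      · left; exact ⟨3, rfl⟩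
    · have h5 : ClassGroup.mk0 (M c) = ClassGroup.mk0 (M c') := congrArg Subtype.val h
      have h6 : ClassGroup.mk0 (M c * M c') = 1 := by
        rw [map_mul, h5, ← sq, hsq1]
      have h7 : ((M c : Ideal (𝓞 K)) * (M c' : Ideal (𝓞 K))).IsPrincipal := by
        have := (ClassGroup.mk0_eq_one_iff (M c * M c').2).1 h6
        exact this
      exact pcl_fibre n hn hn1 hn3 K h2 s hs' c c' c.2.1.ne_zero c'.2.1.ne_zero _ _ (hM c) (hM c') h7
  have : Finite {c : ClassGroup (𝓞 K) // c ^ 2 = 1 ∧ ∃ b, b ^ 2 = c} := inferInstance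
  have : Fintype {c : ClassGroup (𝓞 K) // c ^ 2 = 1 ∧ ∃ b, b ^ 2 = c} := Fintype.ofFinite _
  rw [Nat.card_eq_fintype_card, Nat.card_eq_fintype_card]
  have h5 := card_le_mul_card_image (f := f) univ 2 ?_
  · rw [card_univ] at h5
    exact h5.trans (Nat.mul_le_mul_left 2 (card_le_univ _))
  · intro b _
    by_contra hcon
    rw [not_le] at hcon
    obtain ⟨x, hx, y, hy, z, hz, hxy, hxz, hyz⟩ := Finset.two_lt_card.1 hcon
    rw [mem_filter] at hx hy hz
    apply hyz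
    apply Subtype.ext
    exact pcl_three n x y z hn0 x.2.1 y.2.1 z.2.1 (fun h => hxy (Subtype.ext h))
      (fun h => hxz (Subtype.ext h)) (hkey x y (hx.2.trans hy.2.symm))
      (hkey x z (hx.2.trans hz.2.symm))

end X15B
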