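import Pool.Agent.Lib.MP_87c685_nt_X15.Defs

/-!
Project X15B (MP_87c685_nt): the rank of `X_0(15)` over every imaginary quadratic field with root
number `+1`.
-/

open NumberField WeierstrassCurve Finset

namespace X15B

open X15

instance fact_prime_five : Fact (Nat.Prime 5) := ⟨by norm_num⟩

/-- The group `Φ_n` for `K = ℚ(√-n)`: squarefree positive norms from `K` whose prime factors
ramify in `K` or are `5` if `5` splits and `3` is inert, and which are `1` modulo `3` if `3` is inert. -/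
def Phi (n : ℕ) : Set ℕ :=
  {c | Squarefree c ∧
    (∀ p : ℕ, p.Prime → p ∣ c → p ∣ n ∨ (p = 2 ∧ n % 4 ≠ 3) ∨ (p = 5 ∧ n % 3 = 1)) ∧
    (∃ x y z : ℤ, z ≠ 0 ∧ (c : ℤ) * z ^ 2 = x ^ 2 + n * y ^ 2) ∧ (n % 3 = 1 → c % 3 = 1)}

/-- The dual group `Ψ_n`. -/
def Psi (n : ℕ) : Set ℤ :=
  {b | Squarefree b ∧
    (∀ p : ℕ, p.Prime → (p : ℤ) ∣ b → p ∣ n ∨ (p = 2 ∧ n % 4 ≠ 3) ∨ (p = 3 ∧ n % 3 = 1)) ∧
    (n % 4 = 3 → b % 4 = 1) ∧
    (∀ (q : ℕ) [Fact q.Prime], q ≠ 2 → q ∣ n → Sq q b ∨ Sq q (b * (-(n : ℚ)))) ∧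
    (n % 4 ≠ 3 → Sq 2 b ∨ Sq 2 (b * (-(n : ℚ)))) ∧ (n % 3 = 1 → Sq 5 b)}

/-- The primes which may divide an element of `Φ_n`. -/
def SS (n : ℕ) : Finset ℕ :=
  (n.primeFactors.filter fun p => p ≠ 2) ∪ (if n % 4 = 3 then ∅ else {2}) ∪
    (if n % 3 = 1 then {5} else ∅)

/-- The odd primes which may divide an element of `Ψ_n`. -/
def TT (n : ℕ) : Finset ℕ :=
  (n.primeFactors.filter fun p => p ≠ 2) ∪ (if n % 3 = 1 then {3} else ∅)

/-- The symbol `(s, -n)_q` for a prime `s` and an odd prime `q` dividing `n` (and `(s / q)` for a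
prime `q` not dividing `n`, if `s ≠ q`). -/
def ep (n q s : ℕ) : ℤ := if s = q then jacobiSym ((n / q : ℕ) : ℤ) q else jacobiSym (s : ℤ) q

/-- `Φ_n` in terms of symbols. -/
def PhiF (n : ℕ) : Finset (Finset ℕ) :=
  (SS n).powerset.filter fun m => ∀ q ∈ TT n, ∏ s ∈ m, ep n q s = 1

/-- `Ψ_n` in terms of symbols. -/
def PsiF (n : ℕ) : Finset (Finset ℕ) :=
  (TT n).powerset.filter fun t => ∀ s ∈ SS n, ∏ q ∈ t, ep n q s = 1

/-- The group of square classes of nonzero rationals, written additively. -/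
abbrev SqC : Type := Additive (ℚˣ ⧸ (powMonoidHom 2 : ℚˣ →* ℚˣ).range)

open Classical in
/-- The square class of a rational number (`0` for the number `0`). -/
noncomputable def cl (r : ℚ) : SqC :=
  if h : r ≠ 0 then Additive.ofMul (QuotientGroup.mk (Units.mk0 r h)) else 0

open Classical in
/-- The value of the descent map at a point, for the root `e` of `(x - e) (x - e') (x - e'')`. -/
noncomputable def dval {W : WeierstrassCurve ℚ} (e e' e'' : ℚ) : W.toAffine.Point → ℚ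
  | .zero => 1
  | .some x _ _ => if x = e then (e - e') * (e - e'') else x - e

/-- The curve `X_0(15)`. -/
def X (K : Type*) [Field K] : WeierstrassCurve K := ⟨1, 1, 1, -10, -10⟩

end X15B
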