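import Pool.Agent.Lib.MP_87c685_nt_X15.Curve
import Pool.Agent.Lib.MP_87c685_nt_X15B.Defs

open NumberField WeierstrassCurve Finset

namespace X15B

open X15

theorem toE_disc (K : Type*) [Field K] : (X K).Δ = 50625 := by
  simp only [X, WeierstrassCurve.Δ, WeierstrassCurve.b₂, WeierstrassCurve.b₄,
    WeierstrassCurve.b₆, WeierstrassCurve.b₈]
  ring

theorem toE_isElliptic (K : Type*) [Field K] [CharZero K] : (X K).IsElliptic := by
  refine ⟨?_⟩
  rw [toE_disc, isUnit_iff_ne_zero]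
  norm_num

theorem toE_eq_iff {K : Type*} [Field K] (x y : K) :
    (X K).toAffine.Equation x y ↔ y ^ 2 + x * y + y = x ^ 3 + x ^ 2 - 10 * x - 10 := by
  rw [Affine.equation_iff]
  simp only [X]
  constructor
  · intro h
    linear_combination h
  · intro h
    linear_combination h

theorem toE_nonsing {K : Type*} [Field K] [CharZero K] {x y : K}
    (h : (X K).toAffine.Nonsingular x y) :
    (E K 1).toAffine.Nonsingular (4 * x + 4) (8 * y + 4 * x + 4) := by
  rw [nonsingular_iff 1 _ _ one_ne_zero]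
  have h1 := (toE_eq_iff x y).1 h.1
  linear_combination 64 * h1

/-- the map on points -/
noncomputable def toEFun (K : Type*) [Field K] [CharZero K] :
    (X K).toAffine.Point → (E K 1).toAffine.Point
  | .zero => 0
  | .some _ _ h => .some _ _ (toE_nonsing h)

theorem toE_negY {K : Type*} [Field K] (x y : K) :
    (E K 1).toAffine.negY (4 * x + 4) (8 * y + 4 * x + 4) =
      8 * (X K).toAffine.negY x y + 4 * x + 4 := by
  simp only [Affine.negY, E, X]
  ring

theorem toE_slope {K : Type*} [Field K] [CharZero K] [DecidableEq K] {x₁ x₂ y₁ y₂ : K}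
    (h₁ : (X K).toAffine.Equation x₁ y₁) (h₂ : (X K).toAffine.Equation x₂ y₂)
    (hxy : ¬(x₁ = x₂ ∧ y₁ = (X K).toAffine.negY x₂ y₂)) :
    (E K 1).toAffine.slope (4 * x₁ + 4) (4 * x₂ + 4) (8 * y₁ + 4 * x₁ + 4)
      (8 * y₂ + 4 * x₂ + 4) = 2 * (X K).toAffine.slope x₁ x₂ y₁ y₂ + 1 := by
  have four : (4 : K) ≠ 0 := by norm_num
  by_cases hx : x₁ = x₂
  · have hy : y₁ ≠ (X K).toAffine.negY x₂ y₂ := fun h => hxy ⟨hx, h⟩
    have hy12 : y₁ = y₂ := Affine.Y_eq_of_Y_ne h₁ h₂ hx hy
    subst hx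
    subst hy12
    have hy' : (8 * y₁ + 4 * x₁ + 4) ≠
        (E K 1).toAffine.negY (4 * x₁ + 4) (8 * y₁ + 4 * x₁ + 4) := by
      rw [toE_negY]
      intro h
      apply hy
      have h8 : (8 : K) ≠ 0 := by norm_num
      apply mul_left_cancel₀ h8
      linear_combination h
    rw [Affine.slope_of_Y_ne rfl hy, Affine.slope_of_Y_ne rfl hy']
    have d1 : y₁ - (X K).toAffine.negY x₁ y₁ ≠ 0 := sub_ne_zero.2 hy
    have d2 : (8 * y₁ + 4 * x₁ + 4) -
        (E K 1).toAffine.negY (4 * x₁ + 4) (8 * y₁ + 4 * x₁ + 4) ≠ 0 := sub_ne_zero.2 hy'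
    rw [div_eq_iff d2]
    have e2 : (8 * y₁ + 4 * x₁ + 4) -
        (E K 1).toAffine.negY (4 * x₁ + 4) (8 * y₁ + 4 * x₁ + 4) =
        8 * (y₁ - (X K).toAffine.negY x₁ y₁) := by
      rw [toE_negY]
      ring
    rw [e2]
    have e3 : (2 * ((3 * x₁ ^ 2 + 2 * (X K).a₂ * x₁ + (X K).a₄ - (X K).a₁ * y₁) /
        (y₁ - (X K).toAffine.negY x₁ y₁)) + 1) * (8 * (y₁ - (X K).toAffine.negY x₁ y₁)) =
        16 * (3 * x₁ ^ 2 + 2 * (X K).a₂ * x₁ + (X K).a₄ - (X K).a₁ * y₁) +
        8 * (y₁ - (X K).toAffine.negY x₁ y₁) := by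
      field_simp
      ring
    rw [e3]
    simp only [Affine.negY, E, X]
    ring
  · have hx' : (4 * x₁ + 4 : K) ≠ 4 * x₂ + 4 := by
      intro h
      apply hx
      apply mul_left_cancel₀ four
      linear_combination h
    rw [Affine.slope_of_X_ne hx, Affine.slope_of_X_ne hx']
    have d1 : x₁ - x₂ ≠ 0 := sub_ne_zero.2 hx
    have d2 : (4 * x₁ + 4 : K) - (4 * x₂ + 4) ≠ 0 := sub_ne_zero.2 hx'
    rw [div_eq_iff d2]
    field_simp
    ring

theorem toE_addX {K : Type*} [Field K] (x₁ x₂ l : K) :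
    (E K 1).toAffine.addX (4 * x₁ + 4) (4 * x₂ + 4) (2 * l + 1) =
      4 * (X K).toAffine.addX x₁ x₂ l + 4 := by
  simp only [Affine.addX, E, X]
  ring

theorem toE_addY {K : Type*} [Field K] (x₁ x₂ y₁ l : K) :
    (E K 1).toAffine.addY (4 * x₁ + 4) (4 * x₂ + 4) (8 * y₁ + 4 * x₁ + 4) (2 * l + 1) =
      8 * (X K).toAffine.addY x₁ x₂ y₁ l + 4 * (X K).toAffine.addX x₁ x₂ l + 4 := by
  simp only [Affine.addY, Affine.negAddY, Affine.negY, Affine.addX, E, X]
  ring

theorem toE_add {K : Type*} [Field K] [CharZero K] [DecidableEq K]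
    (P Q : (X K).toAffine.Point) :
    toEFun K (P + Q) = toEFun K P + toEFun K Q := by
  match P, Q with
  | .zero, Q =>
    change toEFun K (0 + Q) = 0 + toEFun K Q
    rw [zero_add, zero_add]
  | .some x y h, .zero =>
    change toEFun K (Affine.Point.some x y h + 0) = toEFun K (Affine.Point.some x y h) + 0
    rw [add_zero, add_zero]
  | .some x₁ y₁ h₁, .some x₂ y₂ h₂ =>
    by_cases hxy : x₁ = x₂ ∧ y₁ = (X K).toAffine.negY x₂ y₂
    · rw [Affine.Point.add_of_Y_eq hxy.1 hxy.2]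
      change (0 : (E K 1).toAffine.Point) =
        Affine.Point.some _ _ (toE_nonsing h₁) + Affine.Point.some _ _ (toE_nonsing h₂)
      rw [Affine.Point.add_of_Y_eq (by rw [hxy.1]) (by rw [toE_negY, hxy.1, hxy.2])]
    · have hxy' : ¬(4 * x₁ + 4 = 4 * x₂ + 4 ∧ 8 * y₁ + 4 * x₁ + 4 =
          (E K 1).toAffine.negY (4 * x₂ + 4) (8 * y₂ + 4 * x₂ + 4)) := by
        rintro ⟨hx, hy⟩
        have four : (4 : K) ≠ 0 := by norm_num
        have h8 : (8 : K) ≠ 0 := by norm_num
        have e1 : x₁ = x₂ := by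
          apply mul_left_cancel₀ four
          linear_combination hx
        apply hxy
        refine ⟨e1, ?_⟩
        rw [toE_negY, e1] at hy
        apply mul_left_cancel₀ h8
        linear_combination hy
      rw [Affine.Point.add_some hxy]
      change Affine.Point.some _ _ (toE_nonsing (Affine.nonsingular_add h₁ h₂ hxy)) =
        Affine.Point.some _ _ (toE_nonsing h₁) + Affine.Point.some _ _ (toE_nonsing h₂)
      rw [Affine.Point.add_some hxy']
      have hs := toE_slope h₁.1 h₂.1 hxy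
      simp only [Affine.Point.some.injEq]
      rw [hs, toE_addX, toE_addY]
      exact ⟨rfl, rfl⟩

/-- L16: `X_0(15)` and `y² = x (x + 9) (x - 16)`. -/
theorem exists_toE (K : Type*) [Field K] [CharZero K] [DecidableEq K] :
    ∃ f : (X K).toAffine.Point →+ (E K 1).toAffine.Point, Function.Injective f := by
  refine ⟨{ toFun := toEFun K, map_zero' := rfl, map_add' := toE_add }, ?_⟩
  intro P Q hPQ
  change toEFun K P = toEFun K Q at hPQ
  match P, Q with
  | .zero, .zero => rfl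
  | .zero, .some x y h => exact absurd hPQ.symm (Affine.Point.some_ne_zero _)
  | .some x y h, .zero => exact absurd hPQ (Affine.Point.some_ne_zero _)
  | .some x₁ y₁ h₁, .some x₂ y₂ h₂ =>
    have h3 : 4 * x₁ + 4 = 4 * x₂ + 4 ∧ 8 * y₁ + 4 * x₁ + 4 = 8 * y₂ + 4 * x₂ + 4 := by
      simpa only [toEFun, Affine.Point.some.injEq] using hPQ
    have four : (4 : K) ≠ 0 := by norm_num
    have h8 : (8 : K) ≠ 0 := by norm_num
    have e1 : x₁ = x₂ := by
      apply mul_left_cancel₀ four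
      linear_combination h3.1
    have e2 : y₁ = y₂ := by
      apply mul_left_cancel₀ h8
      linear_combination h3.2 - 4 * e1
    subst e1
    subst e2
    rfl

end X15B
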