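import Pool.Agent.Lib.MP_87c685_nt_X15B.Scale
import Pool.Agent.Lib.MP_87c685_nt_X15.Conj

open NumberField WeierstrassCurve Finset

namespace X15B

open X15

theorem tw_cast {F : Type*} [Field F] [DecidableEq F] (W1 W2 : WeierstrassCurve F)
    (h : W1 = W2) : ∃ e : W1.toAffine.Point ≃+ W2.toAffine.Point,
      ∀ x y h1, ∃ h2, e (Affine.Point.some x y h1) = Affine.Point.some x y h2 := by
  subst h
  exact ⟨AddEquiv.refl _, fun x y h1 => ⟨h1, rfl⟩⟩

/-- a map of fields acts on the points (curve with rational coefficients) -/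
theorem tw_map (F K : Type*) [Field F] [Field K] [Algebra ℚ F] [Algebra ℚ K] [DecidableEq F]
    [DecidableEq K] (d : ℚ) (f : F →ₐ[ℚ] K) (dF : F) (dK : K) (hF : algebraMap ℚ F d = dF)
    (hK : algebraMap ℚ K d = dK) :
    ∃ S : (E F dF).toAffine.Point →+ (E K dK).toAffine.Point, Function.Injective S ∧
      ∀ x y h, ∃ h', S (Affine.Point.some x y h) = Affine.Point.some (f x) (f y) h' := by
  have e1 : (E ℚ d).map (algebraMap ℚ F) = E F dF := by
    ext <;> simp only [E, WeierstrassCurve.map, map_mul, map_neg, map_pow, map_ofNat, map_zero, hF]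
  have e2 : (E ℚ d).map (algebraMap ℚ K) = E K dK := by
    ext <;> simp only [E, WeierstrassCurve.map, map_mul, map_neg, map_pow, map_ofNat, map_zero, hK]
  obtain ⟨g1, hg1⟩ := tw_cast _ _ e1.symm
  obtain ⟨g2, hg2⟩ := tw_cast _ _ e2
  refine ⟨(g2.toAddMonoidHom.comp
    (Affine.Point.map (W' := E ℚ d) (S := ℚ) f)).comp g1.toAddMonoidHom, ?_, ?_⟩
  · intro P Q hPQ
    have h1 : g2 (Affine.Point.map (W' := E ℚ d) (S := ℚ) f (g1 P))
      = g2 (Affine.Point.map (W' := E ℚ d) (S := ℚ) f (g1 Q)) := hPQ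
    exact g1.injective (Affine.Point.map_injective f (g2.injective h1))
  · intro x y h
    obtain ⟨h2, h3⟩ := hg1 x y h
    obtain ⟨h4, h5⟩ := hg2 (f x) (f y)
      (((E ℚ d).toAffine.baseChange_nonsingular f.injective ..).mpr h2)
    refine ⟨h4, ?_⟩
    rw [← h5]
    change g2 (Affine.Point.map (W' := E ℚ d) (S := ℚ) f (g1 _)) = _
    rw [h3]
    rfl

/-- L15: the map `P ↦ P - σ P` to the twist; its kernel is finite if `E(ℚ)` is. -/
theorem exists_twist (n : ℕ) (hn : Squarefree n) (K : Type*) [Field K] [NumberField K]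
    [DecidableEq K] (h2 : Module.finrank ℚ K = 2) (s : K) (hs : s ^ 2 = -(n : K))
    (hE1 : {P : ℚ × ℚ | P.2 ^ 2 = P.1 * (P.1 + 9) * (P.1 - 16)}.Finite) :
    ∃ φ : (E K 1).toAffine.Point →+ (E ℚ (-(n : ℚ))).toAffine.Point, Finite φ.ker := by
  classical
  have hn0 : n ≠ 0 := by
    rintro rfl
    exact not_squarefree_zero hn
  have hnK : (n : K) ≠ 0 := by exact_mod_cast hn0
  have hs0 : s ≠ 0 := by
    rintro rfl
    apply hnK
    linear_combination hs
  obtain ⟨σ, hσs, hσσ, hsp⟩ := exists_conj K h2 (-(n : ℤ)) (by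
      rw [← Int.squarefree_natAbs]
      simpa using hn) (by omega) s (by push_cast; exact hs)
  obtain ⟨S, hSinj, hS⟩ := tw_map K K 1 σ.toAlgHom (1 : K) (1 : K) (by simp) (by simp)
  obtain ⟨S', hSinj', hS'⟩ := tw_map K K (-(n : ℚ)) σ.toAlgHom (-(n : K)) (-(n : K))
    (by simp) (by simp)
  obtain ⟨ι, hιinj, hι⟩ := tw_map ℚ K (-(n : ℚ)) (Algebra.ofId ℚ K) (-(n : ℚ)) (-(n : K))
    (by simp) (by simp)
  obtain ⟨θ, hθinj, hθ⟩ := exists_scale K s (-(n : K)) hs0 hs
  have hrat : ∀ x : K, σ x = x → ∃ a : ℚ, x = (a : K) := by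
    intro x hx
    obtain ⟨a, b, hab⟩ := hsp x
    refine ⟨a, ?_⟩
    rw [hab] at hx
    simp only [map_add, map_mul, map_ratCast, hσs] at hx
    have h3 : (2 : K) * ((b : K) * s) = 0 := by linear_combination -hx
    rcases mul_eq_zero.mp h3 with h4 | h4
    · exact absurd h4 two_ne_zero
    · rw [hab, h4, add_zero]
  have hSS : ∀ P, S (S P) = P := by
    intro P
    cases P with
    | zero => exact (congrArg S S.map_zero).trans S.map_zero
    | some x y h =>
      obtain ⟨h3, h4⟩ := hS x y h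
      obtain ⟨h5, h6⟩ := hS (σ x) (σ y) h3
      rw [h4]
      refine h6.trans ?_
      have e1 : σ.toAlgHom (σ x) = x := hσσ x
      have e2 : σ.toAlgHom (σ y) = y := hσσ y
      simp only [Affine.Point.some.injEq]
      exact ⟨e1, e2⟩
  have hθS : ∀ P, S' (θ P) = - θ (S P) := by
    intro P
    cases P with
    | zero =>
      change S' (θ 0) = - θ (S 0)
      rw [map_zero, map_zero, map_zero, map_zero, neg_zero]
    | some x y h =>
      obtain ⟨h3, h4⟩ := hS x y h
      obtain ⟨h5, h6⟩ := hθ x y h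
      obtain ⟨h7, h8⟩ := hθ _ _ h3
      obtain ⟨h9, h10⟩ := hS' _ _ h5
      rw [h4, h6, h8, h10, Affine.Point.neg_some]
      simp only [Affine.Point.some.injEq]
      have e1 : ∀ z, σ.toAlgHom z = σ z := fun z => rfl
      constructor
      · rw [e1, e1, map_mul, map_pow, hσs]
        ring
      · rw [e1, e1, map_mul, map_pow, hσs]
        simp only [Affine.negY, E]
        ring_nf
        rfl
  have hfix : ∀ Q, S' Q = Q → Q ∈ ι.range := by
    intro Q hQ
    cases Q with
    | zero => exact ⟨0, ι.map_zero⟩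
    | some x y h =>
      obtain ⟨h3, h4⟩ := hS' x y h
      rw [h4] at hQ
      simp only [Affine.Point.some.injEq] at hQ
      obtain ⟨a, ha⟩ := hrat x hQ.1
      obtain ⟨b, hb⟩ := hrat y hQ.2
      have hdQ : (-(n : ℚ)) ≠ 0 := neg_ne_zero.mpr (by exact_mod_cast hn0)
      have hdK : (-(n : K)) ≠ 0 := neg_ne_zero.mpr hnK
      have h5 : (E ℚ (-(n : ℚ))).toAffine.Nonsingular a b := by
        rw [nonsingular_iff _ _ _ hdQ]
        have h6 := (nonsingular_iff _ _ _ hdK).mp h
        rw [ha, hb] at h6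
        have h7 : ((b ^ 2 : ℚ) : K) = ((a * (a + 9 * -(n : ℚ)) * (a - 16 * -(n : ℚ)) : ℚ) : K) := by
          push_cast
          exact h6
        exact_mod_cast h7
      refine ⟨Affine.Point.some a b h5, ?_⟩
      obtain ⟨h6, h7⟩ := hι a b h5
      rw [h7]
      simp only [Affine.Point.some.injEq]
      constructor
      · rw [ha]; simp
      · rw [hb]; simp
  obtain ⟨ψ, hψ⟩ : ∃ ψ : (E K 1).toAffine.Point →+ (E K (-(n : K))).toAffine.Point,
      ∀ P, ψ P = θ (P - S P) := ⟨θ.comp (AddMonoidHom.id _ - S), fun P => rfl⟩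
  have hψr : ∀ P, ψ P ∈ ι.range := by
    intro P
    apply hfix
    rw [hψ, hθS, map_sub, hSS, ← map_neg, neg_sub]
  obtain ⟨φ, hφ⟩ : ∃ φ : (E K 1).toAffine.Point →+ (E ℚ (-(n : ℚ))).toAffine.Point,
      ∀ P, ι (φ P) = ψ P := by
    refine ⟨(AddMonoidHom.ofInjective hιinj).symm.toAddMonoidHom.comp
      (ψ.codRestrict ι.range hψr), fun P => ?_⟩
    have := AddMonoidHom.apply_ofInjective_symm hιinj ((ψ.codRestrict ι.range hψr) P)
    exact this
  refine ⟨φ, ?_⟩
  have hfin : (φ.ker : Set (E K 1).toAffine.Point).Finite := by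
    apply Set.Finite.subset ((hE1.image (fun q : ℚ × ℚ =>
      if h : (E K 1).toAffine.Nonsingular (q.1 : K) (q.2 : K)
        then Affine.Point.some (q.1 : K) (q.2 : K) h else 0)).union (Set.finite_singleton 0))
    intro P hP
    have hP0 : φ P = 0 := hP
    have h3 : θ (P - S P) = 0 := by
      rw [← hψ, ← hφ, hP0, map_zero]
    have h4 : P - S P = 0 := hθinj (by rw [h3, map_zero])
    have h5 : S P = P := (sub_eq_zero.mp h4).symm
    cases P with
    | zero => exact Or.inr rfl
    | some x y h =>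
      left
      obtain ⟨h6, h7⟩ := hS x y h
      rw [h7] at h5
      simp only [Affine.Point.some.injEq] at h5
      obtain ⟨a, ha⟩ := hrat x h5.1
      obtain ⟨b, hb⟩ := hrat y h5.2
      subst ha hb
      refine ⟨(a, b), ?_, ?_⟩
      · have h8 := (nonsingular_iff _ _ _ one_ne_zero).mp h
        have h9 : ((b ^ 2 : ℚ) : K) = ((a * (a + 9) * (a - 16) : ℚ) : K) := by
          push_cast
          linear_combination h8
        have h10 : b ^ 2 = a * (a + 9) * (a - 16) := by exact_mod_cast h9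
        exact h10
      · simp only [dif_pos h]
  exact hfin.to_subtype

end X15B
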