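import Pool.Agent.Lib.MP_87c685_nt_X15B.RankEd
import Pool.Agent.Lib.MP_87c685_nt_X15B.Twist
import Pool.Agent.Lib.MP_87c685_nt_X15B.ToE
import Pool.Agent.Lib.MP_87c685_nt_X15B.FinKer
import Pool.Agent.Lib.MP_87c685_nt_X15B.PhiClass
import Pool.Agent.Lib.MP_87c685_nt_X15.FinE1

open NumberField WeierstrassCurve Finset

namespace X15B

open X15

open Classical in
/-- Main theorem -/
theorem main (n : ℕ) (hn : Squarefree n) (hsign : n % 3 = 1 ↔ n % 5 = 1 ∨ n % 5 = 4)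
    (K : Type*) [Field K] [NumberField K] (h2 : Module.finrank ℚ K = 2) (s : K)
    (hs : s ^ 2 = -(n : K)) :
    Module.Finite ℤ (X K).toAffine.Point ∧
    2 ^ (Module.finrank ℤ (X K).toAffine.Point + 2) ≤ Nat.card (Phi n) ^ 2 ∧
    (n % 3 ≠ 1 → Nat.card (Phi n) ≤
      2 * Nat.card {c : ClassGroup (𝓞 K) // c ^ 2 = 1 ∧ ∃ b, b ^ 2 = c}) ∧
    (Nat.card (Phi n) ≤ 2 → Finite (X K).toAffine.Point) := by
  obtain ⟨hfin, hrk⟩ := rank_Ed n hn hsign
  obtain ⟨φ, hφ⟩ := exists_twist n hn K h2 s hs finite_E1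
  obtain ⟨f, hf⟩ := exists_toE K
  have hker : Finite (φ.comp f).ker := by
    refine Finite.of_injective
      (fun P : (φ.comp f).ker => (⟨f P.1, P.2⟩ : φ.ker)) ?_
    intro P Q h
    have h1 : f P.1 = f Q.1 := congrArg Subtype.val h
    exact Subtype.ext (hf h1)
  obtain ⟨hF, hr⟩ := finite_of_ker (φ.comp f) hker
  have h3 : 2 ^ (Module.finrank ℤ (X K).toAffine.Point + 2) ≤ Nat.card (Phi n) ^ 2 :=
    (Nat.pow_le_pow_right (by norm_num) (Nat.add_le_add_right hr 2)).trans hrk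
  refine ⟨hF, h3, fun h => card_Phi_le n hn h K h2 s hs, fun h => ?_⟩
  have h4 : Nat.card (Phi n) ^ 2 ≤ 2 ^ 2 := Nat.pow_le_pow_left h 2
  have h5 : Module.finrank ℤ (X K).toAffine.Point + 2 ≤ 2 :=
    (Nat.pow_le_pow_iff_right (by norm_num)).1 (h3.trans h4)
  have h6 : Module.finrank ℤ (X K).toAffine.Point = 0 := by omega
  exact finite_of_rank_zero h6

end X15B
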