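import Pool.Agent.Lib.MP_87c685_nt_X15B.SymCount

open NumberField WeierstrassCurve Finset

namespace X15B

open X15

theorem cardF_card_SS (n : ℕ) (h5 : n % 3 = 1 → ¬ 5 ∣ n) :
    (SS n).card = (n.primeFactors.filter fun p => p ≠ 2).card + (if n % 4 = 3 then 0 else 1) +
      (if n % 3 = 1 then 1 else 0) := by
  unfold SS
  rw [card_union_of_disjoint, card_union_of_disjoint]
  · congr 1
    · congr 1
      split_ifs <;> simp
    · split_ifs <;> simp
  · rw [disjoint_left]
    intro a ha hb
    split_ifs at hb with h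
    · simp at hb
    · rw [mem_singleton] at hb
      subst hb
      simp at ha
  · rw [disjoint_left]
    intro a ha hb
    split_ifs at hb with h
    · rw [mem_singleton] at hb
      subst hb
      rw [mem_union] at ha
      rcases ha with ha | ha
      · rw [mem_filter] at ha
        exact h5 h (Nat.dvd_of_mem_primeFactors ha.1)
      · split_ifs at ha with h'
        · simp at ha
        · simp at ha
    · simp at hb

theorem cardF_card_TT (n : ℕ) :
    (TT n).card = (n.primeFactors.filter fun p => p ≠ 2).card +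
      (if n % 3 = 1 then 1 else 0) := by
  unfold TT
  rw [card_union_of_disjoint]
  · congr 1
    split_ifs <;> simp
  · rw [disjoint_left]
    intro a ha hb
    split_ifs at hb with h
    · rw [mem_singleton] at hb
      subst hb
      rw [mem_filter] at ha
      have := Nat.dvd_of_mem_primeFactors ha.1
      omega
    · simp at hb

theorem cardF_mem_SS {n s : ℕ} (hs : s ∈ SS n) : s.Prime ∧ (s ∣ n ∨ s = 2 ∨ s = 5) := by
  unfold SS at hs
  rw [mem_union, mem_union] at hs
  rcases hs with (hs | hs) | hs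
  · rw [mem_filter] at hs
    exact ⟨Nat.prime_of_mem_primeFactors hs.1, Or.inl (Nat.dvd_of_mem_primeFactors hs.1)⟩
  · split_ifs at hs
    · simp at hs
    · rw [mem_singleton] at hs
      subst hs
      exact ⟨Nat.prime_two, Or.inr (Or.inl rfl)⟩
  · split_ifs at hs
    · rw [mem_singleton] at hs
      subst hs
      exact ⟨by norm_num, Or.inr (Or.inr rfl)⟩
    · simp at hs

theorem cardF_mem_TT {n q : ℕ} (hq : q ∈ TT n) : q.Prime ∧ (q ∣ n ∨ (q = 3 ∧ n % 3 = 1)) := by
  unfold TT at hq
  rw [mem_union] at hq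
  rcases hq with hq | hq
  · rw [mem_filter] at hq
    exact ⟨Nat.prime_of_mem_primeFactors hq.1, Or.inl (Nat.dvd_of_mem_primeFactors hq.1)⟩
  · split_ifs at hq with h
    · rw [mem_singleton] at hq
      subst hq
      exact ⟨by norm_num, Or.inr ⟨rfl, h⟩⟩
    · simp at hq

theorem cardF_ep (n : ℕ) (hn : Squarefree n) {q s : ℕ} (hq : q ∈ TT n) (hs : s ∈ SS n) :
    ep n q s = 1 ∨ ep n q s = -1 := by
  obtain ⟨hqp, hq2⟩ := cardF_mem_TT hq
  obtain ⟨hsp, hs2⟩ := cardF_mem_SS hs
  unfold ep
  split_ifs with h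
  · have hqn : q ∣ n := by
      rcases hq2 with h1 | ⟨h1, h3⟩
      · exact h1
      · rcases hs2 with h4 | h4 | h4
        · rw [← h]; exact h4
        · omega
        · omega
    apply jacobiSym.eq_one_or_neg_one
    obtain ⟨m, rfl⟩ := hqn
    rw [Nat.mul_div_cancel_left _ hqp.pos]
    have h5 := Nat.coprime_of_squarefree_mul hn
    rw [Int.gcd_natCast_natCast]
    exact h5.symm
  · apply jacobiSym.eq_one_or_neg_one
    rw [Int.gcd_natCast_natCast]
    exact (Nat.coprime_primes hsp hqp).2 h

/-- L1: the sizes of `PhiF` and `PsiF`. -/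
theorem card_F (n : ℕ) (hn : Squarefree n) (hsign : n % 3 = 1 ↔ n % 5 = 1 ∨ n % 5 = 4) :
    (PhiF n).card = (if n % 4 = 3 then 1 else 2) * (PsiF n).card := by
  have h1 : (PhiF n).card * 2 ^ (TT n).card = (PsiF n).card * 2 ^ (SS n).card :=
    count (SS n) (TT n) (ep n) fun q hq s hs => cardF_ep n hn hq hs
  have h5 : n % 3 = 1 → ¬ 5 ∣ n := by
    intro h h'
    have := hsign.1 h
    omega
  rw [cardF_card_SS n h5, cardF_card_TT] at h1
  have hpos : 0 < 2 ^ ((n.primeFactors.filter fun p => p ≠ 2).card +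
      (if n % 3 = 1 then 1 else 0)) := by positivity
  refine Nat.eq_of_mul_eq_mul_right hpos ?_
  rw [h1, add_right_comm, pow_add]
  split_ifs <;> ring

end X15B
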