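import Pool.Agent.Lib.MP_87c685_nt_X15B.Defs

open NumberField WeierstrassCurve Finset

namespace X15B

open X15

theorem clx_of {r : ℚ} (hr : r ≠ 0) :
    cl r = Additive.ofMul (QuotientGroup.mk (Units.mk0 r hr)) := by
  unfold cl
  rw [dif_pos hr]

theorem cl_eq_zero_iff (r : ℚ) (hr : r ≠ 0) : cl r = 0 ↔ IsSquare r := by
  rw [clx_of hr, ofMul_eq_zero, QuotientGroup.eq_one_iff, MonoidHom.mem_range]
  constructor
  · rintro ⟨u, hu⟩
    refine ⟨u, ?_⟩
    have h := congrArg Units.val hu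
    rw [powMonoidHom_apply, Units.val_pow_eq_pow_val, Units.val_mk0] at h
    rw [← h, sq]
  · rintro ⟨s, hs⟩
    have hs0 : s ≠ 0 := by
      rintro rfl
      exact hr (by rw [hs, mul_zero])
    refine ⟨Units.mk0 s hs0, ?_⟩
    ext
    rw [powMonoidHom_apply, Units.val_pow_eq_pow_val, Units.val_mk0, Units.val_mk0, hs, sq]

theorem cl_mul (a b : ℚ) (ha : a ≠ 0) (hb : b ≠ 0) : cl (a * b) = cl a + cl b := by
  rw [clx_of ha, clx_of hb, clx_of (mul_ne_zero ha hb), Units.mk0_mul]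
  rfl

theorem cl_mul_sq (a z : ℚ) (hz : z ≠ 0) : cl (a * z ^ 2) = cl a := by
  by_cases ha : a = 0
  · rw [ha, zero_mul]
  · rw [cl_mul a (z ^ 2) ha (pow_ne_zero 2 hz),
      (cl_eq_zero_iff (z ^ 2) (pow_ne_zero 2 hz)).2 ⟨z, sq z⟩, add_zero]

theorem cl_add_self (a : ℚ) : cl a + cl a = 0 := by
  by_cases ha : a = 0
  · have h : cl (0 : ℚ) = 0 := by
      unfold cl
      rw [dif_neg (not_not.2 rfl)]
    rw [ha, h, add_zero]
  · rw [← cl_mul a a ha ha, cl_eq_zero_iff (a * a) (mul_ne_zero ha ha)]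
    exact ⟨a, rfl⟩

end X15B
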