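import Pool.Agent.Lib.MP_87c685_nt_X15.PadicSq
import Pool.Agent.Lib.MP_87c685_nt_X15B.Defs

open NumberField WeierstrassCurve Finset

namespace X15B

open X15

theorem lb38_norm_int {p : ℕ} [Fact p.Prime] (u : ℤ) (hu : ¬ (p : ℤ) ∣ u) :
    ‖(u : ℚ_[p])‖ = 1 := psq_norm_unit u hu

theorem lb38_lt_one {p : ℕ} [Fact p.Prime] (u : ℤ) (hu : (p : ℤ) ∣ u) :
    ‖(u : ℚ_[p])‖ < 1 := by
  have h2 := (PadicInt.norm_int_lt_one_iff_dvd (p := p) u).2 hu
  rw [PadicInt.norm_def] at h2
  exact_mod_cast h2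

/-- A product of two factors with small relative difference is a square. -/
theorem lb38_mul {p : ℕ} [Fact p.Prime] (hp : p ≠ 2) (a b : ℚ_[p]) (h : ‖b - a‖ < ‖a‖) :
    IsSquare (a * b) := by
  have ha : a ≠ 0 := by
    rintro rfl
    rw [norm_zero] at h
    exact absurd h (not_lt.2 (norm_nonneg _))
  have hz : ‖(b - a) / a‖ < 1 := by
    rw [norm_div, div_lt_one (norm_pos_iff.2 ha)]
    exact h
  have h1 := isSquare_one_add hp _ hz
  have h2 : a * b = a * a * (1 + (b - a) / a) := by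
    field_simp
    ring
  rw [h2]
  exact IsSquare.mul ⟨a, rfl⟩ h1

/-- If `s` is a square and `t` is close to `s` then `t` is a square. -/
theorem lb38_near {p : ℕ} [Fact p.Prime] (hp : p ≠ 2) (s t : ℚ_[p]) (hs : IsSquare s)
    (h : ‖t - s‖ < ‖s‖) : IsSquare t := by
  have hs0 : s ≠ 0 := by
    rintro rfl
    rw [norm_zero] at h
    exact absurd h (not_lt.2 (norm_nonneg _))
  have h1 := lb38_mul hp s t h
  have h2 : t = (s * t) / s := by
    field_simp
  rw [h2]
  exact h1.div hs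

theorem lb38_third {p : ℕ} [Fact p.Prime] (a b c y : ℚ_[p]) (hy : y ≠ 0)
    (h : a * b * c = y ^ 2) (hab : IsSquare (a * b)) : IsSquare c := by
  have h0 : a * b ≠ 0 := by
    intro h0
    rw [h0, zero_mul] at h
    exact hy (pow_eq_zero_iff (two_ne_zero) |>.1 h.symm)
  have h2 : c = y ^ 2 / (a * b) := by
    rw [← h, mul_comm (a * b) c, mul_div_assoc, div_self h0, mul_one]
  rw [h2]
  exact (IsSquare.div ⟨y, sq y⟩ hab)

/-- L6: `p = 3` inert. -/
theorem loc_three_b (d B y : ℚ_[3]) (hd : IsSquare (-d)) (hd0 : ‖d‖ = 1)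
    (hy : y ≠ 0) (h : B * (B - 9 * d) * (B - 25 * d) = y ^ 2) :
    IsSquare (B - 25 * d) := by
  have h16 : ‖(16 : ℚ_[3])‖ = 1 := by
    have := lb38_norm_int (p := 3) 16 (by decide)
    exact_mod_cast this
  have h9 : ‖(9 : ℚ_[3])‖ < 1 := by
    have := lb38_lt_one (p := 3) 9 (by decide)
    exact_mod_cast this
  rcases lt_or_ge ‖9 * d‖ ‖B - 9 * d‖ with h1 | h1
  · have h2 : IsSquare ((B - 9 * d) * B) := by
      apply lb38_mul (by decide)
      have h3 : B - (B - 9 * d) = 9 * d := by ring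
      rw [h3]
      exact h1
    apply lb38_third (B - 9 * d) B _ y hy _ h2
    rw [← h]
    ring
  · apply lb38_near (by decide) (16 * (-d)) (B - 25 * d)
    · exact IsSquare.mul ⟨4, by norm_num⟩ hd
    · have h3 : B - 25 * d - 16 * (-d) = B - 9 * d := by ring
      rw [h3, norm_mul 16, norm_neg, h16, hd0, one_mul]
      refine lt_of_le_of_lt h1 ?_
      rw [norm_mul, hd0, mul_one]
      exact h9

/-- L6': `p = 5` split. -/
theorem loc_five_b (d B y : ℚ_[5]) (hd : IsSquare d) (hd0 : ‖d‖ = 1)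
    (hy : y ≠ 0) (h : B * (B - 9 * d) * (B - 25 * d) = y ^ 2) :
    IsSquare (B - 9 * d) := by
  have h9 : ‖(9 : ℚ_[5])‖ = 1 := by
    have := lb38_norm_int (p := 5) 9 (by decide)
    exact_mod_cast this
  have h4 : ‖(4 : ℚ_[5])‖ = 1 := by
    have := lb38_norm_int (p := 5) 4 (by decide)
    exact_mod_cast this
  have h5 : ‖(-5 : ℚ_[5])‖ < 1 := by
    have := lb38_lt_one (p := 5) (-5) (by decide)
    exact_mod_cast this
  have h25 : ‖(25 : ℚ_[5])‖ < 1 := by
    have := lb38_lt_one (p := 5) 25 (by decide)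
    exact_mod_cast this
  have hm1 : IsSquare (-1 : ℚ_[5]) := by
    apply lb38_near (by decide) 4 (-1) ⟨2, by norm_num⟩
    have h3 : (-1 : ℚ_[5]) - 4 = -5 := by norm_num
    rw [h3, h4]
    exact h5
  rcases lt_or_ge ‖25 * d‖ ‖B‖ with h1 | h1
  · have h2 : IsSquare (B * (B - 25 * d)) := by
      apply lb38_mul (by decide)
      have h3 : B - 25 * d - B = -(25 * d) := by ring
      rw [h3, norm_neg]
      exact h1
    apply lb38_third B (B - 25 * d) _ y hy _ h2
    rw [← h]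
    ring
  · apply lb38_near (by decide) (9 * (-1) * d) (B - 9 * d)
    · exact IsSquare.mul (IsSquare.mul ⟨3, by norm_num⟩ hm1) hd
    · have h3 : B - 9 * d - 9 * (-1) * d = B := by ring
      rw [h3, norm_mul, norm_mul, norm_neg, norm_one, h9, hd0, mul_one, mul_one]
      refine lt_of_le_of_lt h1 ?_
      rw [norm_mul, hd0, mul_one]
      exact h25

end X15B
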