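import Pool.Agent.Lib.MP_87c685_nt_X15B.Defs
import Pool.Agent.Lib.MP_87c685_nt_X15B.LocB
import Pool.Agent.Lib.MP_87c685_nt_X15.LocUnr
import Pool.Agent.Lib.MP_87c685_nt_X15.LocRam
import Pool.Agent.Lib.MP_87c685_nt_X15.LocTwo
import Pool.Agent.Lib.MP_87c685_nt_X15.Classes

open NumberField WeierstrassCurve Finset

namespace X15B

open X15

theorem clb_zmod3 {d : ℤ} (h : d % 3 = 1) : ((d : ℤ) : ZMod 3) = 1 := by
  have := (ZMod.intCast_eq_intCast_iff_dvd_sub d 1 3).2 (by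
    push_cast
    omega)
  simpa using this

theorem clb_zmod5 {d : ℤ} (r : ℤ) (h : d % 5 = r % 5) : ((d : ℤ) : ZMod 5) = (r : ZMod 5) :=
  (ZMod.intCast_eq_intCast_iff_dvd_sub d r 5).2 (by
    push_cast
    omega)

/-- L8: the class of `x - 9 n` is in `Ψ_n` if `x + 16 n` is a square. -/
theorem class_B (n : ℕ) (hn : Squarefree n) (hsign : n % 3 = 1 ↔ n % 5 = 1 ∨ n % 5 = 4)
    (x y : ℚ) (hy : y ≠ 0) (h : y ^ 2 = x * (x - 9 * n) * (x + 16 * n))
    (hC : IsSquare (x + 16 * n)) :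
    ∃ b ∈ Psi n, ∃ z : ℚ, z ≠ 0 ∧ x - 9 * n = b * z ^ 2 := by
  obtain ⟨d, hdn⟩ : ∃ d : ℤ, d = -(n : ℤ) := ⟨_, rfl⟩
  have hdq : (d : ℚ) = -(n : ℚ) := by rw [hdn]; push_cast; rfl
  have hnq : (n : ℚ) = -(d : ℚ) := by rw [hdq, neg_neg]
  have hd : Squarefree d := by
    rw [hdn, ← Int.squarefree_natAbs, Int.natAbs_neg, Int.natAbs_natCast]
    exact hn
  have hdvd : ∀ q : ℕ, (q : ℤ) ∣ d ↔ q ∣ n := by
    intro q
    rw [hdn, dvd_neg, Int.natCast_dvd_natCast]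
  have hy2 : y ^ 2 ≠ 0 := pow_ne_zero 2 hy
  rw [hnq] at h hC
  have hB0 : x + 9 * d ≠ 0 := by
    intro h0
    apply hy2
    rw [h]
    linear_combination x * (x + 16 * -(d : ℚ)) * h0
  obtain ⟨b, z, hb, hz, hBe⟩ := exists_sqfree _ hB0
  have hd0 : (d : ℚ) ≠ 0 := by exact_mod_cast hd.ne_zero
  -- the equation over every `ℚ_q`
  have heq : ∀ (q : ℕ) [Fact q.Prime], (((x + 9 * d : ℚ)) : ℚ_[q]) *
      ((((x + 9 * d : ℚ)) : ℚ_[q]) - 9 * (((d : ℚ)) : ℚ_[q])) *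
      ((((x + 9 * d : ℚ)) : ℚ_[q]) - 25 * (((d : ℚ)) : ℚ_[q])) = ((y : ℚ) : ℚ_[q]) ^ 2 := by
    intro q _
    have h1 : (x + 9 * d) * ((x + 9 * d) - 9 * d) * ((x + 9 * d) - 25 * d) = y ^ 2 := by
      rw [h]
      ring
    have h2 := congrArg (fun t : ℚ => (t : ℚ_[q])) h1
    push_cast at h2 ⊢
    exact h2
  have hyq : ∀ (q : ℕ) [Fact q.Prime], ((y : ℚ) : ℚ_[q]) ≠ 0 := by
    intro q _
    exact_mod_cast hy
  have hBq : ∀ (q : ℕ) [Fact q.Prime], (((x + 9 * d : ℚ)) : ℚ_[q]) =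
      (((b : ℚ) * z ^ 2 : ℚ) : ℚ_[q]) := by
    intro q _
    rw [hBe]
  -- the prime 5
  have hfive : n % 3 = 1 → Sq 5 b := by
    intro hn3
    have hn5 := hsign.1 hn3
    have h5d : ¬ ((5 : ℕ) : ℤ) ∣ d := by
      rw [hdvd]
      omega
    have hsq : IsSquare (((d : ℚ)) : ℚ_[5]) := by
      have h2 := (sq_int_iff (p := 5) (by norm_num) d h5d).2
      unfold Sq at h2
      apply h2
      rcases hn5 with h6 | h6
      · rw [clb_zmod5 4 (by omega)]
        exact ⟨2, by norm_num⟩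
      · rw [clb_zmod5 1 (by omega)]
        exact ⟨1, by norm_num⟩
    have hA := loc_five_b (((d : ℚ)) : ℚ_[5]) (((x + 9 * d : ℚ)) : ℚ_[5]) ((y : ℚ) : ℚ_[5]) hsq
      (cls_norm_one h5d) (hyq 5) (heq 5)
    have hC5 : IsSquare ((((x + 9 * d : ℚ)) : ℚ_[5]) - 25 * (((d : ℚ)) : ℚ_[5])) := by
      obtain ⟨w, hw⟩ := hC
      refine ⟨(w : ℚ_[5]), ?_⟩
      have h3 : (x + 9 * d) - 25 * d = w * w := by
        rw [← hw]
        ring
      have h4 := congrArg (fun t : ℚ => (t : ℚ_[5])) h3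
      push_cast at h4 ⊢
      exact h4
    have hprod := heq 5
    have hne := pow_ne_zero 2 (hyq 5)
    rw [← hprod] at hne
    have hAne := right_ne_zero_of_mul (left_ne_zero_of_mul hne)
    have hCne := right_ne_zero_of_mul hne
    have hBsq : IsSquare (((x + 9 * d : ℚ)) : ℚ_[5]) := by
      obtain ⟨a, ha⟩ := hA
      obtain ⟨c, hc⟩ := hC5
      refine ⟨((y : ℚ) : ℚ_[5]) / (a * c), ?_⟩
      rw [div_mul_div_comm, ← pow_two ((y : ℚ) : ℚ_[5]), ← hprod]
      have h5 : a * c * (a * c) = ((((x + 9 * d : ℚ)) : ℚ_[5]) - 9 * (((d : ℚ)) : ℚ_[5])) *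
          ((((x + 9 * d : ℚ)) : ℚ_[5]) - 25 * (((d : ℚ)) : ℚ_[5])) := by
        rw [ha, hc]
        ring
      rw [h5, eq_div_iff (mul_ne_zero hAne hCne)]
      ring
    rw [hBq 5] at hBsq
    exact (sq_mul_sq_iff (p := 5) (b : ℚ) z hz).1 hBsq
  -- odd primes not dividing `d`
  have hunr : ∀ (q : ℕ) [Fact q.Prime], q ≠ 2 → ¬ (q : ℤ) ∣ d → ¬ (q = 3 ∧ n % 3 = 1) →
      Even ((((b : ℚ) * z ^ 2 : ℚ) : ℚ_[q])).valuation := by
    intro q _ hq2 hqd hq31
    by_cases hq51 : q = 5 ∧ n % 3 = 1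
    · obtain ⟨hq5, hn3⟩ := hq51
      subst hq5
      have h1 := (sq_mul_sq_iff (p := 5) (b : ℚ) z hz).2 (hfive hn3)
      exact even_valuation _ h1
    have h1 := loc_unr hq2 (((d : ℚ)) : ℚ_[q]) (((x + 9 * d : ℚ)) : ℚ_[q]) ((y : ℚ) : ℚ_[q])
      (cls_norm_one hqd) ?_ ?_ (hyq q) (heq q)
    · rw [hBq q] at h1
      exact h1.1
    · intro hq3
      subst hq3
      have h2 := (sq_int_iff (p := 3) (by norm_num) d hqd).2
      unfold Sq at h2
      rw [hdvd] at hqd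
      have h4 : d % 3 = 1 := by omega
      exact h2 (by rw [clb_zmod3 h4]; exact IsSquare.one)
    · intro hq5
      subst hq5
      intro h2
      have h4 := (sq_int_iff (p := 5) (by norm_num) d hqd).1 h2
      rw [hdvd] at hqd
      have hn3 : ¬ n % 3 = 1 := fun h0 => hq51 ⟨rfl, h0⟩
      rw [hsign] at hn3
      have h6 : d % 5 = 2 ∨ d % 5 = 3 := by omega
      rcases h6 with h7 | h7
      · rw [clb_zmod5 2 (by omega)] at h4
        exact cls_two_five (by simpa using h4)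
      · rw [clb_zmod5 3 (by omega)] at h4
        exact cls_three_five (by simpa using h4)
  -- the prime 2
  have hdvd2 : ∀ t : ℤ, t % 2 = 1 → ¬ ((2 : ℕ) : ℤ) ∣ t := by
    intro t ht
    omega
  have h5v : ((5 : ℚ_[2])).valuation = 0 := by
    have h1 : ((5 : ℚ_[2])) = ((5 : ℕ) : ℚ_[2]) := by norm_num
    rw [h1, Padic.valuation_natCast]
    have : padicValNat 2 5 = 0 := padicValNat.eq_zero_of_not_dvd (by norm_num)
    exact_mod_cast this
  have htwo := loc_two (((d : ℚ)) : ℚ_[2]) (((x + 9 * d : ℚ)) : ℚ_[2]) ((y : ℚ) : ℚ_[2])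
    (by exact_mod_cast hd.ne_zero) (hyq 2) (heq 2)
  have htwo' : Sq 2 b ∨ Sq 2 (b * d) ∨ (Sq 2 d ∧ Sq 2 (5 * b)) := by
    rw [hBq 2] at htwo
    rcases htwo with h1 | h1 | ⟨h1, h2⟩
    · left
      exact (sq_mul_sq_iff (p := 2) (b : ℚ) z hz).1 h1
    · right
      left
      refine (sq_mul_sq_iff (p := 2) ((b : ℚ) * d) z hz).1 ?_
      unfold Sq
      have : (((b : ℚ) * d * z ^ 2 : ℚ) : ℚ_[2]) =
          (((b : ℚ) * z ^ 2 : ℚ) : ℚ_[2]) * (((d : ℚ)) : ℚ_[2]) := by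
        push_cast
        ring
      rw [this]
      exact h1
    · right
      right
      refine ⟨h1, (sq_mul_sq_iff (p := 2) (5 * (b : ℚ)) z hz).1 ?_⟩
      unfold Sq
      have : ((5 * (b : ℚ) * z ^ 2 : ℚ) : ℚ_[2]) =
          5 * (((b : ℚ) * z ^ 2 : ℚ) : ℚ_[2]) := by
        push_cast
        ring
      rw [this]
      exact h2
  have hodd : d % 4 = 1 → b % 2 = 1 := by
    intro hd4
    have hd2 : d % 2 = 1 := by omega
    have hdv : (((d : ℚ)) : ℚ_[2]).valuation = 0 := by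
      have h1 := cls_norm_one (q := 2) (hdvd2 d hd2)
      have h2 : (((d : ℚ)) : ℚ_[2]) ≠ 0 := by exact_mod_cast hd.ne_zero
      have h4 := Padic.norm_eq_zpow_neg_valuation h2
      rw [h1] at h4
      have h6 : (((2 : ℕ) : ℝ)) ^ (-(((d : ℚ)) : ℚ_[2]).valuation) = 1 := h4.symm
      have h7 := (zpow_eq_one_iff_right₀ (a := ((2 : ℕ) : ℝ)) (by norm_num) (by norm_num)).1 h6
      omega
    by_contra hb2
    have hb2' : ((2 : ℕ) : ℤ) ∣ b := by omega
    have hbv := cls_val (q := 2) hb hb2'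
    have hb0 : (b : ℚ_[2]) ≠ 0 := by exact_mod_cast hb.ne_zero
    have hd00 : (d : ℚ_[2]) ≠ 0 := by exact_mod_cast hd.ne_zero
    have hdv' : (d : ℚ_[2]).valuation = 0 := by
      have : (((d : ℚ)) : ℚ_[2]) = (d : ℚ_[2]) := by push_cast; rfl
      rw [← this]
      exact hdv
    rcases htwo' with h1 | h1 | ⟨-, h1⟩
    · have h2 := even_valuation _ h1
      have h4 : (((b : ℚ)) : ℚ_[2]) = (b : ℚ_[2]) := by push_cast; rfl
      rw [h4, hbv] at h2
      exact absurd h2 (by decide)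
    · have h2 := even_valuation _ h1
      have h4 : ((((b : ℚ) * (d : ℚ) : ℚ)) : ℚ_[2]) = (b : ℚ_[2]) * (d : ℚ_[2]) := by
        push_cast; rfl
      rw [h4, Padic.valuation_mul hb0 hd00, hbv, hdv'] at h2
      exact absurd h2 (by decide)
    · have h2 := even_valuation _ h1
      have h4 : (((5 * (b : ℚ) : ℚ)) : ℚ_[2]) = 5 * (b : ℚ_[2]) := by push_cast; rfl
      rw [h4, Padic.valuation_mul (by norm_num) hb0, hbv, h5v] at h2
      exact absurd h2 (by decide)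
  refine ⟨b, ⟨hb, ?_, ?_, ?_, ?_, hfive⟩, z, hz, by rw [hnq, ← hBe]; ring⟩
  · intro q hq hqb
    have : Fact q.Prime := ⟨hq⟩
    by_contra hcon
    push Not at hcon
    obtain ⟨hc1, hc2, hc3⟩ := hcon
    by_cases hq2 : q = 2
    · subst hq2
      have h1 := hc2 rfl
      have h2 := hodd (by omega)
      exact hdvd2 b h2 hqb
    · exact cls_val_sq hb hz hqb (hunr q hq2 (by rwa [hdvd]) (fun h0 => hc3 h0.1 h0.2))
  · intro hn4
    have hd4 : d % 4 = 1 := by omega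
    have hd2 : d % 2 = 1 := by omega
    have hbodd := hodd hd4
    rcases htwo' with h1 | h1 | ⟨-, h1⟩
    · have h2 := (sq_two_iff b hbodd).1 h1
      omega
    · have hbd : (b * d) % 2 = 1 := by
        rw [Int.mul_emod, hbodd, hd2]
        rfl
      have h2 := (sq_two_iff (b * d) hbd).1 (by push_cast; exact h1)
      have h4 : (b * d) % 4 = 1 := by omega
      rw [Int.mul_emod, hd4] at h4
      omega
    · have hbd : (5 * b) % 2 = 1 := by omega
      have h2 := (sq_two_iff (5 * b) hbd).1 (by push_cast; exact h1)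
      omega
  · intro q _ hq2 hqn
    have hqd := (hdvd q).2 hqn
    have hdv : (((d : ℚ)) : ℚ_[q]).valuation = 1 := by
      have h1 := cls_val hd hqd
      have : (((d : ℚ)) : ℚ_[q]) = (d : ℚ_[q]) := by push_cast; rfl
      rw [this]
      exact h1
    have h1 := loc_ram hq2 (((d : ℚ)) : ℚ_[q]) (((x + 9 * d : ℚ)) : ℚ_[q]) ((y : ℚ) : ℚ_[q])
      (by rw [hdv]; decide) (hyq q) (heq q)
    rw [hBq q] at h1
    rcases h1 with h1 | h1
    · left
      exact (sq_mul_sq_iff (p := q) (b : ℚ) z hz).1 h1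
    · right
      rw [← hdq]
      refine (sq_mul_sq_iff (p := q) ((b : ℚ) * d) z hz).1 ?_
      unfold Sq
      have : (((b : ℚ) * d * z ^ 2 : ℚ) : ℚ_[q]) =
          (((b : ℚ) * z ^ 2 : ℚ) : ℚ_[q]) * (((d : ℚ)) : ℚ_[q]) := by
        push_cast
        ring
      rw [this]
      exact h1
  · intro hn4
    rw [← hdq]
    rcases htwo' with h1 | h1 | ⟨h1, -⟩
    · exact Or.inl h1
    · exact Or.inr h1
    · exfalso
      by_cases hd2 : d % 2 = 1
      · have h2 := (sq_two_iff d hd2).1 h1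
        omega
      · have hd2' : ((2 : ℕ) : ℤ) ∣ d := by omega
        have h2 := even_valuation _ h1
        have h4 : (((d : ℚ)) : ℚ_[2]) = (d : ℚ_[2]) := by push_cast; rfl
        rw [h4, cls_val (q := 2) hd hd2'] at h2
        exact absurd h2 (by decide)

end X15B
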