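import Pool.Agent.Lib.MP_87c685_nt_X15B.Defs
import Pool.Agent.Lib.MP_87c685_nt_X15B.LocB
import Pool.Agent.Lib.MP_87c685_nt_X15.LocUnr
import Pool.Agent.Lib.MP_87c685_nt_X15.LocTwo
import Pool.Agent.Lib.MP_87c685_nt_X15.Classes

open NumberField WeierstrassCurve Finset

namespace X15B

open X15

/-- three rational numbers have a common denominator -/
theorem cc_den (a b c : ℚ) : ∃ N : ℤ, ∃ a' b' c' : ℤ, N ≠ 0 ∧ (a' : ℚ) = N * a ∧
    (b' : ℚ) = N * b ∧ (c' : ℚ) = N * c := by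
  refine ⟨a.den * b.den * c.den, a.num * b.den * c.den, b.num * a.den * c.den,
    c.num * a.den * b.den, ?_, ?_, ?_, ?_⟩
  · have h1 : (a.den : ℤ) ≠ 0 := by exact_mod_cast a.den_ne_zero
    have h2 : (b.den : ℤ) ≠ 0 := by exact_mod_cast b.den_ne_zero
    have h3 : (c.den : ℤ) ≠ 0 := by exact_mod_cast c.den_ne_zero
    exact mul_ne_zero (mul_ne_zero h1 h2) h3
  · have h1 : (a.num : ℚ) = a * a.den := (Rat.mul_den_eq_num a).symm
    push_cast
    rw [h1]
    ring
  · have h1 : (b.num : ℚ) = b * b.den := (Rat.mul_den_eq_num b).symm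
    push_cast
    rw [h1]
    ring
  · have h1 : (c.num : ℚ) = c * c.den := (Rat.mul_den_eq_num c).symm
    push_cast
    rw [h1]
    ring

theorem cc_cast {q : ℕ} (d a : ℤ) (h : ((q : ℤ)) ∣ a - d) : ((d : ℤ) : ZMod q) = (a : ZMod q) :=
  (ZMod.intCast_eq_intCast_iff_dvd_sub d a q).2 h

/-- L7: the class of `x + 16 n` is in `Φ_n`. -/
theorem class_C (n : ℕ) (hn : Squarefree n) (hsign : n % 3 = 1 ↔ n % 5 = 1 ∨ n % 5 = 4)
    (x y : ℚ) (hy : y ≠ 0) (h : y ^ 2 = x * (x - 9 * n) * (x + 16 * n)) :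
    ∃ c ∈ Phi n, ∃ w : ℚ, w ≠ 0 ∧ x + 16 * n = c * w ^ 2 := by
  have hy2 : y ^ 2 ≠ 0 := pow_ne_zero 2 hy
  have hC0 : x + 16 * n ≠ 0 := by
    intro h0
    rw [h0] at h
    apply hy2
    rw [h]
    ring
  obtain ⟨m, w, hm, hw, hCe⟩ := exists_sqfree _ hC0
  have hnpos : (0 : ℚ) < n := by
    have h1 : n ≠ 0 := hn.ne_zero
    have h2 : 0 < n := Nat.pos_of_ne_zero h1
    exact_mod_cast h2
  have hnorm : (x + 16 * n) * (x - 4 * n) ^ 2 = y ^ 2 + n * (x + 16 * n) ^ 2 := by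
    rw [h]
    ring
  have hx4 : x - 4 * n ≠ 0 := by
    intro h0
    rw [h0] at hnorm
    have h1 : 0 < y ^ 2 := by positivity
    have h2 : 0 ≤ (n : ℚ) * (x + 16 * n) ^ 2 := by positivity
    rw [zero_pow two_ne_zero, mul_zero] at hnorm
    linarith
  have hmpos : 0 < m := by
    have h1 : 0 < (x + 16 * n) * (x - 4 * n) ^ 2 := by
      rw [hnorm]
      have h2 : 0 < y ^ 2 := by positivity
      have h3 : 0 ≤ (n : ℚ) * (x + 16 * n) ^ 2 := by positivity
      linarith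
    have h2 : 0 < (x - 4 * n) ^ 2 := by positivity
    have h3 : 0 < x + 16 * n := by
      by_contra hcon
      have h4 : x + 16 * n ≤ 0 := not_lt.1 hcon
      have h5 := mul_nonneg (neg_nonneg.2 h4) h2.le
      linarith
    rw [hCe] at h3
    have hw2 : 0 < w ^ 2 := by positivity
    have h4 : (0 : ℚ) < m := by
      by_contra hcon
      have h5 : (m : ℚ) ≤ 0 := not_lt.1 hcon
      have h6 := mul_nonneg (neg_nonneg.2 h5) hw2.le
      linarith
    exact_mod_cast h4
  obtain ⟨d, hdn⟩ : ∃ d : ℤ, d = -(n : ℤ) := ⟨_, rfl⟩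
  have hdq : (d : ℚ) = -(n : ℚ) := by
    rw [hdn]
    push_cast
    rfl
  have hdvd : ∀ q : ℕ, (q : ℤ) ∣ d → q ∣ n := by
    intro q hq
    rw [hdn, dvd_neg] at hq
    exact_mod_cast hq
  -- the equation over every `ℚ_q`
  have heq : ∀ (q : ℕ) [Fact q.Prime], (((x + 9 * d : ℚ)) : ℚ_[q]) *
      ((((x + 9 * d : ℚ)) : ℚ_[q]) - 9 * (((d : ℚ)) : ℚ_[q])) *
      ((((x + 9 * d : ℚ)) : ℚ_[q]) - 25 * (((d : ℚ)) : ℚ_[q])) = ((y : ℚ) : ℚ_[q]) ^ 2 := by
    intro q _
    have h1 : (x + 9 * d) * ((x + 9 * d) - 9 * d) * ((x + 9 * d) - 25 * d) = y ^ 2 := by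
      rw [h, hdq]
      ring
    have h2 := congrArg (fun t : ℚ => (t : ℚ_[q])) h1
    push_cast at h2 ⊢
    exact h2
  have hyq : ∀ (q : ℕ) [Fact q.Prime], ((y : ℚ) : ℚ_[q]) ≠ 0 := by
    intro q _
    exact_mod_cast hy
  have hCq : ∀ (q : ℕ) [Fact q.Prime], (((x + 9 * d : ℚ)) : ℚ_[q]) - 25 * (((d : ℚ)) : ℚ_[q]) =
      (((m : ℚ) * w ^ 2 : ℚ) : ℚ_[q]) := by
    intro q _
    have h1 : (m : ℚ) * w ^ 2 = (x + 9 * d) - 25 * d := by
      rw [← hCe, hdq]
      ring
    rw [h1]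
    push_cast
    ring
  -- the prime 3 if it is inert
  have hthree : n % 3 = 1 → Sq 3 m := by
    intro hn3
    have h1 : ¬ ((3 : ℕ) : ℤ) ∣ d := by
      intro h2
      have := hdvd 3 h2
      omega
    have h2 : IsSquare (-(((d : ℚ)) : ℚ_[3])) := by
      have h3 : ¬ ((3 : ℕ) : ℤ) ∣ -d := by rwa [dvd_neg]
      have h4 := (sq_int_iff (p := 3) (by norm_num) (-d) h3).2 (by
        rw [cc_cast (q := 3) (-d) 1 (by
          push_cast
          omega)]
        rw [Int.cast_one]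
        exact IsSquare.one)
      unfold Sq at h4
      push_cast at h4 ⊢
      exact h4
    have h3 := loc_three_b (((d : ℚ)) : ℚ_[3]) (((x + 9 * d : ℚ)) : ℚ_[3]) ((y : ℚ) : ℚ_[3]) h2
      (cls_norm_one h1) (hyq 3) (heq 3)
    rw [hCq 3] at h3
    exact (sq_mul_sq_iff (p := 3) (m : ℚ) w hw).1 h3
  have hthree' : n % 3 = 1 → ¬ ((3 : ℕ) : ℤ) ∣ m := by
    intro hn3 h1
    have h2 := even_valuation _ (hthree hn3)
    have h3 : (((m : ℚ)) : ℚ_[3]) = (m : ℚ_[3]) := by push_cast; rfl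
    rw [h3, cls_val (q := 3) hm h1] at h2
    exact absurd h2 (by decide)
  -- the primes
  have hpr : ∀ p : ℕ, p.Prime → (p : ℤ) ∣ m →
      p ∣ n ∨ (p = 2 ∧ n % 4 ≠ 3) ∨ (p = 5 ∧ n % 3 = 1) := by
    intro p hp hpm
    have : Fact p.Prime := ⟨hp⟩
    by_contra hcon
    push Not at hcon
    obtain ⟨hpn, hc2, hc5⟩ := hcon
    have hpd : ¬ (p : ℤ) ∣ d := fun h1 => hpn (hdvd p h1)
    by_cases hp2 : p = 2
    · subst hp2
      have hn4 := hc2 rfl
      have hd2 : d % 2 = 1 := by omega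
      have hsq : IsSquare (((d : ℚ)) : ℚ_[2]) ∨ IsSquare (5 * (((d : ℚ)) : ℚ_[2])) := by
        have h8 : d % 8 = 1 ∨ d % 8 = 5 := by omega
        rcases h8 with h8 | h8
        · left
          exact (sq_two_iff d hd2).2 h8
        · right
          have h1 := (sq_two_iff (5 * d) (by omega)).2 (by omega)
          unfold Sq at h1
          push_cast at h1 ⊢
          exact h1
      have h1 := loc_two' (((d : ℚ)) : ℚ_[2]) (((x + 9 * d : ℚ)) : ℚ_[2]) ((y : ℚ) : ℚ_[2]) hsq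
        (cls_norm_one (q := 2) hpd) (hyq 2) (heq 2)
      rw [hCq 2] at h1
      exact cls_val_sq (q := 2) hm hw hpm h1
    · by_cases hp3 : p = 3 ∧ n % 3 = 1
      · obtain ⟨hp3, hn3⟩ := hp3
        subst hp3
        exact hthree' hn3 hpm
      · have h1 := loc_unr hp2 (((d : ℚ)) : ℚ_[p]) (((x + 9 * d : ℚ)) : ℚ_[p]) ((y : ℚ) : ℚ_[p])
          (cls_norm_one hpd) ?_ ?_ (hyq p) (heq p)
        · have h2 := h1.2
          rw [hCq p] at h2
          exact cls_val_sq hm hw hpm h2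
        · intro hq3
          subst hq3
          have h2 := (sq_int_iff (p := 3) (by norm_num) d hpd).2
          unfold Sq at h2
          have h4 : n % 3 ≠ 1 := fun h5 => hp3 ⟨rfl, h5⟩
          refine h2 ?_
          rw [cc_cast (q := 3) d 1 (by
            push_cast
            omega)]
          rw [Int.cast_one]
          exact IsSquare.one
        · intro hq5
          subst hq5
          intro h2
          have h4 := (sq_int_iff (p := 5) (by norm_num) d hpd).1 h2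
          have h5 : n % 3 ≠ 1 := hc5 rfl
          have h5' : ¬ (n % 5 = 1 ∨ n % 5 = 4) := fun h6 => h5 (hsign.2 h6)
          have h6 : d % 5 = 2 ∨ d % 5 = 3 := by omega
          rcases h6 with h6 | h6
          · rw [cc_cast (q := 5) d 2 (by
              push_cast
              omega)] at h4
            exact cls_two_five (by simpa using h4)
          · rw [cc_cast (q := 5) d 3 (by
              push_cast
              omega)] at h4
            exact cls_three_five (by simpa using h4)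
  have hmn : ((m.natAbs : ℕ) : ℤ) = m := Int.natAbs_of_nonneg hmpos.le
  have hmq : ((m.natAbs : ℕ) : ℚ) = (m : ℚ) := by
    rw [← Int.cast_natCast (R := ℚ) m.natAbs, hmn]
  refine ⟨m.natAbs, ⟨Int.squarefree_natAbs.2 hm, ?_, ?_, ?_⟩, w, hw, ?_⟩
  · intro p hp hpm
    exact hpr p hp (Int.natCast_dvd.2 hpm)
  · obtain ⟨N, a', b', c', hN, ha, hb, hc⟩ := cc_den (w * (x - 4 * n)) y (x + 16 * n)
    refine ⟨b', c', a', ?_, ?_⟩
    · intro h0
      rw [h0] at ha
      have h1 : (N : ℚ) ≠ 0 := by exact_mod_cast hN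
      have h2 : (N : ℚ) * (w * (x - 4 * n)) ≠ 0 := mul_ne_zero h1 (mul_ne_zero hw hx4)
      exact h2 (by rw [← ha, Int.cast_zero])
    · rw [hmn]
      have h1 : ((m * a' ^ 2 : ℤ) : ℚ) = ((b' ^ 2 + n * c' ^ 2 : ℤ) : ℚ) := by
        push_cast
        rw [ha, hb, hc]
        have h2 : (m : ℚ) * w ^ 2 * (x - 4 * n) ^ 2 = y ^ 2 + n * (x + 16 * n) ^ 2 := by
          rw [← hCe]
          exact hnorm
        linear_combination (N : ℚ) ^ 2 * h2
      exact_mod_cast h1
  · intro hn3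
    have h1 := hthree' hn3
    have h2 := (sq_int_iff (p := 3) (by norm_num) m h1).1 (hthree hn3)
    have h3 : m % 3 = 1 ∨ m % 3 = 2 := by omega
    rcases h3 with h3 | h3
    · omega
    · exfalso
      rw [cc_cast (q := 3) m 2 (by
        push_cast
        omega)] at h2
      have h4 : ¬ IsSquare (2 : ZMod 3) := by decide
      exact h4 (by simpa using h2)
  · rw [hmq]
    exact hCe

end X15B
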