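import Pool.Agent.Lib.MP_87c685_nt_X15B.Defs
import Pool.Agent.Lib.MP_87c685_nt_X15.Amb
import Pool.Agent.Lib.MP_87c685_nt_X15.Ram

open NumberField WeierstrassCurve Finset

namespace X15B

open X15

/-- `Φ_n` is finite -/
theorem cge_finite (n : ℕ) (hn : n ≠ 0) : Finite (Phi n) := by
  have h : Phi n ⊆ ((10 * n).divisors : Set ℕ) := by
    intro c hc
    rw [Finset.mem_coe, Nat.mem_divisors]
    refine ⟨?_, by positivity⟩
    apply ram_dvd_nat c (10 * n) hc.1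
    intro p hp hpc
    rcases hc.2.1 p hp hpc with h | ⟨h, -⟩ | ⟨h, -⟩
    · exact Dvd.dvd.mul_left h 10
    · rw [h]
      exact Dvd.dvd.mul_right (by norm_num) n
    · rw [h]
      exact Dvd.dvd.mul_right (by norm_num) n
  exact Set.Finite.subset (Finset.finite_toSet _) h

/-- the second element with the same class -/
theorem cge_twin (n : ℕ) (hn : Squarefree n) (hn1 : n ≠ 1) (K : Type*) [Field K]
    [NumberField K] (s : K) (hs : s ^ 2 = -(n : K)) (m : ℕ)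
    (hm : Squarefree m)
    (hmp : ∀ p : ℕ, p.Prime → p ∣ m → p ∣ n ∨ (p = 2 ∧ n % 4 ≠ 3) ∨ (p = 5 ∧ n % 3 = 1))
    (hmz : ∃ x y z : ℤ, z ≠ 0 ∧ (m : ℤ) * z ^ 2 = x ^ 2 + n * y ^ 2)
    (M : Ideal (𝓞 K)) (hM : M ^ 2 = Ideal.span {(m : 𝓞 K)}) :
    ∃ m' : ℕ, m' ≠ m ∧ Squarefree m' ∧
    (∀ p : ℕ, p.Prime → p ∣ m' → p ∣ n ∨ (p = 2 ∧ n % 4 ≠ 3) ∨ (p = 5 ∧ n % 3 = 1)) ∧
    (∃ x y z : ℤ, z ≠ 0 ∧ (m' : ℤ) * z ^ 2 = x ^ 2 + n * y ^ 2) ∧
    ∃ M' : Ideal (𝓞 K), M' ^ 2 = Ideal.span {(m' : 𝓞 K)} ∧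
      ∃ x y : 𝓞 K, x ≠ 0 ∧ y ≠ 0 ∧ Ideal.span {x} * M = Ideal.span {y} * M' := by
  have hn0 : n ≠ 0 := hn.ne_zero
  have hm0 : m ≠ 0 := hm.ne_zero
  obtain ⟨m', g, hg, hm'⟩ := Nat.sq_mul_squarefree (m * n)
  have hg0 : g ≠ 0 := by
    rintro rfl
    have : m * n = 0 := by rw [← hg]; ring
    rcases Nat.mul_eq_zero.1 this with h | h
    · exact hm0 h
    · exact hn0 h
  have hm'0 : m' ≠ 0 := hm'.ne_zero
  have hsint : IsIntegral ℤ s := by
    refine ⟨Polynomial.X ^ 2 + Polynomial.C (n : ℤ), by monicity!, ?_⟩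
    rw [Polynomial.eval₂_add, Polynomial.eval₂_pow, Polynomial.eval₂_X, Polynomial.eval₂_C,
      eq_intCast, hs]
    push_cast
    ring
  set S : 𝓞 K := ⟨s, hsint⟩ with hS
  have hSc : (S : K) = s := rfl
  have hS2 : S ^ 2 = -(n : 𝓞 K) := by
    apply RingOfIntegers.ext
    change algebraMap (𝓞 K) K (S ^ 2) = algebraMap (𝓞 K) K (-(n : 𝓞 K))
    rw [map_pow, map_neg, map_natCast]
    exact hs
  have hgO : (g : 𝓞 K) ≠ 0 := by exact_mod_cast hg0
  have hnO : (n : 𝓞 K) ≠ 0 := by exact_mod_cast hn0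
  have hS0 : S ≠ 0 := by
    intro h
    rw [h] at hS2
    apply hnO
    linear_combination hS2
  have h1 : (M * Ideal.span {S}) ^ 2 = Ideal.span {(g : 𝓞 K)} ^ 2 * Ideal.span {(m' : 𝓞 K)} := by
    rw [mul_pow, hM, Ideal.span_singleton_pow, Ideal.span_singleton_pow, hS2,
      Ideal.span_singleton_neg, Ideal.span_singleton_mul_span_singleton,
      Ideal.span_singleton_mul_span_singleton]
    congr 2
    exact_mod_cast hg.symm
  obtain ⟨M', hM'⟩ : Ideal.span {(g : 𝓞 K)} ∣ M * Ideal.span {S} :=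
    (UniqueFactorizationMonoid.pow_dvd_pow_iff_dvd two_ne_zero).1 ⟨_, h1⟩
  have hg2 : Ideal.span {(g : 𝓞 K)} ^ 2 ≠ 0 := by
    apply pow_ne_zero
    rw [Ideal.zero_eq_bot, Ne, Ideal.span_singleton_eq_bot]
    exact hgO
  refine ⟨m', ?_, hm', ?_, ?_, M', ?_, S, g, hS0, hgO, ?_⟩
  · rintro rfl
    have h2 : g ^ 2 = n := by
      have : m' * g ^ 2 = m' * n := by rw [← hg]; ring
      exact Nat.eq_of_mul_eq_mul_left (Nat.pos_of_ne_zero hm0) this
    have h3 : IsUnit g := hn g ⟨1, by rw [← h2]; ring⟩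
    rw [Nat.isUnit_iff] at h3
    apply hn1
    rw [← h2, h3]
    norm_num
  · intro p hp hpm
    have h2 : p ∣ m * n := by
      rw [← hg]
      exact Dvd.dvd.mul_left hpm _
    rcases (Nat.Prime.dvd_mul hp).1 h2 with h | h
    · exact hmp p hp h
    · exact Or.inl h
  · obtain ⟨x, y, z, hz, h⟩ := hmz
    refine ⟨n * y, x, g * z, mul_ne_zero (by exact_mod_cast hg0) hz, ?_⟩
    have hg' : (g : ℤ) ^ 2 * m' = m * n := by exact_mod_cast hg
    linear_combination z ^ 2 * hg' + (n : ℤ) * h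
  · have h3 : Ideal.span {(g : 𝓞 K)} ^ 2 * M' ^ 2 =
        Ideal.span {(g : 𝓞 K)} ^ 2 * Ideal.span {(m' : 𝓞 K)} := by
      rw [← h1, hM', mul_pow]
    exact mul_left_cancel₀ hg2 h3
  · rw [← hM', mul_comm]

/-- elements of `Φ_n` attached to a class -/
theorem cge_exists (n : ℕ) (hn : Squarefree n) (h3 : n % 3 ≠ 1) (K : Type*) [Field K]
    [NumberField K] (h2 : Module.finrank ℚ K = 2) (s : K) (hs : s ^ 2 = -(n : K))
    (J : Ideal (𝓞 K)) (hJ : J ≠ ⊥) (hp : ((J ^ 2) ^ 2).IsPrincipal) :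
    ∃ m : ℕ, m ∈ Phi n ∧ ∃ M : Ideal (𝓞 K), M ^ 2 = Ideal.span {(m : 𝓞 K)} ∧
      ∃ x y : 𝓞 K, x ≠ 0 ∧ y ≠ 0 ∧ Ideal.span {x} * J ^ 2 = Ideal.span {y} * M := by
  have hn0 : n ≠ 0 := hn.ne_zero
  have hd : Squarefree (-(n : ℤ)) := by
    rw [← Int.squarefree_natAbs, Int.natAbs_neg, Int.natAbs_natCast]
    exact hn
  have hneg : (-(n : ℤ)) < 0 := by
    have : 0 < n := Nat.pos_of_ne_zero hn0
    omega
  have hs' : s ^ 2 = ((-(n : ℤ) : ℤ) : K) := by
    rw [hs]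
    push_cast
    ring
  obtain ⟨m, hcm, M, hM, x, y, hx, hy, hxy⟩ :=
    exists_ramified K h2 (-(n : ℤ)) hd hneg s hs' (J ^ 2) (pow_ne_zero 2 hJ) hp
  obtain ⟨k, rfl⟩ : ∃ k : ℕ, m = (k : ℤ) := ⟨m.toNat, by have := hcm.pos; omega⟩
  have hM' : M ^ 2 = Ideal.span {(k : 𝓞 K)} := by
    rw [hM]
    push_cast
    rfl
  refine ⟨k, ⟨Int.squarefree_natCast.1 hcm.sqf, ?_, ?_, fun h => absurd h h3⟩, M, hM', x, y, hx, hy,
    hxy⟩
  · intro p hp hpk
    rcases hp.eq_two_or_odd with h | h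
    · right
      left
      refine ⟨h, ?_⟩
      have h4 := hcm.two (by rw [h] at hpk; exact_mod_cast hpk)
      omega
    · left
      have h4 := hcm.dvd p hp (by rintro rfl; norm_num at h) (by exact_mod_cast hpk)
      rw [Int.dvd_neg] at h4
      exact_mod_cast h4
  · -- norms
    have hNM : Ideal.absNorm M = k := by
      have h4 : Ideal.absNorm M ^ 2 = k ^ 2 := by
        rw [← map_pow, hM']
        have h5 : Ideal.absNorm (Ideal.span {(k : 𝓞 K)}) = k ^ 2 := by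
          rw [Ideal.absNorm_span_singleton]
          have h6 : Algebra.norm ℤ (k : 𝓞 K) = (k : ℤ) ^ 2 := by
            have h7 := Algebra.norm_algebraMap_of_basis (RingOfIntegers.basis K) (k : ℤ)
            rw [← Module.finrank_eq_card_chooseBasisIndex, RingOfIntegers.rank, h2] at h7
            simpa using h7
          rw [h6, Int.natAbs_pow, Int.natAbs_natCast]
        exact h5
      exact Nat.pow_left_injective (n := 2) (by norm_num) h4
    obtain ⟨a, w, -, hN, -⟩ := norm_form K h2 _ hd hneg s hs' x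
    obtain ⟨a', w', -, hN', -⟩ := norm_form K h2 _ hd hneg s hs' y
    have h4 : Ideal.absNorm (Ideal.span {x}) * Ideal.absNorm J ^ 2 =
        Ideal.absNorm (Ideal.span {y}) * k := by
      rw [← hNM, ← map_pow, ← map_mul, ← map_mul, hxy]
    have h4' : (Ideal.absNorm (Ideal.span {x}) : ℤ) * (Ideal.absNorm J : ℤ) ^ 2 =
        (Ideal.absNorm (Ideal.span {y}) : ℤ) * (k : ℤ) := by exact_mod_cast h4
    have hy0 : (Ideal.absNorm (Ideal.span {y}) : ℤ) ≠ 0 := by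
      intro h
      have h5 : Ideal.absNorm (Ideal.span {y}) = 0 := by exact_mod_cast h
      rw [Ideal.absNorm_eq_zero_iff, Ideal.span_singleton_eq_bot] at h5
      exact hy h5
    set j : ℤ := (Ideal.absNorm J : ℤ)
    refine ⟨j * (a * a' - n * (w * w')), j * (a * w' + w * a'),
      a' ^ 2 - -(n : ℤ) * w' ^ 2, ?_, ?_⟩
    · rw [hN']
      exact mul_ne_zero (by norm_num) hy0
    · have h5 : (k : ℤ) * (a' ^ 2 - -(n : ℤ) * w' ^ 2) = j ^ 2 * (a ^ 2 - -(n : ℤ) * w ^ 2) := by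
        rw [hN, hN']
        linear_combination (-4) * h4'
      linear_combination (a' ^ 2 - -(n : ℤ) * w' ^ 2) * h5

/-- the converse: `Φ_n` is at least twice as large as the group of ambiguous square classes -/
theorem card_Phi_ge (n : ℕ) (hn : Squarefree n) (h3 : n % 3 ≠ 1) (K : Type*) [Field K]
    [NumberField K] (h2 : Module.finrank ℚ K = 2) (s : K) (hs : s ^ 2 = -(n : K)) :
    2 * Nat.card {c : ClassGroup (𝓞 K) // c ^ 2 = 1 ∧ ∃ b, b ^ 2 = c} ≤ Nat.card (Phi n) := by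
  classical
  have hn0 : n ≠ 0 := hn.ne_zero
  have hn1 : n ≠ 1 := by
    rintro rfl
    exact h3 (by norm_num)
  have := cge_finite n hn0
  have key : ∀ c : {c : ClassGroup (𝓞 K) // c ^ 2 = 1 ∧ ∃ b, b ^ 2 = c},
      ∃ f : Bool → Phi n, Function.Injective f ∧ ∀ i, ∃ M : nonZeroDivisors (Ideal (𝓞 K)),
        (M : Ideal (𝓞 K)) ^ 2 = Ideal.span {((f i : ℕ) : 𝓞 K)} ∧ ClassGroup.mk0 M = c.1 := by
    rintro ⟨c, hc, b, hb⟩
    obtain ⟨J, hJ⟩ := ClassGroup.mk0_surjective b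
    have hJ0 : (J : Ideal (𝓞 K)) ≠ ⊥ := by
      have := J.2
      rw [mem_nonZeroDivisors_iff_ne_zero] at this
      exact this
    have hp : (((J : Ideal (𝓞 K)) ^ 2) ^ 2).IsPrincipal := by
      have h4 : ClassGroup.mk0 ((J ^ 2) ^ 2) = 1 := by
        rw [map_pow, map_pow, hJ, hb, hc]
      have h5 : ((J : Ideal (𝓞 K)) ^ 2) ^ 2 ∈ nonZeroDivisors (Ideal (𝓞 K)) :=
        mem_nonZeroDivisors_iff_ne_zero.2 (pow_ne_zero 2 (pow_ne_zero 2 hJ0))
      have h6 : (⟨((J : Ideal (𝓞 K)) ^ 2) ^ 2, h5⟩ : nonZeroDivisors (Ideal (𝓞 K))) =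
          (J ^ 2) ^ 2 := by
        apply Subtype.ext
        rw [SubmonoidClass.coe_pow, SubmonoidClass.coe_pow]
      rw [← h6] at h4
      exact (ClassGroup.mk0_eq_one_iff h5).1 h4
    obtain ⟨m, hm, M, hM, x, y, hx, hy, hxy⟩ := cge_exists n hn h3 K h2 s hs J hJ0 hp
    obtain ⟨m', hne, hsq, hp', hz', M', hM', x', y', hx', hy', hxy'⟩ :=
      cge_twin n hn hn1 K s hs m hm.1 hm.2.1 hm.2.2.1 M hM
    have hM0 : M ≠ ⊥ := by
      rintro rfl
      have h5 : Ideal.span {(m : 𝓞 K)} = ⊥ := by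
        rw [← hM]
        simp
      rw [Ideal.span_singleton_eq_bot] at h5
      exact hm.1.ne_zero (by exact_mod_cast h5)
    have hM'0 : M' ≠ ⊥ := by
      rintro rfl
      have h5 : Ideal.span {(m' : 𝓞 K)} = ⊥ := by
        rw [← hM']
        simp
      rw [Ideal.span_singleton_eq_bot] at h5
      exact hsq.ne_zero (by exact_mod_cast h5)
    have hMm : M ∈ nonZeroDivisors (Ideal (𝓞 K)) := mem_nonZeroDivisors_iff_ne_zero.2 hM0
    have hMm' : M' ∈ nonZeroDivisors (Ideal (𝓞 K)) := mem_nonZeroDivisors_iff_ne_zero.2 hM'0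
    have hcM : ClassGroup.mk0 (⟨M, hMm⟩ : nonZeroDivisors (Ideal (𝓞 K))) = c := by
      rw [← hb, ← hJ, ← map_pow, eq_comm, ClassGroup.mk0_eq_mk0_iff]
      exact ⟨x, y, hx, hy, hxy⟩
    have hcM' : ClassGroup.mk0 (⟨M', hMm'⟩ : nonZeroDivisors (Ideal (𝓞 K))) = c := by
      rw [← hcM, eq_comm, ClassGroup.mk0_eq_mk0_iff]
      exact ⟨x', y', hx', hy', hxy'⟩
    have hm'Phi : m' ∈ Phi n := ⟨hsq, hp', hz', fun h => absurd h h3⟩
    refine ⟨fun i => if i then ⟨m, hm⟩ else ⟨m', hm'Phi⟩, ?_, ?_⟩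
    · intro i j hij
      cases i <;> cases j <;> simp_all
    · intro i
      cases i
      · exact ⟨⟨M', hMm'⟩, by simpa using hM', hcM'⟩
      · exact ⟨⟨M, hMm⟩, by simpa using hM, hcM⟩
  choose f hf hfM using key
  have hinj : Function.Injective
      (fun p : Bool × {c : ClassGroup (𝓞 K) // c ^ 2 = 1 ∧ ∃ b, b ^ 2 = c} => f p.2 p.1) := by
    rintro ⟨i, c⟩ ⟨j, c'⟩ h
    simp only at h
    obtain ⟨M, hM, hc⟩ := hfM c i
    obtain ⟨M', hM', hc'⟩ := hfM c' j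
    have h4 : (M : Ideal (𝓞 K)) = (M' : Ideal (𝓞 K)) := by
      apply sqid_sq_inj
      rw [hM, hM', h]
    have h5 : c = c' := by
      apply Subtype.ext
      rw [← hc, ← hc', Subtype.ext h4]
    subst h5
    rw [hf c h]
  have h6 := Nat.card_le_card_of_injective _ hinj
  rw [Nat.card_prod] at h6
  simpa using h6

end X15B
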