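import Pool.Agent.Lib.MP_87c685_nt_X15B.Cl
import Pool.Agent.Lib.MP_87c685_nt_X15.Prod

open NumberField WeierstrassCurve Finset

namespace X15B

open X15

theorem dlt_zero {W : WeierstrassCurve ℚ} (e e' e'' : ℚ) :
    dval e e' e'' (0 : W.toAffine.Point) = 1 := rfl

theorem dlt_eq {W : WeierstrassCurve ℚ} (e e' e'' x y : ℚ) (h : W.toAffine.Nonsingular x y)
    (hx : x = e) : dval e e' e'' (Affine.Point.some x y h) = (e - e') * (e - e'') := by
  simp only [dval]
  rw [if_pos hx]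

theorem dlt_ne {W : WeierstrassCurve ℚ} (e e' e'' x y : ℚ) (h : W.toAffine.Nonsingular x y)
    (hx : x ≠ e) : dval e e' e'' (Affine.Point.some x y h) = x - e := by
  simp only [dval]
  rw [if_neg hx]

/-- the root `e` and the other two roots `e'`, `e''` of the cubic -/
structure DRoots (d e e' e'' : ℚ) : Prop where
  s1 : e + e' + e'' = 7 * d
  s2 : e * e' + e * e'' + e' * e'' = -144 * d ^ 2
  s3 : e * e' * e'' = 0

theorem DRoots.eqn {d e e' e'' : ℚ} (r : DRoots d e e' e'') {x y : ℚ}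
    (h : (E ℚ d).toAffine.Equation x y) : y ^ 2 = (x - e) * (x - e') * (x - e'') := by
  rw [equation_iff] at h
  rw [h]
  linear_combination -x ^ 2 * r.s1 - x * r.s2 + r.s3 + 2 * x ^ 2 * r.s1

theorem dlt_addX {d x₁ x₂ l : ℚ} :
    (E ℚ d).toAffine.addX x₁ x₂ l = l ^ 2 + 7 * d - x₁ - x₂ := by
  simp only [Affine.addX, E]
  ring

theorem dlt_neg {d x y : ℚ} : (E ℚ d).toAffine.negY x y = -y := by
  simp only [Affine.negY, E]
  ring

/-- adding the two-torsion point -/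
theorem dlt_tors {d e e' e'' : ℚ} (r : DRoots d e e' e'') {y₁ x₂ y₂ : ℚ}
    (h₁ : (E ℚ d).toAffine.Equation e y₁) (h₂ : (E ℚ d).toAffine.Equation x₂ y₂)
    (hx : x₂ ≠ e) :
    ((E ℚ d).toAffine.addX e x₂ ((E ℚ d).toAffine.slope e x₂ y₁ y₂) - e) * (x₂ - e) =
      (e - e') * (e - e'') := by
  have hy : y₁ = 0 := by
    have h3 := r.eqn h₁
    have h4 : y₁ ^ 2 = 0 := by rw [h3]; ring
    exact pow_eq_zero_iff (two_ne_zero) |>.1 h4
  have hs : (E ℚ d).toAffine.slope e x₂ y₁ y₂ * (x₂ - e) = y₂ := by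
    rw [Affine.slope_of_X_ne (fun h => hx h.symm), hy]
    have h5 : e - x₂ ≠ 0 := fun h => hx (by linear_combination -h)
    field_simp
    ring
  set l := (E ℚ d).toAffine.slope e x₂ y₁ y₂ with hl
  have h6 : l ^ 2 * (x₂ - e) = (x₂ - e') * (x₂ - e'') := by
    have h7 : (x₂ - e) ≠ 0 := sub_ne_zero.2 hx
    apply mul_left_cancel₀ h7
    have h8 := r.eqn h₂
    rw [← hs] at h8
    linear_combination h8
  rw [dlt_addX]
  linear_combination h6 + (x₂ - e) * (-1 : ℚ) * r.s1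

/-- the sum is the two-torsion point -/
theorem dlt_sum {d e e' e'' : ℚ} (r : DRoots d e e' e'') {x₁ y₁ x₂ y₂ : ℚ}
    (h₁ : (E ℚ d).toAffine.Equation x₁ y₁) (h₂ : (E ℚ d).toAffine.Equation x₂ y₂)
    (hxy : ¬(x₁ = x₂ ∧ y₁ = (E ℚ d).toAffine.negY x₂ y₂)) (hx : x₁ ≠ e)
    (h3 : (E ℚ d).toAffine.addX x₁ x₂ ((E ℚ d).toAffine.slope x₁ x₂ y₁ y₂) = e) :
    (x₁ - e) * (x₂ - e) = (e - e') * (e - e'') := by
  have h := congrArg (Polynomial.eval e) (Affine.addPolynomial_slope h₁ h₂ hxy)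
  rw [Affine.addPolynomial_eq] at h
  simp only [Cubic.toPoly, E, Polynomial.eval_neg, Polynomial.eval_add, Polynomial.eval_mul,
    Polynomial.eval_C, Polynomial.eval_pow, Polynomial.eval_X, Polynomial.eval_sub] at h
  have h3' := h3
  simp only [E] at h3'
  rw [h3'] at h
  rw [dlt_addX] at h3
  simp only [E] at h3
  set l := (⟨0, -7 * d, 0, -144 * d ^ 2, 0⟩ : WeierstrassCurve ℚ).toAffine.slope x₁ x₂ y₁ y₂
    with hl
  have he : e * (e + 9 * d) * (e - 16 * d) = 0 := by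
    linear_combination -e ^ 2 * r.s1 - e * r.s2 + r.s3 + 2 * e ^ 2 * r.s1
  have h4 : (y₁ + l * (e - x₁)) ^ 2 = 0 := by
    linear_combination h + he
  have h5 : y₁ + l * (e - x₁) = 0 := pow_eq_zero_iff (two_ne_zero) |>.1 h4
  have h6 : l ^ 2 * (x₁ - e) = (x₁ - e') * (x₁ - e'') := by
    have h7 : (x₁ - e) ≠ 0 := sub_ne_zero.2 hx
    apply mul_left_cancel₀ h7
    have h8 := r.eqn h₁
    have h9 : y₁ = l * (x₁ - e) := by linear_combination h5
    rw [h9] at h8
    linear_combination h8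
  linear_combination h6 - (x₁ - e) * h3 - (x₁ - e) * r.s1

theorem dlt_root {d : ℚ} {e e' e'' : ℚ} (r : DRoots d e e' e'')
    (P Q : (E ℚ d).toAffine.Point) :
    IsSquare (dval e e' e'' P * dval e e' e'' Q * dval e e' e'' (P + Q)) := by
  have he : e * (e + 9 * d) * (e - 16 * d) = 0 := by
    linear_combination -e ^ 2 * r.s1 - e * r.s2 + r.s3 + 2 * e ^ 2 * r.s1
  cases P with
  | zero =>
    have h1 : (Affine.Point.zero : (E ℚ d).toAffine.Point) = 0 := rfl
    rw [h1, zero_add, dlt_zero, one_mul]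
    exact ⟨_, rfl⟩
  | some x₁ y₁ h₁ =>
    cases Q with
    | zero =>
      have h1 : (Affine.Point.zero : (E ℚ d).toAffine.Point) = 0 := rfl
      rw [h1, add_zero, dlt_zero, mul_one]
      exact ⟨_, rfl⟩
    | some x₂ y₂ h₂ =>
      by_cases hxy : x₁ = x₂ ∧ y₁ = (E ℚ d).toAffine.negY x₂ y₂
      · rw [Affine.Point.add_of_Y_eq hxy.1 hxy.2, dlt_zero, mul_one]
        have h3 : dval e e' e'' (Affine.Point.some x₁ y₁ h₁ : (E ℚ d).toAffine.Point) =
            dval e e' e'' (Affine.Point.some x₂ y₂ h₂ : (E ℚ d).toAffine.Point) := by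
          by_cases hx : x₁ = e
          · rw [dlt_eq _ _ _ _ _ _ hx, dlt_eq _ _ _ _ _ _ (hxy.1 ▸ hx)]
          · rw [dlt_ne _ _ _ _ _ _ hx, dlt_ne _ _ _ _ _ _ (hxy.1 ▸ hx), hxy.1]
        rw [h3]
        exact ⟨_, rfl⟩
      · rw [Affine.Point.add_some hxy]
        by_cases hx₁ : x₁ = e
        · by_cases hx₂ : x₂ = e
          · exfalso
            apply hxy
            refine ⟨by rw [hx₁, hx₂], ?_⟩
            have hy₁ : y₁ ^ 2 = 0 := by rw [r.eqn h₁.1, hx₁]; ring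
            have hy₂ : y₂ ^ 2 = 0 := by rw [r.eqn h₂.1, hx₂]; ring
            rw [dlt_neg, pow_eq_zero_iff (two_ne_zero) |>.1 hy₁,
              pow_eq_zero_iff (two_ne_zero) |>.1 hy₂, neg_zero]
          · subst hx₁
            have h4 := dlt_tors r h₁.1 h₂.1 hx₂
            rw [dlt_eq _ _ _ _ _ _ rfl, dlt_ne _ _ _ _ _ _ hx₂]
            by_cases hx₃ : (E ℚ d).toAffine.addX x₁ x₂
              ((E ℚ d).toAffine.slope x₁ x₂ y₁ y₂) = x₁
            · rw [hx₃, sub_self, zero_mul] at h4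
              rw [← h4, zero_mul, zero_mul]
              exact ⟨0, by ring⟩
            · rw [dlt_ne _ _ _ _ _ _ hx₃]
              refine ⟨(x₁ - e') * (x₁ - e''), ?_⟩
              rw [mul_assoc, mul_comm (x₂ - x₁), h4]
        · by_cases hx₂ : x₂ = e
          · subst hx₂
            have hs : (E ℚ d).toAffine.addX x₁ x₂ ((E ℚ d).toAffine.slope x₁ x₂ y₁ y₂) =
                (E ℚ d).toAffine.addX x₂ x₁ ((E ℚ d).toAffine.slope x₂ x₁ y₂ y₁) := by
              rw [Affine.slope_of_X_ne hx₁, Affine.slope_of_X_ne (fun h => hx₁ h.symm),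
                dlt_addX, dlt_addX, ← neg_sub y₁ y₂, ← neg_sub x₁ x₂, neg_div_neg_eq]
              ring
            have h4 := dlt_tors r h₂.1 h₁.1 hx₁
            rw [← hs] at h4
            rw [dlt_ne _ _ _ _ _ _ hx₁, dlt_eq _ _ _ _ _ _ rfl]
            by_cases hx₃ : (E ℚ d).toAffine.addX x₁ x₂
              ((E ℚ d).toAffine.slope x₁ x₂ y₁ y₂) = x₂
            · rw [hx₃, sub_self, zero_mul] at h4
              rw [← h4, mul_zero, zero_mul]
              exact ⟨0, by ring⟩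
            · rw [dlt_ne _ _ _ _ _ _ hx₃]
              refine ⟨(x₂ - e') * (x₂ - e''), ?_⟩
              linear_combination ((x₂ - e') * (x₂ - e'')) * h4
          · rw [dlt_ne _ _ _ _ _ _ hx₁, dlt_ne _ _ _ _ _ _ hx₂]
            by_cases hx₃ : (E ℚ d).toAffine.addX x₁ x₂
              ((E ℚ d).toAffine.slope x₁ x₂ y₁ y₂) = e
            · rw [dlt_eq _ _ _ _ _ _ hx₃]
              refine ⟨(e - e') * (e - e''), ?_⟩
              rw [dlt_sum r h₁.1 h₂.1 hxy hx₁ hx₃]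
            · rw [dlt_ne _ _ _ _ _ _ hx₃]
              exact prod_aux d e he x₁ y₁ x₂ y₂ h₁.1 h₂.1 hxy

/-- L9: the product of the three values is a square. -/
theorem dval_add (d : ℚ) (hd : d ≠ 0) (P Q : (E ℚ d).toAffine.Point) :
    (IsSquare (dval (-9 * d) 0 (16 * d) P * dval (-9 * d) 0 (16 * d) Q *
      dval (-9 * d) 0 (16 * d) (P + Q))) ∧
    (IsSquare (dval (16 * d) 0 (-9 * d) P * dval (16 * d) 0 (-9 * d) Q *
      dval (16 * d) 0 (-9 * d) (P + Q))) := by
  constructor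
  · exact dlt_root ⟨by ring, by ring, by ring⟩ P Q
  · exact dlt_root ⟨by ring, by ring, by ring⟩ P Q

end X15B
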