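import Pool.Agent.Lib.MP_87c685_nt_X15B.Delta
import Pool.Agent.Lib.MP_87c685_nt_X15.Halve

open NumberField WeierstrassCurve Finset

namespace X15B

open X15

theorem dh_ne {W : WeierstrassCurve ℚ} (e e' e'' : ℚ) (h : (e - e') * (e - e'') ≠ 0)
    (P : W.toAffine.Point) : dval e e' e'' P ≠ 0 := by
  cases P with
  | zero => simp [dval]
  | some x y hxy =>
    simp only [dval]
    split_ifs with h1
    · exact h
    · exact sub_ne_zero.2 h1

theorem dh_hom (d : ℚ) (f : (E ℚ d).toAffine.Point → ℚ) (hf : ∀ P, f P ≠ 0)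
    (h : ∀ P Q, IsSquare (f P * f Q * f (P + Q))) :
    ∃ δ : (E ℚ d).toAffine.Point →+ SqC, ∀ P, δ P = cl (f P) := by
  have key : ∀ P Q, cl (f (P + Q)) = cl (f P) + cl (f Q) := by
    intro P Q
    have h1 := (cl_eq_zero_iff _ (mul_ne_zero (mul_ne_zero (hf P) (hf Q)) (hf (P + Q)))).2 (h P Q)
    rw [cl_mul _ _ (mul_ne_zero (hf P) (hf Q)) (hf _), cl_mul _ _ (hf P) (hf Q)] at h1
    have h2 := cl_add_self (f (P + Q))
    exact add_right_cancel (b := cl (f (P + Q))) (by rw [h2, h1])
  exact ⟨AddMonoidHom.mk' (fun P => cl (f P)) key, fun P => rfl⟩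

/-- L10: the descent homomorphisms and their common kernel. -/
theorem exists_delta (d : ℚ) (hd : d ≠ 0) :
    ∃ δB δC : (E ℚ d).toAffine.Point →+ SqC,
      (∀ P, δB P = cl (dval (-9 * d) 0 (16 * d) P)) ∧
      (∀ P, δC P = cl (dval (16 * d) 0 (-9 * d) P)) ∧
      (∀ P, δB P = 0 → δC P = 0 → ∃ Q, P = Q + Q) := by
  have hB0 : (-9 * d - 0) * (-9 * d - 16 * d) ≠ 0 := by
    have : (-9 * d - 0) * (-9 * d - 16 * d) = 225 * d ^ 2 := by ring
    rw [this]
    positivity
  have hC0 : (16 * d - 0) * (16 * d - -9 * d) ≠ 0 := by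
    have : (16 * d - 0) * (16 * d - -9 * d) = 400 * d ^ 2 := by ring
    rw [this]
    positivity
  obtain ⟨δB, hδB⟩ := dh_hom d (fun P => dval (-9 * d) 0 (16 * d) P)
    (fun P => dh_ne _ _ _ hB0 P) (fun P Q => (dval_add d hd P Q).1)
  obtain ⟨δC, hδC⟩ := dh_hom d (fun P => dval (16 * d) 0 (-9 * d) P)
    (fun P => dh_ne _ _ _ hC0 P) (fun P Q => (dval_add d hd P Q).2)
  refine ⟨δB, δC, hδB, hδC, ?_⟩
  intro P hPB hPC
  rw [hδB] at hPB
  rw [hδC] at hPC
  have sB := (cl_eq_zero_iff _ (dh_ne _ _ _ hB0 P)).1 hPB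
  have sC := (cl_eq_zero_iff _ (dh_ne _ _ _ hC0 P)).1 hPC
  cases P with
  | zero => exact ⟨0, (add_zero _).symm⟩
  | some x y hxy =>
    simp only [dval] at sB sC
    have heq := (nonsingular_iff d x y hd).1 hxy
    by_cases h1 : x = -9 * d
    · have h2 : x ≠ 16 * d := by
        intro h3
        apply hd
        have : (25 : ℚ) * d = 0 := by linear_combination h1 - h3
        linarith
      rw [if_pos h1] at sB
      rw [if_neg h2] at sC
      have h4 : x - 16 * d = -25 * d := by rw [h1]; ring
      have sd : IsSquare (-d) := by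
        rw [h4] at sC
        obtain ⟨r, hr⟩ := sC
        refine ⟨r / 5, ?_⟩
        linear_combination hr / 25
      have s9 : IsSquare x := by
        obtain ⟨r, hr⟩ := sd
        refine ⟨3 * r, ?_⟩
        rw [h1]
        linear_combination 9 * hr
      exact halve d hd x y hxy s9 ⟨0, by rw [h1]; ring⟩ sC
    · rw [if_neg h1] at sB
      by_cases h2 : x = 16 * d
      · rw [if_pos h2] at sC
        have h4 : x - -9 * d = 25 * d := by rw [h2]; ring
        rw [h4] at sB
        have sd : IsSquare d := by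
          obtain ⟨r, hr⟩ := sB
          refine ⟨r / 5, ?_⟩
          linear_combination hr / 25
        have s16 : IsSquare x := by
          obtain ⟨r, hr⟩ := sd
          refine ⟨4 * r, ?_⟩
          rw [h2]
          linear_combination 16 * hr
        refine halve d hd x y hxy s16 ?_ ⟨0, by rw [h2]; ring⟩
        obtain ⟨r, hr⟩ := sB
        refine ⟨r, ?_⟩
        rw [h2]
        linear_combination hr
      · rw [if_neg h2] at sC
        have n1 : x - -9 * d ≠ 0 := sub_ne_zero.2 h1
        have n2 : x - 16 * d ≠ 0 := sub_ne_zero.2 h2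
        have e1 : x + 9 * d = x - -9 * d := by ring
        obtain ⟨r, hr⟩ := sB
        obtain ⟨s, hs⟩ := sC
        have hr0 : r ≠ 0 := by
          rintro rfl
          apply n1
          rw [hr]
          ring
        have hs0 : s ≠ 0 := by
          rintro rfl
          apply n2
          rw [hs]
          ring
        have sx : IsSquare x := by
          refine ⟨y / (r * s), ?_⟩
          rw [e1, hr, hs] at heq
          field_simp
          linear_combination -heq
        exact halve d hd x y hxy sx ⟨r, by rw [e1, hr]⟩ ⟨s, hs⟩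

end X15B
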