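import Mathlib

/-!
Project X15B (MP_87c685_nt): the definitions of the statement: the curve `X_0(15)` and the
intrinsic definition of `Φ_K`.
-/

open NumberField

namespace X15B

/-- The modular curve `X_0(15)`: `y² + x y + y = x³ + x² - 10 x - 10`. -/
def X015 (K : Type*) [Field K] : WeierstrassCurve K := ⟨1, 1, 1, -10, -10⟩

/-- The group `Φ_K`, intrinsically: squarefree norms from `K`, all of whose prime factors ramify in
`K` or are `5` in case `3` is inert, and which are `1` modulo `3` in case `3` is inert -/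
def PhiK (K : Type*) [Field K] [NumberField K] : Set ℕ :=
  {c | Squarefree c ∧
    (∀ p : ℕ, p.Prime → p ∣ c → (∃ P : Ideal (𝓞 K), P ^ 2 = Ideal.span {(p : 𝓞 K)}) ∨
      (p = 5 ∧ (Ideal.span {(3 : 𝓞 K)}).IsPrime)) ∧
    (∃ x : K, Algebra.norm ℚ x = c) ∧ ((Ideal.span {(3 : 𝓞 K)}).IsPrime → c % 3 = 1)}

end X15B
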