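import Pool.Agent.Lib.MP_87c685_nt_X15B.Defs
import Pool.Agent.Lib.MP_87c685_nt_X15B.PhiK
import Pool.Agent.Lib.MP_87c685_nt_X15.Amb
import Pool.Agent.Lib.MP_87c685_nt_X15.Ram
import Pool.Agent.Lib.MP_87c685_nt_X15.Conj

open NumberField WeierstrassCurve Finset

namespace X15B

open X15

section root

theorem glue_root (K : Type*) [Field K] [NumberField K]
    (h2 : Module.finrank ℚ K = 2) : ∃ (t : K) (r : ℚ), t ^ 2 = (r : K) ∧
      ∀ q : ℚ, t ≠ (q : K) := by
  have hx : ∃ x : K, x ∉ (algebraMap ℚ K).range := by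
    by_contra h
    push Not at h
    have h1 : (⊥ : Subalgebra ℚ K) = ⊤ := by
      rw [eq_top_iff]
      intro x _
      exact Algebra.mem_bot.2 (h x)
    have h3 := Subalgebra.bot_eq_top_iff_finrank_eq_one.1 h1
    omega
  obtain ⟨x, hx⟩ := hx
  have hint : IsIntegral ℚ x := Algebra.IsIntegral.isIntegral x
  have hd : (minpoly ℚ x).natDegree ∣ 2 := by
    have := minpoly.degree_dvd hint
    rwa [h2] at this
  have hd1 : (minpoly ℚ x).natDegree ≠ 1 := fun h => hx (minpoly.natDegree_eq_one_iff.1 h)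
  have hd2 : (minpoly ℚ x).natDegree = 2 := by
    have := (Nat.dvd_prime Nat.prime_two).1 hd
    tauto
  have hm := minpoly.aeval ℚ x
  rw [Polynomial.aeval_eq_sum_range, hd2] at hm
  have hc : (minpoly ℚ x).coeff 2 = 1 := by
    have := minpoly.monic hint
    rw [Polynomial.Monic, Polynomial.leadingCoeff, hd2] at this
    exact this
  simp only [Finset.sum_range_succ, Finset.range_zero, Finset.sum_empty, zero_add, pow_zero,
    pow_one, hc, one_smul] at hm
  set b := (minpoly ℚ x).coeff 0 with hb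
  set a := (minpoly ℚ x).coeff 1 with ha
  have hm' : (b : K) + (a : K) * x + x ^ 2 = 0 := by
    have e1 : b • (1 : K) = (b : K) := by
      rw [Algebra.smul_def, mul_one]; rfl
    have e2 : a • x = (a : K) * x := by
      rw [Algebra.smul_def]; rfl
    rw [e1, e2] at hm
    exact hm
  refine ⟨x + ((a / 2 : ℚ) : K), a ^ 2 / 4 - b, ?_, ?_⟩
  · push_cast
    have : x ^ 2 = -(b : K) - (a : K) * x := by linear_combination hm'
    ring_nf
    rw [this]
    ring
  · intro q hq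
    apply hx
    refine ⟨q - a / 2, ?_⟩
    have : x = (q : K) - ((a / 2 : ℚ) : K) := by rw [← hq]; ring
    rw [this]
    simp [map_sub, map_div₀]

theorem glue_sqf (K : Type*) [Field K] [NumberField K]
    (h2 : Module.finrank ℚ K = 2) : ∃ (d : ℤ) (s : K), Squarefree d ∧ s ^ 2 = (d : K) ∧
      ∀ q : ℚ, s ≠ (q : K) := by
  obtain ⟨t, r, ht, hq⟩ := glue_root K h2
  have hr0 : r ≠ 0 := by
    rintro rfl
    have : t = 0 := by
      have : t ^ 2 = 0 := by rw [ht]; simp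
      exact pow_eq_zero_iff (two_ne_zero) |>.1 this
    exact hq 0 (by rw [this]; simp)
  obtain ⟨a, b, hab, ha⟩ := Nat.sq_mul_squarefree (r.num.natAbs * r.den)
  have hN : r.num.natAbs * r.den ≠ 0 := by
    refine Nat.mul_ne_zero ?_ r.den_nz
    rw [Int.natAbs_ne_zero]
    exact Rat.num_ne_zero.2 hr0
  have hb0 : b ≠ 0 := by
    rintro rfl
    apply hN
    rw [← hab]; simp
  have hsgn : ∃ d : ℤ, Squarefree d ∧ (r.num * r.den : ℤ) = d * (b : ℤ) ^ 2 := by
    have habz : ((r.num.natAbs : ℤ)) * (r.den : ℤ) = (b : ℤ) ^ 2 * (a : ℤ) := by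
      exact_mod_cast hab.symm
    rcases Int.natAbs_eq r.num with h | h
    · refine ⟨(a : ℤ), Int.squarefree_natCast.2 ha, ?_⟩
      rw [h, habz]; ring
    · refine ⟨-(a : ℤ), ?_, ?_⟩
      · rw [← Int.squarefree_natAbs, Int.natAbs_neg, Int.natAbs_natCast]
        exact ha
      · rw [h]
        have : -(r.num.natAbs : ℤ) * (r.den : ℤ) = -((r.num.natAbs : ℤ) * (r.den : ℤ)) := by ring
        rw [this, habz]; ring
  obtain ⟨d, hd, hdb⟩ := hsgn
  have hden : (r.den : K) ≠ 0 := by exact_mod_cast r.den_nz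
  have hbK : (b : K) ≠ 0 := by exact_mod_cast hb0
  have hrK : (r : K) * (r.den : K) ^ 2 = (d : K) * (b : K) ^ 2 := by
    have h1 : r * (r.den : ℚ) ^ 2 = (d : ℚ) * (b : ℚ) ^ 2 := by
      have h3 : r * (r.den : ℚ) = (r.num : ℚ) := Rat.mul_den_eq_num r
      have h4 : (r.num : ℚ) * (r.den : ℚ) = (d : ℚ) * (b : ℚ) ^ 2 := by exact_mod_cast hdb
      calc r * (r.den : ℚ) ^ 2 = (r * (r.den : ℚ)) * (r.den : ℚ) := by ring
        _ = _ := by rw [h3, h4]
    exact_mod_cast congrArg (fun y : ℚ => (y : K)) h1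
  refine ⟨d, t * (r.den : K) / (b : K), hd, ?_, ?_⟩
  · field_simp
    rw [ht]
    linear_combination hrK
  · intro q hq'
    apply hq (q * b / r.den)
    rw [div_eq_iff hbK] at hq'
    push_cast
    rw [eq_div_iff hden]
    exact hq'

theorem glue_span (K : Type*) [Field K] [NumberField K]
    (h2 : Module.finrank ℚ K = 2) (s : K) (hs : ∀ q : ℚ, s ≠ (q : K)) (y : K) :
    ∃ a b : ℚ, y = (a : K) + (b : K) * s := by
  have hli : LinearIndependent ℚ ![(1 : K), s] := by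
    rw [LinearIndependent.pair_iff]
    intro u v huv
    have huv' : (u : K) + (v : K) * s = 0 := by
      have e1 : u • (1 : K) = (u : K) := by rw [Algebra.smul_def, mul_one]; rfl
      have e2 : v • s = (v : K) * s := by rw [Algebra.smul_def]; rfl
      rw [e1, e2] at huv
      exact huv
    by_cases hv : v = 0
    · subst hv
      refine ⟨?_, rfl⟩
      simpa using huv'
    · exfalso
      have hvK : (v : K) ≠ 0 := by exact_mod_cast hv
      apply hs (-u / v)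
      push_cast
      rw [eq_div_iff hvK]
      linear_combination huv'
  have htop := hli.span_eq_top_of_card_eq_finrank (by rw [h2]; simp)
  have hy : y ∈ Submodule.span ℚ (Set.range ![(1 : K), s]) := by rw [htop]; trivial
  simp only [Matrix.range_cons, Matrix.range_empty, Set.union_empty, Set.singleton_union] at hy
  obtain ⟨a, b, hab⟩ := Submodule.mem_span_pair.1 hy
  refine ⟨a, b, ?_⟩
  rw [← hab]
  have e1 : a • (1 : K) = (a : K) := by rw [Algebra.smul_def, mul_one]; rfl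
  have e2 : b • s = (b : K) * s := by rw [Algebra.smul_def]; rfl
  rw [e1, e2]

theorem glue_neg (K : Type*) [Field K] [NumberField K] [IsTotallyComplex K]
    (h2 : Module.finrank ℚ K = 2) (d : ℤ) (s : K) (hs2 : s ^ 2 = (d : K))
    (hs : ∀ q : ℚ, s ≠ (q : K)) : d < 0 := by
  by_contra hd
  push Not at hd
  obtain ⟨φ⟩ : Nonempty (K →+* ℂ) := inferInstance
  have hφs : (starRingEnd ℂ) (φ s) = φ s := by
    have h3 : (φ s) ^ 2 = ((d : ℝ) : ℂ) := by
      rw [← map_pow, hs2]; simp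
    have h4 : (φ s) ^ 2 = ((Real.sqrt d : ℝ) : ℂ) ^ 2 := by
      rw [h3, ← Complex.ofReal_pow, Real.sq_sqrt (by exact_mod_cast hd)]
    rcases sq_eq_sq_iff_eq_or_eq_neg.1 h4 with h | h
    · rw [h, Complex.conj_ofReal]
    · rw [h, map_neg, Complex.conj_ofReal]
  have hreal : ComplexEmbedding.IsReal φ := by
    rw [ComplexEmbedding.isReal_iff]
    ext y
    obtain ⟨a, b, rfl⟩ := glue_span K h2 s hs y
    rw [ComplexEmbedding.conjugate_coe_eq]
    simp only [map_add, map_mul, map_ratCast, hφs]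
  have h5 : (InfinitePlace.mk φ).IsReal := ⟨φ, hreal, rfl⟩
  have h6 : (InfinitePlace.mk φ).IsComplex := IsTotallyComplex.isComplex _
  exact (InfinitePlace.not_isReal_iff_isComplex.2 h6) h5

end root

section split

variable (K : Type*) [Field K] [NumberField K] (h2 : Module.finrank ℚ K = 2)
    (d : ℤ) (hd : Squarefree d) (hneg : d < 0) (s : K) (hs : s ^ 2 = (d : K))
    (S : 𝓞 K) (hSs : (S : K) = s)

omit [NumberField K] in
include hs hSs in
theorem glue_S2 : S ^ 2 = (d : 𝓞 K) := by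
  apply RingOfIntegers.ext
  change algebraMap (𝓞 K) K (S ^ 2) = algebraMap (𝓞 K) K (d : 𝓞 K)
  rw [map_pow, map_intCast]
  change (S : K) ^ 2 = d
  rw [hSs, hs]

include h2 hd hneg hs hSs in
/-- `p` divides `a + b S` in `𝓞 K` only if `p` divides `2 a` and `2 b` -/
theorem glue_coord (p a b : ℤ) (u : 𝓞 K) (h : (a : 𝓞 K) + (b : 𝓞 K) * S = (p : 𝓞 K) * u) :
    p ∣ 2 * a ∧ p ∣ 2 * b := by
  obtain ⟨a', w', h4, -, -⟩ := norm_form K h2 d hd hneg s hs u
  have h5 := congrArg (algebraMap (𝓞 K) K) h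
  rw [map_add, map_mul, map_mul, map_intCast, map_intCast, map_intCast] at h5
  have h5' : (a : K) + (b : K) * s = (p : K) * (u : K) := by
    rw [← hSs]
    exact h5
  have h6 : ((2 * a : ℚ) : K) + ((2 * b : ℚ) : K) * s =
      ((p * a' : ℚ) : K) + ((p * w' : ℚ) : K) * s := by
    push_cast
    linear_combination 2 * h5' + (p : K) * h4
  obtain ⟨h7, h8⟩ := conj_uniq K d hneg s hs h6
  refine ⟨⟨a', by exact_mod_cast h7⟩, ⟨w', by exact_mod_cast h8⟩⟩

include h2 hd hneg hs hSs in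
/-- odd primes for which the norm form is anisotropic are inert -/
theorem glue_inert (p : ℕ) (hp : p.Prime) (hp2 : p ≠ 2)
    (h : ∀ x y : ℤ, (p : ℤ) ∣ x ^ 2 - d * y ^ 2 → (p : ℤ) ∣ x ∧ (p : ℤ) ∣ y) :
    (Ideal.span {(p : 𝓞 K)}).IsPrime := by
  have hp0 : (p : 𝓞 K) ≠ 0 := by exact_mod_cast hp.ne_zero
  obtain ⟨k, hk⟩ : ∃ k : ℕ, p = 2 * k + 1 := by
    rcases hp.eq_two_or_odd' with h | h
    · exact absurd h hp2
    · obtain ⟨k, hk⟩ := h
      exact ⟨k, hk⟩
  have key : ∀ α : 𝓞 K, p ∣ Ideal.absNorm (Ideal.span {α}) → (p : 𝓞 K) ∣ α := by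
    intro α hα
    obtain ⟨a, w, h4, h5, -⟩ := norm_form K h2 d hd hneg s hs α
    obtain ⟨j, hj⟩ := hα
    have h6 : (p : ℤ) ∣ a ^ 2 - d * w ^ 2 := ⟨4 * j, by rw [h5, hj]; push_cast; ring⟩
    obtain ⟨⟨a', ha'⟩, ⟨w', hw'⟩⟩ := h a w h6
    have h7 : 2 * α = (p : 𝓞 K) * ((a' : 𝓞 K) + (w' : 𝓞 K) * S) := by
      apply RingOfIntegers.ext
      have e1 : ((2 * α : 𝓞 K) : K) = 2 * (α : K) := by
        change algebraMap (𝓞 K) K (2 * α) = 2 * algebraMap (𝓞 K) K α
        rw [map_mul, map_ofNat]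
      have e2 : (((p : 𝓞 K) * ((a' : 𝓞 K) + (w' : 𝓞 K) * S) : 𝓞 K) : K) =
          (p : K) * ((a' : K) + (w' : K) * s) := by
        change algebraMap (𝓞 K) K ((p : 𝓞 K) * ((a' : 𝓞 K) + (w' : 𝓞 K) * S)) = _
        rw [map_mul, map_natCast, map_add, map_mul, map_intCast, map_intCast, ← hSs]
      rw [e1, e2, h4, ha', hw']
      push_cast
      ring
    refine ⟨α - (k : 𝓞 K) * ((a' : 𝓞 K) + (w' : 𝓞 K) * S), ?_⟩
    have hk' : (p : 𝓞 K) = 2 * (k : 𝓞 K) + 1 := by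
      rw [hk]
      push_cast
      ring
    linear_combination (-(k : 𝓞 K)) * h7 + (-α) * hk'
  have hnorm : Ideal.absNorm (Ideal.span {(p : 𝓞 K)}) = p ^ 2 := by
    rw [Ideal.absNorm_span_singleton]
    have h3 : (Algebra.norm ℤ (p : 𝓞 K) : ℤ) = (p : ℤ) ^ 2 := by
      have h4 : ((Algebra.norm ℤ (p : 𝓞 K) : ℤ) : ℚ) = (((p : ℤ) ^ 2 : ℤ) : ℚ) := by
        rw [Algebra.coe_norm_int]
        have h5 : ((p : 𝓞 K) : K) = algebraMap ℚ K (p : ℚ) := by
          simp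
        rw [h5, Algebra.norm_algebraMap, h2]
        push_cast
        rfl
      exact_mod_cast h4
    rw [h3, Int.natAbs_pow, Int.natAbs_natCast]
  rw [Ideal.span_singleton_prime hp0]
  refine ⟨hp0, ?_, ?_⟩
  · intro hu
    rw [← Ideal.span_singleton_eq_top] at hu
    rw [hu, Ideal.absNorm_top] at hnorm
    have := hp.one_lt
    nlinarith
  · intro α β hαβ
    obtain ⟨γ, hγ⟩ := hαβ
    have h4 : Ideal.absNorm (Ideal.span {α}) * Ideal.absNorm (Ideal.span {β}) =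
        Ideal.absNorm (Ideal.span {(p : 𝓞 K)}) * Ideal.absNorm (Ideal.span {γ}) := by
      rw [← map_mul, ← map_mul, Ideal.span_singleton_mul_span_singleton,
        Ideal.span_singleton_mul_span_singleton, hγ]
    have h6 : p ∣ Ideal.absNorm (Ideal.span {α}) * Ideal.absNorm (Ideal.span {β}) := by
      rw [h4, hnorm]
      exact Dvd.dvd.mul_right (dvd_pow_self p two_ne_zero) _
    rcases (Nat.Prime.dvd_mul hp).1 h6 with h | h
    · exact Or.inl (key α h)
    · exact Or.inr (key β h)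

include h2 hd hneg hs hSs in
/-- odd primes for which `d` is a square are not inert -/
theorem glue_not_inert (p : ℕ) (hp : p.Prime) (hp2 : p ≠ 2) (r : ℤ) (hr : (p : ℤ) ∣ r ^ 2 - d) :
    ¬ (Ideal.span {(p : 𝓞 K)}).IsPrime := by
  intro hP
  have hp0 : (p : 𝓞 K) ≠ 0 := by exact_mod_cast hp.ne_zero
  obtain ⟨m, hm⟩ := hr
  have hS2 := glue_S2 K d s hs S hSs
  have h3 : (S - (r : 𝓞 K)) * (S + (r : 𝓞 K)) ∈ Ideal.span {(p : 𝓞 K)} := by
    rw [Ideal.mem_span_singleton]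
    refine ⟨-(m : 𝓞 K), ?_⟩
    have hm' : (r : 𝓞 K) ^ 2 - (d : 𝓞 K) = (p : 𝓞 K) * (m : 𝓞 K) := by
      exact_mod_cast congrArg (fun y : ℤ => (y : 𝓞 K)) hm
    linear_combination hS2 - hm'
  have hnot : ∀ e : ℤ, ¬ ((e : 𝓞 K) + ((1 : ℤ) : 𝓞 K) * S ∈ Ideal.span {(p : 𝓞 K)}) := by
    intro e he
    rw [Ideal.mem_span_singleton] at he
    obtain ⟨u, hu⟩ := he
    have h4 := (glue_coord K h2 d hd hneg s hs S hSs p e 1 u (by rw [hu]; push_cast; rfl)).2
    have h5 : (p : ℤ) ∣ 2 := by simpa using h4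
    have h6 : p ∣ 2 := by exact_mod_cast h5
    exact hp2 ((Nat.prime_dvd_prime_iff_eq hp Nat.prime_two).1 h6)
  rcases hP.mem_or_mem h3 with h | h
  · apply hnot (-r)
    convert h using 1
    push_cast
    ring
  · apply hnot r
    convert h using 1
    push_cast
    ring

include h2 hd hneg hs hSs in
/-- odd primes for which `d` is a nonzero square split -/
theorem glue_split (p : ℕ) (hp : p.Prime) (r : ℤ) (hr : (p : ℤ) ∣ r ^ 2 - d)
    (hr2 : ¬ (p : ℤ) ∣ 2 * r) :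
    ∃ P Q : Ideal (𝓞 K), P ≠ Q ∧ P.IsPrime ∧ Q.IsPrime ∧ (p : 𝓞 K) ∈ P ∧ (p : 𝓞 K) ∈ Q := by
  have hS2 := glue_S2 K d s hs S hSs
  obtain ⟨m, hm⟩ := hr
  have hpp : Prime (p : ℤ) := Nat.prime_iff_prime_int.mp hp
  have hprop : ∀ e : ℤ, e ^ 2 = 1 →
      (Ideal.span {(p : 𝓞 K), (r : 𝓞 K) - (e : 𝓞 K) * S}) ≠ ⊤ := by
    intro e he htop
    have h1 : (1 : 𝓞 K) ∈ Ideal.span {(p : 𝓞 K), (r : 𝓞 K) - (e : 𝓞 K) * S} := by
      rw [htop]; trivial
    obtain ⟨u, v, huv⟩ := Ideal.mem_span_pair.1 h1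
    have h3 : (r : 𝓞 K) + (e : 𝓞 K) * S =
        ((p : ℤ) : 𝓞 K) * (u * ((r : 𝓞 K) + (e : 𝓞 K) * S) + v * (m : 𝓞 K)) := by
      have hm' : (r : 𝓞 K) ^ 2 - (d : 𝓞 K) = (p : 𝓞 K) * (m : 𝓞 K) := by
        exact_mod_cast congrArg (fun y : ℤ => (y : 𝓞 K)) hm
      have he' : (e : 𝓞 K) ^ 2 = 1 := by exact_mod_cast congrArg (fun y : ℤ => (y : 𝓞 K)) he
      rw [Int.cast_natCast]
      linear_combination (-((r : 𝓞 K) + (e : 𝓞 K) * S)) * huv + v * hm' +
        (- v * (e : 𝓞 K) ^ 2) * hS2 + (- v * (d : 𝓞 K)) * he'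
    have h8 := (glue_coord K h2 d hd hneg s hs S hSs p r e _ h3).1
    exact hr2 h8
  obtain ⟨M1, hM1, hJ1⟩ := Ideal.exists_le_maximal _ (hprop 1 (by norm_num))
  obtain ⟨M2, hM2, hJ2⟩ := Ideal.exists_le_maximal _ (hprop (-1) (by norm_num))
  have a1 : (p : 𝓞 K) ∈ M1 := hJ1 (Ideal.subset_span (by simp))
  have a2 : (p : 𝓞 K) ∈ M2 := hJ2 (Ideal.subset_span (by simp))
  have b1 : (r : 𝓞 K) - ((1 : ℤ) : 𝓞 K) * S ∈ M1 := hJ1 (Ideal.subset_span (by simp))
  have b2 : (r : 𝓞 K) - ((-1 : ℤ) : 𝓞 K) * S ∈ M2 := hJ2 (Ideal.subset_span (by simp))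
  refine ⟨M1, M2, ?_, hM1.isPrime, hM2.isPrime, a1, a2⟩
  intro heq
  rw [← heq] at b2
  have c1 : ((2 * r : ℤ) : 𝓞 K) ∈ M1 := by
    have := M1.add_mem b1 b2
    have e : (r : 𝓞 K) - ((1 : ℤ) : 𝓞 K) * S + ((r : 𝓞 K) - ((-1 : ℤ) : 𝓞 K) * S) =
        ((2 * r : ℤ) : 𝓞 K) := by push_cast; ring
    rwa [e] at this
  have hco : IsCoprime (p : ℤ) (2 * r) := (hpp.coprime_iff_not_dvd).2 hr2
  obtain ⟨x, y, hxy⟩ := hco
  have c2 : (1 : 𝓞 K) ∈ M1 := by
    have e : (1 : 𝓞 K) = (x : 𝓞 K) * (p : 𝓞 K) + (y : 𝓞 K) * ((2 * r : ℤ) : 𝓞 K) := by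
      have := congrArg (fun z : ℤ => (z : 𝓞 K)) hxy
      push_cast at this ⊢
      exact this.symm
    rw [e]
    exact M1.add_mem (M1.mul_mem_left _ a1) (M1.mul_mem_left _ c1)
  exact hM1.ne_top ((Ideal.eq_top_iff_one _).2 c2)

/-- if `(p)` is prime there is only one prime above `p` -/
theorem glue_uniq_inert (p : ℕ) (hp : p.Prime) (h : (Ideal.span {(p : 𝓞 K)}).IsPrime)
    (P : Ideal (𝓞 K)) (hP : P.IsPrime) (hpP : (p : 𝓞 K) ∈ P) : P = Ideal.span {(p : 𝓞 K)} := by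
  have hp0 : (p : 𝓞 K) ≠ 0 := by exact_mod_cast hp.ne_zero
  have h0 : Ideal.span {(p : 𝓞 K)} ≠ ⊥ := by
    rw [Ne, Ideal.span_singleton_eq_bot]
    exact hp0
  have hmax : (Ideal.span {(p : 𝓞 K)}).IsMaximal := h.isMaximal h0
  exact (hmax.eq_of_le hP.ne_top ((Ideal.span_singleton_le_iff_mem _).2 hpP)).symm

include h2 in
/-- if `p` ramifies there is only one prime above `p` -/
theorem glue_uniq_ram (p : ℕ) (hp : p.Prime) (M : Ideal (𝓞 K))
    (hM : M ^ 2 = Ideal.span {(p : 𝓞 K)})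
    (P : Ideal (𝓞 K)) (hP : P.IsPrime) (hpP : (p : 𝓞 K) ∈ P) : P = M := by
  have hnorm : Ideal.absNorm M = p := by
    have := ram_norm K h2 (p : ℤ) M (by rw [hM]; push_cast; rfl)
    rw [this, Int.natAbs_natCast]
  have hMp : M.IsPrime := Ideal.isPrime_of_irreducible_absNorm (by rw [hnorm]; exact hp)
  have hM0 : M ≠ ⊥ := by
    rintro rfl
    rw [Ideal.absNorm_bot] at hnorm
    exact hp.ne_zero hnorm.symm
  have hle : M ≤ P := by
    have h3 : M ^ 2 ≤ P := by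
      rw [hM]
      exact (Ideal.span_singleton_le_iff_mem _).2 hpP
    exact hP.le_of_pow_le h3
  exact ((hMp.isMaximal hM0).eq_of_le hP.ne_top hle).symm

end split

theorem glue_three (K : Type*) [Field K] [NumberField K] (h2 : Module.finrank ℚ K = 2)
    (n : ℕ) (hn : Squarefree n) (s : K) (hs : s ^ 2 = -(n : K)) :
    (Ideal.span {(3 : 𝓞 K)}).IsPrime ↔ n % 3 = 1 := by
  have hn0 : n ≠ 0 := hn.ne_zero
  have hd : Squarefree (-(n : ℤ)) := by
    rw [← Int.squarefree_natAbs, Int.natAbs_neg, Int.natAbs_natCast]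
    exact hn
  have hneg : (-(n : ℤ)) < 0 := by
    have : 0 < n := Nat.pos_of_ne_zero hn0
    omega
  have hs' : s ^ 2 = ((-(n : ℤ) : ℤ) : K) := by
    rw [hs]
    push_cast
    ring
  have hsint : IsIntegral ℤ s := by
    refine ⟨Polynomial.X ^ 2 + Polynomial.C (n : ℤ), by monicity!, ?_⟩
    rw [Polynomial.eval₂_add, Polynomial.eval₂_pow, Polynomial.eval₂_X, Polynomial.eval₂_C,
      eq_intCast, hs]
    push_cast
    ring
  have e3 : (3 : 𝓞 K) = ((3 : ℕ) : 𝓞 K) := by norm_num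
  rw [e3]
  constructor
  · intro h
    by_contra hne
    have h5 : ∃ r : ℤ, ((3 : ℕ) : ℤ) ∣ r ^ 2 - (-(n : ℤ)) := by
      have : n % 3 = 0 ∨ n % 3 = 2 := by omega
      rcases this with h | h
      · exact ⟨0, by push_cast; omega⟩
      · exact ⟨1, by push_cast; omega⟩
    obtain ⟨r, hr⟩ := h5
    exact glue_not_inert K h2 (-(n : ℤ)) hd hneg s hs' ⟨s, hsint⟩ rfl 3 Nat.prime_three
      (by norm_num) r hr h
  · intro h
    apply glue_inert K h2 (-(n : ℤ)) hd hneg s hs' ⟨s, hsint⟩ rfl 3 Nat.prime_three (by norm_num)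
    intro x y hxy
    obtain ⟨e, he⟩ : ∃ e : ℤ, (n : ℤ) = 3 * e + 1 := ⟨(n : ℤ) / 3, by omega⟩
    have h8 : (x ^ 2 + y ^ 2) % 3 = 0 := by
      obtain ⟨k, hk⟩ := hxy
      have : x ^ 2 + y ^ 2 = 3 * (k - e * y ^ 2) := by
        rw [he] at hk
        push_cast at hk
        linear_combination hk
      rw [this]
      omega
    have ha : x % 3 = 0 ∨ x % 3 = 1 ∨ x % 3 = 2 := by omega
    have hw : y % 3 = 0 ∨ y % 3 = 1 ∨ y % 3 = 2 := by omega
    rcases ha with ha | ha | ha <;> rcases hw with hw | hw | hw <;>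
      simp [pow_two, Int.add_emod, Int.mul_emod, ha, hw] at h8 <;> push_cast <;> omega

theorem glue_five (K : Type*) [Field K] [NumberField K] (h2 : Module.finrank ℚ K = 2)
    (n : ℕ) (hn : Squarefree n) (s : K) (hs : s ^ 2 = -(n : K)) :
    (∃ P Q : Ideal (𝓞 K), P ≠ Q ∧ P.IsPrime ∧ Q.IsPrime ∧ (5 : 𝓞 K) ∈ P ∧ (5 : 𝓞 K) ∈ Q) ↔
      n % 5 = 1 ∨ n % 5 = 4 := by
  have hn0 : n ≠ 0 := hn.ne_zero
  have hd : Squarefree (-(n : ℤ)) := by
    rw [← Int.squarefree_natAbs, Int.natAbs_neg, Int.natAbs_natCast]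
    exact hn
  have hneg : (-(n : ℤ)) < 0 := by
    have : 0 < n := Nat.pos_of_ne_zero hn0
    omega
  have hs' : s ^ 2 = ((-(n : ℤ) : ℤ) : K) := by
    rw [hs]
    push_cast
    ring
  have hsint : IsIntegral ℤ s := by
    refine ⟨Polynomial.X ^ 2 + Polynomial.C (n : ℤ), by monicity!, ?_⟩
    rw [Polynomial.eval₂_add, Polynomial.eval₂_pow, Polynomial.eval₂_X, Polynomial.eval₂_C,
      eq_intCast, hs]
    push_cast
    ring
  have e5 : (5 : 𝓞 K) = ((5 : ℕ) : 𝓞 K) := by norm_num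
  rw [e5]
  constructor
  · rintro ⟨P, Q, hPQ, hP, hQ, h5P, h5Q⟩
    by_contra hcon
    apply hPQ
    by_cases h0 : n % 5 = 0
    · have hcm : CondM (-(n : ℤ)) 5 := by
        refine ⟨by norm_num, ?_, ?_, fun h => absurd h (by norm_num)⟩
        · have : Squarefree ((5 : ℕ) : ℤ) :=
            Int.squarefree_natCast.2 (Nat.Prime.prime (by norm_num)).squarefree
          exact_mod_cast this
        · intro q hq _ hq5
          have h6 : q ∣ 5 := by exact_mod_cast hq5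
          have h7 : q = 5 := (Nat.prime_dvd_prime_iff_eq hq (by norm_num)).1 h6
          rw [h7]
          push_cast
          omega
      obtain ⟨M, hM, -⟩ := exists_ram_ideal K h2 (-(n : ℤ)) hd hneg s hs' 5 hcm
      have hM' : M ^ 2 = Ideal.span {((5 : ℕ) : 𝓞 K)} := by
        rw [hM]
        push_cast
        rfl
      rw [glue_uniq_ram K h2 5 (by norm_num) M hM' P hP h5P,
        glue_uniq_ram K h2 5 (by norm_num) M hM' Q hQ h5Q]
    · have hpr : (Ideal.span {((5 : ℕ) : 𝓞 K)}).IsPrime := by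
        apply glue_inert K h2 (-(n : ℤ)) hd hneg s hs' ⟨s, hsint⟩ rfl 5 (by norm_num) (by norm_num)
        intro x y hxy
        obtain ⟨e, he⟩ : ∃ e : ℤ, (n : ℤ) = 5 * e + (n : ℤ) % 5 := ⟨(n : ℤ) / 5, by omega⟩
        have hn5 : (n : ℤ) % 5 = 2 ∨ (n : ℤ) % 5 = 3 := by omega
        have ha : x % 5 = 0 ∨ x % 5 = 1 ∨ x % 5 = 2 ∨ x % 5 = 3 ∨ x % 5 = 4 := by omega
        have hw : y % 5 = 0 ∨ y % 5 = 1 ∨ y % 5 = 2 ∨ y % 5 = 3 ∨ y % 5 = 4 := by omega
        have h8 : (x ^ 2 + (n : ℤ) * y ^ 2) % 5 = 0 := by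
          push_cast at hxy
          have : x ^ 2 + (n : ℤ) * y ^ 2 = x ^ 2 - -(n : ℤ) * y ^ 2 := by ring
          rw [this]
          omega
        rcases hn5 with hn5 | hn5 <;> rcases ha with ha | ha | ha | ha | ha <;>
          rcases hw with hw | hw | hw | hw | hw <;>
          simp [pow_two, Int.add_emod, Int.mul_emod, ha, hw, hn5] at h8 <;> push_cast <;> omega
      rw [glue_uniq_inert K 5 (by norm_num) hpr P hP h5P,
        glue_uniq_inert K 5 (by norm_num) hpr Q hQ h5Q]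
  · intro h
    rcases h with h | h
    · exact glue_split K h2 (-(n : ℤ)) hd hneg s hs' ⟨s, hsint⟩ rfl 5 (by norm_num) 2
        (by push_cast; omega) (by norm_num)
    · exact glue_split K h2 (-(n : ℤ)) hd hneg s hs' ⟨s, hsint⟩ rfl 5 (by norm_num) 1
        (by push_cast; omega) (by norm_num)

theorem glue_ram (K : Type*) [Field K] [NumberField K] (h2 : Module.finrank ℚ K = 2)
    (n : ℕ) (hn : Squarefree n) (s : K) (hs : s ^ 2 = -(n : K)) (p : ℕ) (hp : p.Prime) :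
    (∃ P : Ideal (𝓞 K), P ^ 2 = Ideal.span {(p : 𝓞 K)}) ↔ p ∣ n ∨ (p = 2 ∧ n % 4 ≠ 3) := by
  have hn0 : n ≠ 0 := hn.ne_zero
  have hd : Squarefree (-(n : ℤ)) := by
    rw [← Int.squarefree_natAbs, Int.natAbs_neg, Int.natAbs_natCast]
    exact hn
  have hneg : (-(n : ℤ)) < 0 := by
    have : 0 < n := Nat.pos_of_ne_zero hn0
    omega
  have hs' : s ^ 2 = ((-(n : ℤ) : ℤ) : K) := by
    rw [hs]
    push_cast
    ring
  have hsqp : Squarefree (p : ℤ) := Int.squarefree_natCast.2 hp.prime.squarefree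
  constructor
  · rintro ⟨P, hP⟩
    have hP' : P ^ 2 = Ideal.span {((p : ℤ) : 𝓞 K)} := by
      rw [hP]
      push_cast
      rfl
    by_cases hp2 : p = 2
    · right
      refine ⟨hp2, ?_⟩
      have := amb_two K h2 (-(n : ℤ)) hd hneg s hs' p hsqp P hP' (by rw [hp2]; norm_num)
      omega
    · left
      have := amb_odd K h2 (-(n : ℤ)) hd hneg s hs' p hsqp P hP' p hp hp2 dvd_rfl
      rw [Int.dvd_neg] at this
      exact_mod_cast this
  · intro h
    have hcm : CondM (-(n : ℤ)) p := by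
      refine ⟨by exact_mod_cast hp.pos, hsqp, ?_, ?_⟩
      · intro q hq hq2 hqp
        have h6 : q ∣ p := by exact_mod_cast hqp
        have h7 : q = p := (Nat.prime_dvd_prime_iff_eq hq hp).1 h6
        rw [h7, Int.dvd_neg]
        rcases h with h | ⟨h, -⟩
        · exact_mod_cast h
        · exact absurd (h7.trans h) hq2
      · intro h2p
        have h6 : 2 ∣ p := by exact_mod_cast h2p
        have h7 : 2 = p := (Nat.prime_dvd_prime_iff_eq Nat.prime_two hp).1 h6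
        rcases h with h | ⟨-, h⟩
        · rw [← h7] at h
          omega
        · omega
    obtain ⟨M, hM, -⟩ := exists_ram_ideal K h2 (-(n : ℤ)) hd hneg s hs' p hcm
    refine ⟨M, ?_⟩
    rw [hM]
    push_cast
    rfl

theorem glue_norm (K : Type*) [Field K] [NumberField K] (h2 : Module.finrank ℚ K = 2)
    (n : ℕ) (hn : Squarefree n) (s : K) (hs : s ^ 2 = -(n : K)) (c : ℕ) :
    (∃ x : K, Algebra.norm ℚ x = c) ↔
      ∃ x y z : ℤ, z ≠ 0 ∧ (c : ℤ) * z ^ 2 = x ^ 2 + n * y ^ 2 := by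
  have hn0 : n ≠ 0 := hn.ne_zero
  have hd : Squarefree (-(n : ℤ)) := by
    rw [← Int.squarefree_natAbs, Int.natAbs_neg, Int.natAbs_natCast]
    exact hn
  have hneg : (-(n : ℤ)) < 0 := by
    have : 0 < n := Nat.pos_of_ne_zero hn0
    omega
  have hs' : s ^ 2 = ((-(n : ℤ) : ℤ) : K) := by
    rw [hs]
    push_cast
    ring
  obtain ⟨σ, hσ, -, hab⟩ := exists_conj K h2 (-(n : ℤ)) hd hneg s hs'
  constructor
  · rintro ⟨x, hx⟩
    obtain ⟨a, b, rfl⟩ := hab x
    rw [conj_norm K h2 (-(n : ℤ)) hneg s hs' σ hσ a b] at hx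
    refine ⟨a.num * b.den, b.num * a.den, a.den * b.den, ?_, ?_⟩
    · exact mul_ne_zero (by exact_mod_cast a.den_nz) (by exact_mod_cast b.den_nz)
    · have ha : (a.den : ℚ) ≠ 0 := by exact_mod_cast a.den_nz
      have hb : (b.den : ℚ) ≠ 0 := by exact_mod_cast b.den_nz
      have h3 : a * (a.den : ℚ) = a.num := Rat.mul_den_eq_num a
      have h4 : b * (b.den : ℚ) = b.num := Rat.mul_den_eq_num b
      have h5 : (c : ℚ) * ((a.den : ℚ) * (b.den : ℚ)) ^ 2 =
          ((a.num : ℚ) * (b.den : ℚ)) ^ 2 + n * ((b.num : ℚ) * (a.den : ℚ)) ^ 2 := by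
        rw [← h3, ← h4, ← hx]
        push_cast
        ring
      exact_mod_cast h5
  · rintro ⟨x, y, z, hz, h⟩
    have hz' : (z : ℚ) ≠ 0 := by exact_mod_cast hz
    refine ⟨((x / z : ℚ) : K) + ((y / z : ℚ) : K) * s, ?_⟩
    rw [conj_norm K h2 (-(n : ℤ)) hneg s hs' σ hσ]
    have h' : (c : ℚ) * z ^ 2 = x ^ 2 + n * y ^ 2 := by exact_mod_cast h
    push_cast
    field_simp
    linear_combination -h'

theorem glue_Phi (K : Type*) [Field K] [NumberField K] (h2 : Module.finrank ℚ K = 2)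
    (n : ℕ) (hn : Squarefree n) (s : K) (hs : s ^ 2 = -(n : K)) : PhiK K = Phi n := by
  ext c
  unfold PhiK Phi
  simp only [Set.mem_ofPred_eq]
  rw [glue_norm K h2 n hn s hs, glue_three K h2 n hn s hs]
  refine and_congr_right fun _ => and_congr_left fun _ => ?_
  refine forall_congr' fun p => ?_
  constructor
  · intro h hp hpc
    rcases h hp hpc with h | h
    · rcases (glue_ram K h2 n hn s hs p hp).1 h with h | h
      · exact Or.inl h
      · exact Or.inr (Or.inl h)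
    · exact Or.inr (Or.inr h)
  · intro h hp hpc
    rcases h hp hpc with h | h | h
    · exact Or.inl ((glue_ram K h2 n hn s hs p hp).2 (Or.inl h))
    · exact Or.inl ((glue_ram K h2 n hn s hs p hp).2 (Or.inr h))
    · exact Or.inr h

/-- the intrinsic form of the hypotheses -/
theorem glue (K : Type*) [Field K] [NumberField K] [IsTotallyComplex K]
    (h2 : Module.finrank ℚ K = 2) :
    ∃ (n : ℕ) (s : K), Squarefree n ∧ s ^ 2 = -(n : K) ∧ PhiK K = Phi n ∧
      ((Ideal.span {(3 : 𝓞 K)}).IsPrime ↔ n % 3 = 1) ∧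
      ((∃ P Q : Ideal (𝓞 K), P ≠ Q ∧ P.IsPrime ∧ Q.IsPrime ∧ (5 : 𝓞 K) ∈ P ∧ (5 : 𝓞 K) ∈ Q) ↔
        n % 5 = 1 ∨ n % 5 = 4) := by
  obtain ⟨d, s, hd, hs2, hs⟩ := glue_sqf K h2
  have hneg := glue_neg K h2 d s hs2 hs
  have hnd : ((d.natAbs : ℕ) : ℤ) = -d := by omega
  have hn : Squarefree d.natAbs := Int.squarefree_natAbs.2 hd
  have hs' : s ^ 2 = -((d.natAbs : ℕ) : K) := by
    rw [hs2]
    have : ((d.natAbs : ℕ) : K) = ((d.natAbs : ℤ) : K) := (Int.cast_natCast d.natAbs).symm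
    rw [this, hnd]
    push_cast
    ring
  exact ⟨d.natAbs, s, hn, hs', glue_Phi K h2 d.natAbs hn s hs', glue_three K h2 d.natAbs hn s hs',
    glue_five K h2 d.natAbs hn s hs'⟩

end X15B
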