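import Pool.Agent.Lib.MP_87c685_nt_X15B.PsiLe
import Pool.Agent.Lib.MP_87c685_nt_X15B.CardF
import Pool.Agent.Lib.MP_87c685_nt_X15B.PhiLe
import Pool.Agent.Lib.MP_87c685_nt_X15.Classes

open NumberField WeierstrassCurve Finset

namespace X15B

open X15

private theorem pc_natAbs_dvd {n : ℕ} {b : ℤ} (hb : b ∈ Psi n) :
    b.natAbs ∣ 6 * n := by
  have hsq : Squarefree b.natAbs := Int.squarefree_natAbs.2 hb.1
  rw [← Nat.prod_primeFactors_of_squarefree hsq]
  apply Finset.prod_primes_dvd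
  · intro p hp
    exact Nat.prime_iff.1 (Nat.prime_of_mem_primeFactors hp)
  · intro p hp
    have hp1 := Nat.prime_of_mem_primeFactors hp
    have hp2 : (p : ℤ) ∣ b := Int.natCast_dvd.2 (Nat.dvd_of_mem_primeFactors hp)
    rcases hb.2.1 p hp1 hp2 with h | ⟨rfl, -⟩ | ⟨rfl, -⟩
    · exact h.mul_left 6
    · exact Dvd.dvd.mul_right (by norm_num) n
    · exact Dvd.dvd.mul_right (by norm_num) n

/-- L5: the size of `Ψ_n`. -/
theorem Psi_finite (n : ℕ) (hn : Squarefree n) : (Psi n).Finite := by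
  have hn0 : n ≠ 0 := hn.ne_zero
  apply Set.Finite.subset (Set.finite_Icc (-(6 * n : ℤ)) (6 * n))
  intro b hb
  have h1 := Nat.le_of_dvd (by omega) (pc_natAbs_dvd hb)
  rw [Set.mem_Icc]
  omega

private theorem pc_bt_sq (b d : ℤ) (hb : Squarefree b) (hd : Squarefree d)
    (h : IsSquare (b * d)) : b = d := by
  obtain ⟨f, hf⟩ := h
  have hb0 : b ≠ 0 := hb.ne_zero
  have hd0 : d ≠ 0 := hd.ne_zero
  have h1 : b ∣ f := by
    rw [← hb.dvd_pow_iff_dvd (two_ne_zero), pow_two, ← hf]
    exact dvd_mul_right _ _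
  have h2 : d ∣ f := by
    rw [← hd.dvd_pow_iff_dvd (two_ne_zero), pow_two, ← hf]
    exact dvd_mul_left _ _
  have h3 : b ∣ d := by
    have : b * b ∣ b * d := by
      rw [hf]
      exact mul_dvd_mul h1 h1
    exact (mul_dvd_mul_iff_left hb0).1 this
  have h4 : d ∣ b := by
    have : d * d ∣ b * d := by
      rw [hf]
      exact mul_dvd_mul h2 h2
    exact (mul_dvd_mul_iff_right hd0).1 this
  rcases Int.associated_iff.1 (associated_of_dvd_dvd h3 h4) with h5 | h5
  · exact h5
  · exfalso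
    rw [h5] at hf
    have h6 : 0 < d * d := mul_self_pos.2 hd0
    nlinarith [mul_self_nonneg f]

/-- a squarefree integer which is a square in `ℚ_2` is `1` modulo `8` -/
private theorem pc_mod_eight {b : ℤ} (hb : Squarefree b) (h : Sq 2 b) : b % 8 = 1 := by
  have hodd : b % 2 = 1 := by
    by_contra hcon
    have h2 : ((2 : ℕ) : ℤ) ∣ b := by
      push_cast
      omega
    have h3 := even_valuation _ h
    have h4 : (((b : ℚ)) : ℚ_[2]) = (b : ℚ_[2]) := by push_cast; rfl
    rw [h4, cls_val hb h2] at h3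
    exact absurd h3 (by decide)
  exact (sq_two_iff b hodd).1 h

/-- a squarefree integer is determined by its sign class and its set of prime factors -/
private theorem pc_abs {b b' : ℤ} (hb : Squarefree b) (hb' : Squarefree b')
    (h4 : b % 4 = 1) (h4' : b' % 4 = 1)
    (h : b.natAbs.primeFactors = b'.natAbs.primeFactors) : b = b' := by
  have h1 : b.natAbs = b'.natAbs := by
    rw [← Nat.prod_primeFactors_of_squarefree (Int.squarefree_natAbs.2 hb),
      ← Nat.prod_primeFactors_of_squarefree (Int.squarefree_natAbs.2 hb'), h]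
  rcases Int.natAbs_eq_natAbs_iff.1 h1 with h2 | h2
  · exact h2
  · omega

/-- the dual element -/
private theorem pc_dual {n : ℕ} (hn : Squarefree n) (hsign : n % 3 = 1 ↔ n % 5 = 1 ∨ n % 5 = 4)
    (h4 : n % 4 ≠ 3) {b : ℤ} (hb : b ∈ Psi n) (h2 : ¬ Sq 2 b) :
    ∃ b' : ℤ, ∃ z : ℚ, b' ∈ Psi n ∧ Sq 2 b' ∧ z ≠ 0 ∧ -(n : ℚ) * b = b' * z ^ 2 := by
  have hn0 : (n : ℚ) ≠ 0 := by exact_mod_cast hn.ne_zero
  have hb0 : (b : ℚ) ≠ 0 := by exact_mod_cast hb.1.ne_zero
  obtain ⟨b', z, hsq, hz, hbz⟩ := exists_sqfree (-(n : ℚ) * b) (mul_ne_zero (neg_ne_zero.2 hn0) hb0)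
  have hb'0 : (b' : ℚ) ≠ 0 := by exact_mod_cast hsq.ne_zero
  obtain ⟨hb1, hb2, hb3, hb4, hb5, hb6⟩ := hb
  have key1 : ∀ (q : ℕ) [Fact q.Prime], Sq q (b * (-(n : ℚ))) → Sq q b' := by
    intro q _ h
    rw [mul_comm, hbz] at h
    exact (sq_mul_sq_iff _ z hz).1 h
  have key2 : ∀ (q : ℕ) [Fact q.Prime], Sq q b → Sq q (b' * (-(n : ℚ))) := by
    intro q _ h
    have h1 : Sq q ((b' * (-(n : ℚ))) * z ^ 2) := by
      have h3 : (b' * (-(n : ℚ))) * z ^ 2 = b * (n : ℚ) ^ 2 := by
        linear_combination (n : ℚ) * hbz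
      rw [h3]
      exact h.mul (Sq.sq _)
    exact (sq_mul_sq_iff _ z hz).1 h1
  have hSq2 : Sq 2 b' := by
    rcases hb5 h4 with h | h
    · exact absurd h h2
    · exact key1 2 h
  refine ⟨b', z, ⟨hsq, ?_, fun h => absurd h h4, ?_, fun _ => Or.inl hSq2, ?_⟩, hSq2, hz, hbz⟩
  · intro p hp hpb'
    have : Fact p.Prime := ⟨hp⟩
    by_cases hpn : p ∣ n
    · exact Or.inl hpn
    by_cases hpb : (p : ℤ) ∣ b
    · exact hb2 p hp hpb
    exfalso
    have h1 := cls_val_sq (z := z) hsq hz hpb'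
    rw [← hbz] at h1
    apply h1
    have h3 : ((-(n : ℚ) * b : ℚ) : ℚ_[p]) = ((-(n : ℤ) * b : ℤ) : ℚ_[p]) := by
      push_cast
      ring
    rw [h3, Padic.valuation_intCast]
    have h5 : ¬ (p : ℤ) ∣ (-(n : ℤ) * b) := by
      intro h
      rcases (Nat.prime_iff_prime_int.1 hp).dvd_or_dvd h with h | h
      · exact hpn (Int.natCast_dvd_natCast.1 ((dvd_neg).1 h))
      · exact hpb h
    rw [padicValInt.eq_zero_of_not_dvd h5]
    exact ⟨0, rfl⟩
  · intro q _ hq2 hqn
    rcases hb4 q hq2 hqn with h | h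
    · exact Or.inr (key2 q h)
    · exact Or.inl (key1 q h)
  · intro h3
    have h5 := hb6 h3
    have h6 : Sq 5 (-(n : ℚ)) := by
      have h7 : Sq 5 ((-(n : ℤ) : ℤ) : ℚ) := by
        rw [sq_int_iff (by norm_num)]
        · rcases hsign.1 h3 with h8 | h8
          · have h9 : ((-(n : ℤ) : ℤ) : ZMod 5) = 4 := by
              have : ((-(n : ℤ) : ℤ) : ZMod 5) = ((4 : ℤ) : ZMod 5) := by
                rw [ZMod.intCast_eq_intCast_iff]
                show (-(n : ℤ)) % 5 = 4 % 5
                omega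
              rw [this]
              rfl
            rw [h9]
            exact ⟨2, by decide⟩
          · have h9 : ((-(n : ℤ) : ℤ) : ZMod 5) = 1 := by
              have : ((-(n : ℤ) : ℤ) : ZMod 5) = ((1 : ℤ) : ZMod 5) := by
                rw [ZMod.intCast_eq_intCast_iff]
                show (-(n : ℤ)) % 5 = 1 % 5
                omega
              rw [this]
              rfl
            rw [h9]
            exact ⟨1, by decide⟩
        · intro h
          push_cast at h
          rcases hsign.1 h3 with h8 | h8 <;> omega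
      push_cast at h7
      exact h7
    exact key1 5 (h5.mul h6)

theorem card_Psi_le_F (n : ℕ) (hn : Squarefree n) (hsign : n % 3 = 1 ↔ n % 5 = 1 ∨ n % 5 = 4) :
    Nat.card (Psi n) ≤ (if n % 4 = 3 then 1 else 2) * (PsiF n).card := by
  classical
  by_cases h4 : n % 4 = 3
  · rw [if_pos h4, one_mul]
    have hmem : ∀ b ∈ Psi n, b.natAbs.primeFactors ∈ PsiF n := by
      intro b hb
      exact primeFactors_mem_PsiF n hn hsign b hb (hb.2.2.1 h4) (fun h => absurd h4 h)
    have h1 := Nat.card_le_card_of_injective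
      (fun b : Psi n => (⟨(b : ℤ).natAbs.primeFactors, hmem b b.2⟩ : PsiF n)) (by
        intro b b' h
        have h2 : (b : ℤ).natAbs.primeFactors = (b' : ℤ).natAbs.primeFactors :=
          congrArg Subtype.val h
        exact Subtype.ext (pc_abs b.2.1 b'.2.1 (b.2.2.2.1 h4) (b'.2.2.2.1 h4) h2))
    rw [Nat.card_eq_fintype_card (α := PsiF n), Fintype.card_coe] at h1
    exact h1
  · rw [if_neg h4]
    have hdual : ∀ b : Psi n, ∃ c : ℤ, c ∈ Psi n ∧ Sq 2 c ∧
        (if Sq 2 ((b : ℤ) : ℚ) then c = b else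
          ∃ z : ℚ, z ≠ 0 ∧ -(n : ℚ) * (b : ℤ) = c * z ^ 2) := by
      intro b
      by_cases h : Sq 2 ((b : ℤ) : ℚ)
      · exact ⟨b, b.2, h, by rw [if_pos h]⟩
      · obtain ⟨c, z, hc1, hc2, hz, hc3⟩ := pc_dual hn hsign h4 b.2 h
        exact ⟨c, hc1, hc2, by rw [if_neg h]; exact ⟨z, hz, hc3⟩⟩
    choose c hc1 hc2 hc3 using hdual
    have hc8 : ∀ b, c b % 8 = 1 := fun b => pc_mod_eight (hc1 b).1 (hc2 b)
    have hmem : ∀ b, (c b).natAbs.primeFactors ∈ PsiF n := by
      intro b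
      have := hc8 b
      exact primeFactors_mem_PsiF n hn hsign (c b) (hc1 b) (by omega) (fun _ => this)
    have h1 := Nat.card_le_card_of_injective
      (fun b : Psi n => ((decide (Sq 2 ((b : ℤ) : ℚ)),
        (⟨(c b).natAbs.primeFactors, hmem b⟩ : PsiF n)) : Bool × PsiF n)) (by
        intro b b' h
        have e1 := congrArg Prod.fst h
        have e2 : (c b).natAbs.primeFactors = (c b').natAbs.primeFactors :=
          congrArg Subtype.val (congrArg Prod.snd h)
        have g1 := hc8 b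
        have g2 := hc8 b'
        have e3 : c b = c b' := pc_abs (hc1 b).1 (hc1 b').1 (by omega) (by omega) e2
        have e4 : Sq 2 ((b : ℤ) : ℚ) ↔ Sq 2 ((b' : ℤ) : ℚ) := by
          simpa using e1
        have f1 := hc3 b
        have f2 := hc3 b'
        apply Subtype.ext
        by_cases hS : Sq 2 ((b : ℤ) : ℚ)
        · rw [if_pos hS] at f1
          rw [if_pos (e4.1 hS)] at f2
          rw [← f1, ← f2, e3]
        · rw [if_neg hS] at f1
          rw [if_neg (fun h => hS (e4.2 h))] at f2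
          obtain ⟨z, hz, hz1⟩ := f1
          obtain ⟨z', hz', hz1'⟩ := f2
          apply pc_bt_sq _ _ b.2.1 b'.2.1
          have hn0 : (n : ℚ) ≠ 0 := by exact_mod_cast hn.ne_zero
          have hr : IsSquare (((b : ℤ) * (b' : ℤ) : ℤ) : ℚ) := by
            refine ⟨(c b' : ℚ) * z * z' / n, ?_⟩
            rw [e3] at hz1
            push_cast
            field_simp
            linear_combination (-(n : ℚ) * ((b' : ℤ) : ℚ)) * hz1 + ((c b' : ℚ) * z ^ 2) * hz1'
          exact Rat.isSquare_intCast_iff.1 hr)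
    rw [Nat.card_prod, Nat.card_eq_fintype_card (α := Bool), Fintype.card_bool,
      Nat.card_eq_fintype_card (α := PsiF n), Fintype.card_coe] at h1
    exact h1

theorem card_Psi_le (n : ℕ) (hn : Squarefree n) (hsign : n % 3 = 1 ↔ n % 5 = 1 ∨ n % 5 = 4) :
    Nat.card (Psi n) ≤ Nat.card (Phi n) := by
  refine (card_Psi_le_F n hn hsign).trans ?_
  rw [← card_F n hn hsign]
  exact card_PhiF_le n hn hsign

end X15B
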