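import Pool.Agent.Lib.MP_87c685_nt_X15B.DeltaHom
import Pool.Agent.Lib.MP_87c685_nt_X15B.ClassB
import Pool.Agent.Lib.MP_87c685_nt_X15B.ClassC
import Pool.Agent.Lib.MP_87c685_nt_X15B.PsiCard

open NumberField WeierstrassCurve Finset

namespace X15B

open X15

theorem ix_one_mem_Phi (n : ℕ) : 1 ∈ Phi n := by
  refine ⟨squarefree_one, fun p hp h => ?_, ⟨1, 0, 1, one_ne_zero, by simp⟩, fun _ => rfl⟩
  exact absurd (Nat.dvd_one.1 h) hp.one_lt.ne'

theorem ix_self_mem_Phi (n : ℕ) (hn : Squarefree n) : n ∈ Phi n := by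
  refine ⟨hn, fun p _ h => Or.inl h, ⟨0, 1, 1, one_ne_zero, by simp⟩, fun h => h⟩

theorem ix_one_mem_Psi (n : ℕ) : 1 ∈ Psi n := by
  refine ⟨squarefree_one, fun p hp h => ?_, fun _ => rfl, fun q _ _ _ => Or.inl ?_,
    fun _ => Or.inl ?_, fun _ => ?_⟩
  · have h1 : p ∣ 1 := by exact_mod_cast h
    exact absurd (Nat.dvd_one.1 h1) hp.one_lt.ne'
  · simpa using Sq.sq (p := q) 1
  · simpa using Sq.sq (p := 2) 1
  · simpa using Sq.sq (p := 5) 1

theorem ix_neg_mem_Psi (n : ℕ) (hn : Squarefree n)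
    (hsign : n % 3 = 1 ↔ n % 5 = 1 ∨ n % 5 = 4) : (-(n : ℤ)) ∈ Psi n := by
  have hmul : ((-(n : ℤ) : ℤ) : ℚ) * (-(n : ℚ)) = (n : ℚ) ^ 2 := by
    push_cast
    ring
  refine ⟨?_, fun p _ h => Or.inl ?_, fun _ => ?_, fun q _ _ _ => Or.inr ?_,
    fun _ => Or.inr ?_, fun h3 => ?_⟩
  · exact Squarefree.squarefree_of_dvd (neg_dvd.2 dvd_rfl) (Int.squarefree_natCast.2 hn)
  · have h1 : (p : ℤ) ∣ n := by
      have := (dvd_neg (a := (p : ℤ)) (b := (n : ℤ))).1 h
      exact this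
    exact_mod_cast h1
  · omega
  · rw [hmul]
    exact Sq.sq _
  · rw [hmul]
    exact Sq.sq _
  · have h5 := hsign.1 h3
    rw [sq_int_iff (p := 5) (by norm_num) (-(n : ℤ)) (by push_cast; omega)]
    rcases h5 with h5 | h5
    · have h6 : ((-(n : ℤ) : ℤ) : ZMod 5) = 4 := by
        have := (ZMod.intCast_eq_intCast_iff_dvd_sub (-(n : ℤ)) 4 5).2 (by
          push_cast
          omega)
        simpa using this
      rw [h6]
      exact ⟨2, by decide⟩
    · have h6 : ((-(n : ℤ) : ℤ) : ZMod 5) = 1 := by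
        have := (ZMod.intCast_eq_intCast_iff_dvd_sub (-(n : ℤ)) 1 5).2 (by
          push_cast
          omega)
        simpa using this
      rw [h6]
      exact ⟨1, by decide⟩

/-- the values of the descent map for the root `-16 n` -/
theorem ix_C (n : ℕ) (hn : Squarefree n) (hsign : n % 3 = 1 ↔ n % 5 = 1 ∨ n % 5 = 4)
    (P : (E ℚ (-(n : ℚ))).toAffine.Point) :
    ∃ c ∈ Phi n, cl (dval (16 * (-(n : ℚ))) 0 (-9 * (-(n : ℚ))) P) = cl (c : ℚ) := by
  have hn0 : (n : ℚ) ≠ 0 := by exact_mod_cast hn.ne_zero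
  have hd : (-(n : ℚ)) ≠ 0 := neg_ne_zero.2 hn0
  rcases P with _ | ⟨x, y, h⟩
  · exact ⟨1, ix_one_mem_Phi n, by simp [dval]⟩
  · have heq := (nonsingular_iff (-(n : ℚ)) x y hd).1 h
    simp only [dval]
    split_ifs with hx
    · refine ⟨1, ix_one_mem_Phi n, ?_⟩
      have h1 : (16 * (-(n : ℚ)) - 0) * (16 * (-(n : ℚ)) - -9 * (-(n : ℚ))) =
          ((1 : ℕ) : ℚ) * (20 * (n : ℚ)) ^ 2 := by
        push_cast
        ring
      rw [h1, cl_mul_sq _ _ (mul_ne_zero (by norm_num) hn0)]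
    · by_cases hy : y = 0
      · refine ⟨n, ix_self_mem_Phi n hn, ?_⟩
        rw [hy] at heq
        have h2 : x * (x + 9 * (-(n : ℚ))) * (x - 16 * (-(n : ℚ))) = 0 := by
          rw [← heq]
          ring
        rcases mul_eq_zero.1 h2 with h3 | h3
        · rcases mul_eq_zero.1 h3 with h4 | h4
          · have h5 : x - 16 * (-(n : ℚ)) = (n : ℚ) * 4 ^ 2 := by
              rw [h4]
              ring
            rw [h5, cl_mul_sq _ _ (by norm_num)]
          · have h5 : x - 16 * (-(n : ℚ)) = (n : ℚ) * 5 ^ 2 := by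
              linear_combination h4
            rw [h5, cl_mul_sq _ _ (by norm_num)]
        · exact absurd (sub_eq_zero.1 h3) hx
      · obtain ⟨c, hc, w, hw, hcw⟩ := class_C n hn hsign x y hy (by rw [heq]; ring)
        refine ⟨c, hc, ?_⟩
        have h5 : x - 16 * (-(n : ℚ)) = (c : ℚ) * w ^ 2 := by
          rw [← hcw]
          ring
        rw [h5, cl_mul_sq _ _ hw]

/-- the values of the descent map for the root `9 n` -/
theorem ix_B (n : ℕ) (hn : Squarefree n) (hsign : n % 3 = 1 ↔ n % 5 = 1 ∨ n % 5 = 4)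
    (P : (E ℚ (-(n : ℚ))).toAffine.Point)
    (hP : cl (dval (16 * (-(n : ℚ))) 0 (-9 * (-(n : ℚ))) P) = 0) :
    ∃ b ∈ Psi n, cl (dval (-9 * (-(n : ℚ))) 0 (16 * (-(n : ℚ))) P) = cl (b : ℚ) := by
  have hn0 : (n : ℚ) ≠ 0 := by exact_mod_cast hn.ne_zero
  have hd : (-(n : ℚ)) ≠ 0 := neg_ne_zero.2 hn0
  rcases P with _ | ⟨x, y, h⟩
  · exact ⟨1, ix_one_mem_Psi n, by simp [dval]⟩
  · have heq := (nonsingular_iff (-(n : ℚ)) x y hd).1 h
    simp only [dval] at hP ⊢
    split_ifs with hx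
    · refine ⟨1, ix_one_mem_Psi n, ?_⟩
      have h1 : (-9 * (-(n : ℚ)) - 0) * (-9 * (-(n : ℚ)) - 16 * (-(n : ℚ))) =
          ((1 : ℤ) : ℚ) * (15 * (n : ℚ)) ^ 2 := by
        push_cast
        ring
      rw [h1, cl_mul_sq _ _ (mul_ne_zero (by norm_num) hn0)]
    · by_cases hy : y = 0
      · refine ⟨-(n : ℤ), ix_neg_mem_Psi n hn hsign, ?_⟩
        rw [hy] at heq
        have h2 : x * (x + 9 * (-(n : ℚ))) * (x - 16 * (-(n : ℚ))) = 0 := by
          rw [← heq]
          ring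
        rcases mul_eq_zero.1 h2 with h3 | h3
        · rcases mul_eq_zero.1 h3 with h4 | h4
          · have h5 : x - -9 * (-(n : ℚ)) = ((-(n : ℤ) : ℤ) : ℚ) * 3 ^ 2 := by
              rw [h4]
              push_cast
              ring
            rw [h5, cl_mul_sq _ _ (by norm_num)]
          · exact absurd (by linear_combination h4) hx
        · have h5 : x - -9 * (-(n : ℚ)) = ((-(n : ℤ) : ℤ) : ℚ) * 5 ^ 2 := by
            push_cast
            linear_combination h3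
          rw [h5, cl_mul_sq _ _ (by norm_num)]
      · have hx2 : x ≠ 16 * (-(n : ℚ)) := by
          intro h1
          apply hy
          rw [h1, sub_self, mul_zero] at heq
          exact pow_eq_zero_iff (two_ne_zero) |>.1 heq
        rw [if_neg hx2, cl_eq_zero_iff _ (sub_ne_zero.2 hx2)] at hP
        obtain ⟨b, hb, z, hz, hbz⟩ := class_B n hn hsign x y hy (by rw [heq]; ring)
          (by
            have h1 : x + 16 * (n : ℚ) = x - 16 * (-(n : ℚ)) := by ring
            rw [h1]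
            exact hP)
        refine ⟨b, hb, ?_⟩
        have h5 : x - -9 * (-(n : ℚ)) = (b : ℚ) * z ^ 2 := by
          rw [← hbz]
          ring
        rw [h5, cl_mul_sq _ _ hz]

/-- L11: the index of `2 E(ℚ)`. -/
theorem index_le (n : ℕ) (hn : Squarefree n) (hsign : n % 3 = 1 ↔ n % 5 = 1 ∨ n % 5 = 4) :
    (nsmulAddMonoidHom (α := (E ℚ (-(n : ℚ))).toAffine.Point) 2).range.FiniteIndex ∧
    (nsmulAddMonoidHom (α := (E ℚ (-(n : ℚ))).toAffine.Point) 2).range.index ≤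
      Nat.card (Phi n) ^ 2 := by
  have hn0 : (n : ℚ) ≠ 0 := by exact_mod_cast hn.ne_zero
  have hd : (-(n : ℚ)) ≠ 0 := neg_ne_zero.2 hn0
  obtain ⟨δB, δC, hB, hC, hker⟩ := exists_delta (-(n : ℚ)) hd
  -- the range of `δC`
  have hPhi := Phi_finite n hn
  have hPsi := Psi_finite n hn
  have h1 : (δC.range : Set SqC) ⊆ (fun c : ℕ => cl (c : ℚ)) '' Phi n := by
    rintro _ ⟨P, rfl⟩
    obtain ⟨c, hc, hc'⟩ := ix_C n hn hsign P
    exact ⟨c, hc, by rw [hC P]; exact hc'.symm⟩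
  have h1f : (δC.range : Set SqC).Finite := (hPhi.image _).subset h1
  have h1c : Nat.card δC.range ≤ Nat.card (Phi n) := by
    rw [Nat.card_coe_set_eq]
    have h2 : Nat.card δC.range = (δC.range : Set SqC).ncard := Nat.card_coe_set_eq _
    rw [h2]
    exact (Set.ncard_le_ncard h1 (hPhi.image _)).trans (Set.ncard_image_le hPhi)
  -- the image of `ker δC`
  have h3 : (δC.ker.map δB : Set SqC) ⊆ (fun b : ℤ => cl (b : ℚ)) '' Psi n := by
    rintro _ ⟨P, hP, rfl⟩
    have hP0 : δC P = 0 := hP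
    obtain ⟨b, hb, hb'⟩ := ix_B n hn hsign P (by rw [← hC P]; exact hP0)
    exact ⟨b, hb, by rw [hB P]; exact hb'.symm⟩
  have h3f : (δC.ker.map δB : Set SqC).Finite := (hPsi.image _).subset h3
  have h3c : Nat.card (δC.ker.map δB) ≤ Nat.card (Phi n) := by
    refine le_trans ?_ (card_Psi_le n hn hsign)
    rw [Nat.card_coe_set_eq (Psi n)]
    have h2 : Nat.card (δC.ker.map δB) = (δC.ker.map δB : Set SqC).ncard :=
      Nat.card_coe_set_eq _
    rw [h2]
    exact (Set.ncard_le_ncard h3 (hPsi.image _)).trans (Set.ncard_image_le hPsi)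
  -- the index of the common kernel
  have h4 : (δB.ker ⊓ δC.ker).index = Nat.card (δC.ker.map δB) * Nat.card δC.range := by
    rw [← AddSubgroup.index_ker δC, ← AddSubgroup.relIndex_ker δC.ker δB,
      ← AddSubgroup.inf_relIndex_right δB.ker δC.ker]
    exact (AddSubgroup.relIndex_mul_index inf_le_right).symm
  have h5 : δB.ker ⊓ δC.ker ≤
      (nsmulAddMonoidHom (α := (E ℚ (-(n : ℚ))).toAffine.Point) 2).range := by
    intro P hP
    obtain ⟨Q, hQ⟩ := hker P hP.1 hP.2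
    exact ⟨Q, by rw [hQ]; exact two_nsmul Q⟩
  have h6 : (δB.ker ⊓ δC.ker).index ≠ 0 := by
    rw [h4]
    have : Finite δC.range := h1f
    have : Finite (δC.ker.map δB) := h3f
    exact mul_ne_zero Nat.card_pos.ne' Nat.card_pos.ne'
  have h7 := AddSubgroup.index_dvd_of_le h5
  refine ⟨⟨fun h0 => h6 ?_⟩, ?_⟩
  · rw [h0] at h7
    exact Nat.eq_zero_of_zero_dvd h7
  · refine (Nat.le_of_dvd (Nat.pos_of_ne_zero h6) h7).trans ?_
    rw [h4, pow_two]
    exact Nat.mul_le_mul h3c h1c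

end X15B
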