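import Pool.Agent.Lib.MP_87c685_nt_X15B.Defs

open NumberField WeierstrassCurve Finset NumberTheorySymbols

namespace X15B

open X15

theorem prod_pm {S : Finset ℕ} {f : ℕ → ℤ} (h : ∀ s ∈ S, f s = 1 ∨ f s = -1) :
    ∏ s ∈ S, f s = 1 ∨ ∏ s ∈ S, f s = -1 := by
  classical
  induction S using Finset.induction_on with
  | empty => simp
  | insert a S ha ih =>
    rw [prod_insert ha]
    have h1 := h a (mem_insert_self a S)
    have h2 := ih fun s hs => h s (mem_insert_of_mem hs)
    rcases h1 with h1 | h1 <;> rcases h2 with h2 | h2 <;> rw [h1, h2] <;> simp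

theorem half_count (S T : Finset ℕ) (e : ℕ → ℕ → ℤ)
    (he : ∀ q ∈ T, ∀ s ∈ S, e q s = 1 ∨ e q s = -1) :
    ∑ m ∈ S.powerset, ∑ t ∈ T.powerset, ∏ q ∈ t, ∏ s ∈ m, e q s =
      ((S.powerset.filter fun m => ∀ q ∈ T, ∏ s ∈ m, e q s = 1).card : ℤ) * 2 ^ T.card := by
  classical
  have h1 : ∀ m ∈ S.powerset, ∑ t ∈ T.powerset, ∏ q ∈ t, ∏ s ∈ m, e q s =
      if ∀ q ∈ T, ∏ s ∈ m, e q s = 1 then 2 ^ T.card else 0 := by
    intro m hm
    rw [← Finset.prod_one_add]
    rw [mem_powerset] at hm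
    split_ifs with h
    · rw [prod_congr rfl fun q hq => by rw [h q hq], prod_const]
      norm_num
    · push Not at h
      obtain ⟨q, hq, hne⟩ := h
      refine prod_eq_zero hq ?_
      rcases prod_pm (S := m) (f := e q) fun s hs => he q hq s (hm hs) with h | h
      · exact absurd h hne
      · rw [h]; norm_num
  rw [sum_congr rfl h1, ← sum_filter, sum_const, nsmul_eq_mul]

/-- Double counting: a matrix of signs and its transpose have kernels of related size. -/
theorem count (S T : Finset ℕ) (e : ℕ → ℕ → ℤ)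
    (he : ∀ q ∈ T, ∀ s ∈ S, e q s = 1 ∨ e q s = -1) :
    (S.powerset.filter fun m => ∀ q ∈ T, ∏ s ∈ m, e q s = 1).card * 2 ^ T.card =
      (T.powerset.filter fun t => ∀ s ∈ S, ∏ q ∈ t, e q s = 1).card * 2 ^ S.card := by
  have h1 := half_count S T e he
  have h2 := half_count T S (fun s q => e q s) fun q hq s hs => he s hs q hq
  have h3 : ∑ m ∈ S.powerset, ∑ t ∈ T.powerset, ∏ q ∈ t, ∏ s ∈ m, e q s =
      ∑ t ∈ T.powerset, ∑ m ∈ S.powerset, ∏ s ∈ m, ∏ q ∈ t, e q s := by
    rw [sum_comm]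
    refine sum_congr rfl fun t _ => sum_congr rfl fun m _ => ?_
    rw [prod_comm]
  rw [h1, h2] at h3
  exact_mod_cast h3

theorem rec1 (b : ℤ) (hb : b % 4 = 1) (N : ℕ) (hN : Odd N) :
    jacobiSym b N = jacobiSym (N : ℤ) b.natAbs := by
  rcases Int.natAbs_eq b with h | h
  · have h4 : b.natAbs % 4 = 1 := by omega
    conv_lhs => rw [h]
    exact jacobiSym.quadratic_reciprocity_one_mod_four h4 hN
  · have h4 : b.natAbs % 4 = 3 := by omega
    conv_lhs => rw [h]
    rw [jacobiSym.neg _ hN]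
    have hN2 : N % 2 = 1 := Nat.odd_iff.mp hN
    have hN4 : N % 4 = 1 ∨ N % 4 = 3 := by omega
    have hodd : Odd b.natAbs := by rw [Nat.odd_iff]; omega
    rcases hN4 with h1 | h3
    · rw [ZMod.χ₄_nat_one_mod_four h1, one_mul]
      rw [jacobiSym.quadratic_reciprocity_one_mod_four h1 hodd]
    · rw [ZMod.χ₄_nat_three_mod_four h3, neg_mul, one_mul,
        jacobiSym.quadratic_reciprocity_three_mod_four h4 h3, neg_neg]

/-- The case of a common factor: if `g b'` is `1` modulo `4`, then `(-b' | g) = (g | |b'|)`. -/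
theorem rec2 (b' : ℤ) (g : ℕ) (h : (g * b') % 4 = 1) :
    jacobiSym (-b') g = jacobiSym (g : ℤ) b'.natAbs := by
  have hg2 : g % 2 = 1 := by
    rcases Nat.even_or_odd g with he | ho
    · obtain ⟨k, rfl⟩ := he
      exfalso
      have : (((k + k : ℕ) : ℤ) * b') = 2 * (k * b') := by push_cast; ring
      rw [this] at h; omega
    · exact Nat.odd_iff.mp ho
  have hgo : Odd g := Nat.odd_iff.mpr hg2
  have hg4 : (g : ℤ) % 4 = 1 ∨ (g : ℤ) % 4 = 3 := by omega
  have hb4 : b' % 4 = (g : ℤ) % 4 := by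
    rw [Int.mul_emod] at h
    have h1 : b' % 4 = 0 ∨ b' % 4 = 1 ∨ b' % 4 = 2 ∨ b' % 4 = 3 := by omega
    rcases hg4 with h0 | h0 <;> rcases h1 with h1 | h1 | h1 | h1 <;>
      rw [h0, h1] at h <;> first | (exfalso; revert h; decide) | rw [h0, h1]
  rcases hg4 with h0 | h0
  · rw [h0] at hb4
    have hg1 : g % 4 = 1 := by omega
    rw [jacobiSym.neg _ hgo, ZMod.χ₄_nat_one_mod_four hg1, one_mul, rec1 b' hb4 g hgo]
  · rw [h0] at hb4
    have hb5 : (-b') % 4 = 1 := by omega
    rw [rec1 (-b') hb5 g hgo, Int.natAbs_neg]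

theorem jac_prod (a : ℤ) (S : Finset ℕ) (h : ∀ q ∈ S, q ≠ 0) :
    jacobiSym a (∏ q ∈ S, q) = ∏ q ∈ S, jacobiSym a q := by
  classical
  induction S using Finset.induction_on with
  | empty => simp
  | insert q S hq ih =>
    have h1 : q ≠ 0 := h q (mem_insert_self q S)
    have h2 : ∏ q ∈ S, q ≠ 0 := prod_ne_zero_iff.2 fun r hr => h r (mem_insert_of_mem hr)
    have : NeZero q := ⟨h1⟩
    have : NeZero (∏ q ∈ S, q) := ⟨h2⟩
    rw [prod_insert hq, prod_insert hq, jacobiSym.mul_right,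
      ih fun r hr => h r (mem_insert_of_mem hr)]

theorem jac_primeFactors (a : ℤ) {N : ℕ} (hN : Squarefree N) :
    jacobiSym a N = ∏ q ∈ N.primeFactors, jacobiSym a q := by
  conv_lhs => rw [← Nat.prod_primeFactors_of_squarefree hN]
  exact jac_prod a _ fun q hq => (Nat.prime_of_mem_primeFactors hq).ne_zero

/-- The transposed condition for the number `b`. -/
theorem ker_of_local (n : ℕ) (b : ℤ) (hb4 : b % 4 = 1) (hsq : Squarefree b)
    (s : ℕ) (hs : s.Prime)
    (h8 : s = 2 → b % 8 = 1)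
    (h1 : s ≠ 2 → ¬ (s ∣ b.natAbs) → jacobiSym b s = 1)
    (h2 : s ∣ b.natAbs → s ∣ n ∧ jacobiSym (-((n / s : ℕ) : ℤ) * (b / s)) s = 1) :
    ∏ q ∈ b.natAbs.primeFactors, ep n q s = 1 := by
  classical
  have hb0 : b ≠ 0 := hsq.ne_zero
  have hsqn : Squarefree b.natAbs := Int.squarefree_natAbs.2 hsq
  have hn0 : b.natAbs ≠ 0 := Int.natAbs_ne_zero.2 hb0
  have hoddb : Odd b.natAbs := by rw [Nat.odd_iff]; omega
  by_cases hd : s ∣ b.natAbs
  · -- the prime divides b
    obtain ⟨hsn, h2⟩ := h2 hd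
    have hdz : (s : ℤ) ∣ b := Int.natCast_dvd.2 hd
    obtain ⟨b'', hb''⟩ := hdz
    have hs0 : (s : ℤ) ≠ 0 := by exact_mod_cast hs.ne_zero
    have e1 : b / s = b'' := by rw [hb'']; exact Int.mul_ediv_cancel_left _ hs0
    have habs : b.natAbs = s * b''.natAbs := by rw [hb'', Int.natAbs_mul, Int.natAbs_natCast]
    have hb0'' : b''.natAbs ≠ 0 := by intro h; rw [h, mul_zero] at habs; exact hn0 habs
    have hcop : Nat.Coprime s b''.natAbs := by
      rw [habs] at hsqn
      exact Nat.coprime_of_squarefree_mul hsqn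
    have hsq'' : Squarefree b''.natAbs := by
      rw [habs] at hsqn
      exact hsqn.squarefree_of_dvd (dvd_mul_left _ _)
    have hpf : b.natAbs.primeFactors = insert s b''.natAbs.primeFactors := by
      rw [habs, Nat.primeFactors_mul hs.ne_zero hb0'', hs.primeFactors, singleton_union]
    have hnot : s ∉ b''.natAbs.primeFactors := by
      intro h
      have := Nat.dvd_of_mem_primeFactors h
      have h3 := Nat.dvd_gcd dvd_rfl this
      rw [hcop] at h3
      exact hs.one_lt.ne' (Nat.dvd_one.1 h3)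
    rw [hpf, prod_insert hnot]
    have e2 : ep n s s = jacobiSym ((n / s : ℕ) : ℤ) s := by rw [ep, if_pos rfl]
    have e3 : ∏ q ∈ b''.natAbs.primeFactors, ep n q s = jacobiSym (s : ℤ) b''.natAbs := by
      rw [jac_primeFactors _ hsq'']
      refine prod_congr rfl fun q hq => ?_
      rw [ep, if_neg]
      rintro rfl; exact hnot hq
    rw [e2, e3, ← rec2 b'' s (by rw [← hb'']; exact hb4), ← jacobiSym.mul_left, ← h2, e1]
    congr 1; ring
  · have hnot : s ∉ b.natAbs.primeFactors := fun h => hd (Nat.dvd_of_mem_primeFactors h)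
    have e3 : ∏ q ∈ b.natAbs.primeFactors, ep n q s = jacobiSym (s : ℤ) b.natAbs := by
      rw [jac_primeFactors _ hsqn]
      refine prod_congr rfl fun q hq => ?_
      rw [ep, if_neg]
      rintro rfl; exact hnot hq
    rw [e3]
    rcases eq_or_ne s 2 with rfl | hs2
    · have h9 := h8 rfl
      have : ((2 : ℕ) : ℤ) = 2 := rfl
      rw [this, jacobiSym.at_two hoddb]
      have h10 : b.natAbs % 8 = 1 ∨ b.natAbs % 8 = 7 := by omega
      rw [ZMod.χ₈_nat_eq_if_mod_eight]
      rcases h10 with h | h <;> simp [h] <;> omega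
    · have hso : Odd s := hs.odd_of_ne_two hs2
      rw [← rec1 b hb4 s hso]
      exact h1 hs2 hd


end X15B
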