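import Pool.Agent.Lib.MP_87c685_nt_X15.PadicSq
import Pool.Agent.Lib.MP_87c685_nt_X15B.SymCount

open NumberField WeierstrassCurve Finset

namespace X15B

open X15

/-- an integer exactly divisible by `q` is not a `q`-adic square -/
theorem pl_odd (q : ℕ) [hq : Fact q.Prime] (r : ℤ) (h : (q : ℤ) ∣ r)
    (h2 : ¬ ((q : ℤ) * q) ∣ r) : ¬ Sq q (r : ℚ) := by
  intro hS
  have h1 := even_valuation _ hS
  rw [Rat.cast_intCast, Padic.valuation_intCast] at h1
  have hr0 : r ≠ 0 := fun h0 => h2 (h0 ▸ dvd_zero _)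
  have hv : padicValInt q r = 1 := by
    apply le_antisymm
    · by_contra hc
      push Not at hc
      apply h2
      have := (padicValInt_dvd_iff 2 r).2 (Or.inr hc)
      rwa [pow_two] at this
    · have := (padicValInt_dvd_iff 1 r).1 (by simpa using h)
      rcases this with h | h
      · exact absurd h hr0
      · exact h
  rw [hv] at h1
  norm_num at h1

/-- square units have symbol `1` -/
theorem pl_jac (s : ℕ) [hs : Fact s.Prime] (hs2 : s ≠ 2) (u : ℤ) (hu : ¬ (s : ℤ) ∣ u)
    (h : Sq s (u : ℚ)) : jacobiSym u s = 1 := by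
  have h1 := (sq_int_iff hs2 u hu).1 h
  rw [← jacobiSym.legendreSym.to_jacobiSym]
  rw [legendreSym.eq_one_iff]
  · exact h1
  · intro h0
    exact hu ((ZMod.intCast_zmod_eq_zero_iff_dvd u s).1 h0)

/-- L4: the set of primes of an element of `Ψ_n` which is `1` modulo `4` (and modulo `8` if `2`
ramifies). -/
theorem primeFactors_mem_PsiF (n : ℕ) (hn : Squarefree n)
    (hsign : n % 3 = 1 ↔ n % 5 = 1 ∨ n % 5 = 4) (b : ℤ) (hb : b ∈ Psi n) (h4 : b % 4 = 1)
    (h8 : n % 4 ≠ 3 → b % 8 = 1) : b.natAbs.primeFactors ∈ PsiF n := by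
  obtain ⟨hsqf, hdvd, -, hloc, -, hfive⟩ := hb
  have hn0 : n ≠ 0 := hn.ne_zero
  have hb0 : b ≠ 0 := hsqf.ne_zero
  -- no square of a prime divides `b`
  have hbq : ∀ q : ℕ, q.Prime → ¬ ((q : ℤ) * q) ∣ b := by
    intro q hq h
    have h1 := hsqf (q : ℤ) h
    have h2 := Int.isUnit_iff_natAbs_eq.1 h1
    rw [Int.natAbs_natCast] at h2
    exact hq.one_lt.ne' h2
  have hnq : ∀ q : ℕ, q.Prime → ¬ (q * q) ∣ n := by
    intro q hq h
    exact hq.one_lt.ne' (Nat.isUnit_iff.1 (hn q h))
  rw [PsiF, mem_filter, mem_powerset]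
  constructor
  · intro p hp
    have hpp := Nat.prime_of_mem_primeFactors hp
    have hpb : (p : ℤ) ∣ b := Int.natCast_dvd.2 (Nat.dvd_of_mem_primeFactors hp)
    have hp2 : p ≠ 2 := by
      rintro rfl
      obtain ⟨c, hc⟩ := hpb
      push_cast at hc
      omega
    rw [TT, mem_union, mem_filter]
    rcases hdvd p hpp hpb with h | h | h
    · left
      exact ⟨Nat.mem_primeFactors.2 ⟨hpp, h, hn0⟩, hp2⟩
    · exact absurd h.1 hp2
    · right
      rw [if_pos h.2, h.1]
      exact mem_singleton_self 3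
  · intro s hs
    have hs' : (s.Prime ∧ s ≠ 2 ∧ s ∣ n) ∨ (s = 2 ∧ n % 4 ≠ 3) ∨ (s = 5 ∧ n % 3 = 1) := by
      rw [SS, mem_union, mem_union, mem_filter] at hs
      rcases hs with (hs | hs) | hs
      · left
        exact ⟨Nat.prime_of_mem_primeFactors hs.1, hs.2, Nat.dvd_of_mem_primeFactors hs.1⟩
      · right; left
        split_ifs at hs with h
        · simp at hs
        · exact ⟨mem_singleton.1 hs, h⟩
      · right; right
        split_ifs at hs with h
        · exact ⟨mem_singleton.1 hs, h⟩
        · simp at hs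
    have hsp : s.Prime := by
      rcases hs' with h | h | h
      · exact h.1
      · rw [h.1]; exact Nat.prime_two
      · rw [h.1]; norm_num
    have : Fact s.Prime := ⟨hsp⟩
    apply ker_of_local n b h4 hsqf s hsp
    · rintro rfl
      rcases hs' with h | h | h
      · exact absurd rfl h.2.1
      · exact h8 h.2
      · exact absurd h.1 (by norm_num)
    · intro hs2 hsb
      have hsbz : ¬ (s : ℤ) ∣ b := fun h => hsb (Int.natCast_dvd.1 h)
      rcases hs' with h | h | h
      · rcases hloc s hs2 h.2.2 with h1 | h1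
        · exact pl_jac s hs2 b hsbz h1
        · exfalso
          refine pl_odd s (b * (-(n : ℤ))) ?_ ?_ ?_
          · exact Dvd.dvd.mul_left ((dvd_neg).2 (Int.natCast_dvd_natCast.2 h.2.2)) _
          · rw [mul_neg, dvd_neg]
            intro h2
            have hcop : IsCoprime ((s : ℤ) * s) b := by
              have h3 : IsCoprime (s : ℤ) b :=
                (Prime.coprime_iff_not_dvd (Nat.prime_iff_prime_int.1 hsp)).2 hsbz
              exact h3.mul_left h3
            have h3 := hcop.dvd_of_dvd_mul_left h2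
            exact hnq s hsp (by exact_mod_cast h3)
          · push_cast at h1 ⊢
            exact h1
      · exact absurd h.1 hs2
      · obtain ⟨rfl, h3⟩ := h
        exact pl_jac 5 (by norm_num) b hsbz (hfive h3)
    · intro hsb
      have hsbz : (s : ℤ) ∣ b := Int.natCast_dvd.2 hsb
      have hs2 : s ≠ 2 := by
        rintro rfl
        obtain ⟨c, hc⟩ := hsbz
        push_cast at hc
        omega
      have hsn : s ∣ n := by
        rcases hs' with h | h | h
        · exact h.2.2
        · exact absurd h.1 hs2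
        · obtain ⟨rfl, h3⟩ := h
          rcases hdvd 5 hsp hsbz with h | h | h
          · exact h
          · exact absurd h.1 (by norm_num)
          · exact absurd h.1 (by norm_num)
      refine ⟨hsn, ?_⟩
      obtain ⟨n', hn'⟩ := hsn
      obtain ⟨b', hb'⟩ := hsbz
      have hs0 : (s : ℤ) ≠ 0 := by exact_mod_cast hsp.ne_zero
      have e1 : n / s = n' := by rw [hn']; exact Nat.mul_div_cancel_left _ hsp.pos
      have e2 : b / (s : ℤ) = b' := by rw [hb']; exact Int.mul_ediv_cancel_left _ hs0
      rw [e1, e2]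
      have hn's : ¬ (s : ℤ) ∣ (n' : ℤ) := by
        intro h
        have h1 : s ∣ n' := Int.natCast_dvd_natCast.1 h
        exact hnq s hsp (hn' ▸ Nat.mul_dvd_mul_left s h1)
      have hb's : ¬ (s : ℤ) ∣ b' := by
        intro h
        exact hbq s hsp (hb' ▸ mul_dvd_mul_left (s : ℤ) h)
      have hpr : Prime (s : ℤ) := Nat.prime_iff_prime_int.1 hsp
      have hu : ¬ (s : ℤ) ∣ -(n' : ℤ) * b' := by
        intro h
        rcases hpr.dvd_or_dvd h with h | h
        · exact hn's ((dvd_neg).1 h)
        · exact hb's h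
      apply pl_jac s hs2 _ hu
      rcases hloc s hs2 (hn' ▸ dvd_mul_right s n') with h1 | h1
      · exact absurd h1 (pl_odd s b ⟨b', hb'⟩ (hbq s hsp))
      · have e3 : (b : ℚ) * (-(n : ℚ)) = (((-(n' : ℤ) * b' : ℤ)) : ℚ) * (s : ℚ) ^ 2 := by
          rw [hb', hn']
          push_cast
          ring
        rw [e3] at h1
        exact (sq_mul_sq_iff _ (s : ℚ) (by exact_mod_cast hsp.ne_zero)).1 h1

end X15B
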