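import Mathlib

open NumberField WeierstrassCurve Finset

namespace X15B

private theorem rfg_index_congr {A B : Type*} [AddCommGroup A] [AddCommGroup B] (f : A ≃+ B) :
    (nsmulAddMonoidHom (α := A) 2).range.index = (nsmulAddMonoidHom (α := B) 2).range.index := by
  have h : (nsmulAddMonoidHom (α := B) 2).range =
      (nsmulAddMonoidHom (α := A) 2).range.map (f : A →+ B) := by
    ext b
    simp only [AddMonoidHom.mem_range, AddSubgroup.mem_map, nsmulAddMonoidHom_apply]
    constructor
    · rintro ⟨c, rfl⟩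
      exact ⟨2 • f.symm c, ⟨f.symm c, rfl⟩, by simp⟩
    · rintro ⟨_, ⟨c, rfl⟩, rfl⟩
      exact ⟨f c, by simp⟩
  rw [h, AddSubgroup.index_map_equiv]

private theorem rfg_card_congr {A B : Type*} [AddCommGroup A] [AddCommGroup B] (f : A ≃+ B) :
    Nat.card {g : A // 2 • g = 0} = Nat.card {g : B // 2 • g = 0} := by
  refine Nat.card_congr (f.toEquiv.subtypeEquiv fun a => ?_)
  show 2 • a = 0 ↔ 2 • f a = 0
  rw [← map_nsmul, EmbeddingLike.map_eq_zero_iff]

private theorem rfg_index_prod (A B : Type*) [AddCommGroup A] [AddCommGroup B] :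
    (nsmulAddMonoidHom (α := A × B) 2).range.index =
      (nsmulAddMonoidHom (α := A) 2).range.index * (nsmulAddMonoidHom (α := B) 2).range.index := by
  rw [← AddSubgroup.index_prod]
  congr 1
  ext ⟨a, b⟩
  simp only [AddMonoidHom.mem_range, AddSubgroup.mem_prod, nsmulAddMonoidHom_apply]
  constructor
  · rintro ⟨⟨c, d⟩, h⟩
    exact ⟨⟨c, congrArg Prod.fst h⟩, ⟨d, congrArg Prod.snd h⟩⟩
  · rintro ⟨⟨c, hc⟩, ⟨d, hd⟩⟩
    exact ⟨(c, d), Prod.ext hc hd⟩

private theorem rfg_index_finite (T : Type*) [AddCommGroup T] [Finite T] :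
    (nsmulAddMonoidHom (α := T) 2).range.index = Nat.card {g : T // 2 • g = 0} := by
  have h1 := AddSubgroup.card_mul_index (nsmulAddMonoidHom (α := T) 2).range
  have h2 := AddSubgroup.card_mul_index (nsmulAddMonoidHom (α := T) 2).ker
  rw [AddSubgroup.index_ker] at h2
  have h3 : Nat.card (nsmulAddMonoidHom (α := T) 2).ker = Nat.card {g : T // 2 • g = 0} := rfl
  rw [h3] at h2
  have h4 : 0 < Nat.card (nsmulAddMonoidHom (α := T) 2).range := Nat.card_pos
  refine Nat.eq_of_mul_eq_mul_left h4 ?_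
  rw [h1, ← h2, mul_comm]

private theorem rfg_index_free (n : ℕ) :
    (nsmulAddMonoidHom (α := Fin n → ℤ) 2).range.index = 2 ^ n := by
  let f : (Fin n → ℤ) →+ (Fin n → ZMod 2) := (Int.castAddHom (ZMod 2)).compLeft (Fin n)
  have h1 : (nsmulAddMonoidHom (α := Fin n → ℤ) 2).range = f.ker := by
    ext x
    simp only [AddMonoidHom.mem_range, AddMonoidHom.mem_ker, nsmulAddMonoidHom_apply]
    constructor
    · rintro ⟨c, rfl⟩
      funext i
      show ((2 • c) i : ZMod 2) = 0
      have : (2 : ZMod 2) = 0 := by decide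
      simp [this]
    · intro h
      have h2 : ∀ i, (2 : ℤ) ∣ x i := by
        intro i
        have h3 : ((x i : ℤ) : ZMod 2) = 0 := congrFun h i
        exact_mod_cast (ZMod.intCast_zmod_eq_zero_iff_dvd (x i) 2).mp h3
      choose c hc using h2
      refine ⟨c, ?_⟩
      funext i
      rw [hc i]
      simp
  have h2 : f.range = ⊤ := by
    rw [AddMonoidHom.range_eq_top]
    intro y
    choose c hc using fun i => ZMod.intCast_surjective (y i)
    exact ⟨c, funext hc⟩
  rw [h1, AddSubgroup.index_ker, h2]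
  have h3 : Nat.card (⊤ : AddSubgroup (Fin n → ZMod 2)) = Nat.card (Fin n → ZMod 2) :=
    Nat.card_congr AddSubgroup.topEquiv.toEquiv
  rw [h3, Nat.card_fun]
  simp

/-- L12: the index of `2 G` in a finitely generated abelian group. -/
theorem index_two (G : Type*) [AddCommGroup G] [Module.Finite ℤ G] :
    2 ^ (Module.finrank ℤ G) * Nat.card {g : G // 2 • g = 0} =
      (nsmulAddMonoidHom (α := G) 2).range.index := by
  have hfg : AddGroup.FG G := Module.Finite.iff_addGroup_fg.mp inferInstance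
  obtain ⟨n, ι, hι, p, hp, e, ⟨f⟩⟩ := AddCommGroup.equiv_free_prod_directSum_zmod G
  have hne : ∀ i, NeZero (p i ^ e i) := fun i => ⟨pow_ne_zero _ (hp i).ne_zero⟩
  let T : Type := ∀ i, ZMod (p i ^ e i)
  have hT : Finite T := Pi.finite
  let g : G ≃+ (Fin n → ℤ) × T :=
    f.trans (AddEquiv.prodCongr (Finsupp.linearEquivFunOnFinite ℤ ℤ (Fin n)).toAddEquiv
      (DirectSum.addEquivProd fun i => ZMod (p i ^ e i)))
  -- the rank
  have hTtor : Module.finrank ℤ T = 0 := by
    rw [Module.finrank_eq_zero_iff_isTorsion]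
    exact isAddTorsion_iff_isTorsion_int.mp (isAddTorsion_of_finite)
  have hrank : Module.finrank ℤ G = n := by
    rw [g.toIntLinearEquiv.finrank_eq]
    have h1 := Submodule.finrank_quotient_add_finrank
      (LinearMap.ker (LinearMap.fst ℤ (Fin n → ℤ) T))
    rw [(LinearMap.quotKerEquivOfSurjective (LinearMap.fst ℤ (Fin n → ℤ) T)
      LinearMap.fst_surjective).finrank_eq, ← LinearMap.range_inr,
      LinearMap.finrank_range_of_inj LinearMap.inr_injective, hTtor, add_zero] at h1
    rw [← h1]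
    simp
  have hcard : Nat.card {x : (Fin n → ℤ) × T // 2 • x = 0} = Nat.card {t : T // 2 • t = 0} := by
    refine Nat.card_congr ⟨fun x => ⟨x.1.2, congrArg Prod.snd x.2⟩,
      fun t => ⟨(0, t.1), Prod.ext (nsmul_zero 2) t.2⟩, fun x => ?_, fun t => rfl⟩
    apply Subtype.ext
    refine Prod.ext ?_ rfl
    have h1 : 2 • x.1.1 = 0 := congrArg Prod.fst x.2
    funext i
    have h2 : 2 • (x.1.1 i) = 0 := congrFun h1 i
    rw [nsmul_eq_mul] at h2
    have h3 : x.1.1 i = 0 := by simpa using h2
    exact h3.symm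
  rw [hrank, rfg_card_congr g, hcard, rfg_index_congr g, rfg_index_prod, rfg_index_free,
    rfg_index_finite]

end X15B
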