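import Pool.Agent.Lib.MP_87c685_nt_X15B.Index
import Pool.Agent.Lib.MP_87c685_nt_X15B.RankFG
import Pool.Agent.Lib.MP_87c685_nt_X15.Par

open NumberField WeierstrassCurve Finset

namespace X15B

open X15

private theorem RankEd_northcott {K : Type*} [Field K] [NumberField K] [DecidableEq K]
    (W : WeierstrassCurve K) [W.IsElliptic] :
    Northcott (fun P : W.toAffine.Point => Height.logHeight P.xRep) := by
  refine ⟨fun b => ?_⟩
  have hfin : {x : K | Height.logHeight₁ x ≤ b}.Finite :=
    NumberField.finite_setOfPred_logHeight₁_le K b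
  refine Set.Finite.of_finite_fibers (fun P : W.toAffine.Point => P.xRep) ?_ ?_
  · refine ((Set.finite_singleton (![1, 0] : Fin 2 → K)).union
      (hfin.image fun x => (![x, 1] : Fin 2 → K))).subset ?_
    rintro _ ⟨P, hP, rfl⟩
    cases P with
    | zero => left; simp [WeierstrassCurve.Affine.Point.xRep]
    | some x y h =>
      right
      refine ⟨x, ?_, by simp [WeierstrassCurve.Affine.Point.xRep]⟩
      simp only [Set.mem_ofPred_eq] at hP ⊢
      rw [Height.logHeight₁_eq_logHeight]
      simpa [WeierstrassCurve.Affine.Point.xRep] using hP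
  · intro x hx
    obtain ⟨P, hP, rfl⟩ := hx
    refine ((Set.finite_singleton (-P)).insert P).subset ?_
    rintro Q ⟨hQ, hQP⟩
    rcases WeierstrassCurve.Affine.Point.xRep_eq_xRep_iff.mp hQP with h | h
    · left; exact h
    · right; exact h

/-- finite generation from the index of `2 G` -/
private theorem RankEd_fg {K : Type*} [Field K] [NumberField K] [DecidableEq K]
    (W : WeierstrassCurve K) [W.IsElliptic]
    (H : (nsmulAddMonoidHom (α := W.toAffine.Point) 2).range.FiniteIndex) :
    Module.Finite ℤ W.toAffine.Point := by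
  obtain ⟨C, hC⟩ := parallelogram (K := K) W
  have hN := RankEd_northcott W
  have hFG : AddGroup.FG W.toAffine.Point :=
    AddCommGroup.fg_of_descent' (h := fun P : W.toAffine.Point => Height.logHeight P.xRep)
      (C := C) H (fun P => Height.logHeight_nonneg _) hC
  exact Module.Finite.iff_addGroup_fg.2 hFG

/-- the three points of order two -/
private theorem RankEd_points (d : ℚ) (hd : d ≠ 0) :
    ∃ f : Option (Fin 3) → {g : (E ℚ d).toAffine.Point // 2 • g = 0}, Function.Injective f := by
  have hns : ∀ x : ℚ, x * (x + 9 * d) * (x - 16 * d) = 0 → (E ℚ d).toAffine.Nonsingular x 0 := by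
    intro x hx
    rw [nonsingular_iff d x 0 hd, hx]
    norm_num
  let a : Fin 3 → ℚ := ![0, -9 * d, 16 * d]
  have ha : ∀ i, a i * (a i + 9 * d) * (a i - 16 * d) = 0 := by
    intro i
    fin_cases i <;> simp [a]
  have hinj : Function.Injective a := by
    intro i j hij
    fin_cases i <;> fin_cases j <;> simp [a, hd] at hij ⊢
    · exact hd (by linarith)
    · exact hd (by linarith)
  refine ⟨fun o => match o with
    | none => ⟨0, by simp⟩
    | some i => ⟨Affine.Point.some (a i) 0 (hns _ (ha i)), by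
        rw [two_smul]
        exact (add_self_eq_zero_iff d hd _ _ (hns _ (ha i))).2 rfl⟩, ?_⟩
  intro o o' h
  cases o with
  | none =>
    cases o' with
    | none => rfl
    | some j =>
      have h1 := congrArg Subtype.val h
      exact absurd h1.symm (by exact Affine.Point.some_ne_zero _)
  | some i =>
    cases o' with
    | none =>
      have h1 := congrArg Subtype.val h
      exact absurd h1 (by exact Affine.Point.some_ne_zero _)
    | some j =>
      have h1 := congrArg Subtype.val h
      have h2 : a i = a j := by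
        have h3 := Affine.Point.some.inj h1
        exact h3.1
      rw [hinj h2]

/-- L13: the rank over `ℚ`. -/
theorem rank_Ed (n : ℕ) (hn : Squarefree n) (hsign : n % 3 = 1 ↔ n % 5 = 1 ∨ n % 5 = 4) :
    Module.Finite ℤ (E ℚ (-(n : ℚ))).toAffine.Point ∧
    2 ^ (Module.finrank ℤ (E ℚ (-(n : ℚ))).toAffine.Point + 2) ≤ Nat.card (Phi n) ^ 2 := by
  have hn0 : n ≠ 0 := hn.ne_zero
  have hd : (-(n : ℚ)) ≠ 0 := neg_ne_zero.2 (Nat.cast_ne_zero.2 hn0)
  have hell := E_isElliptic (-(n : ℚ)) hd
  obtain ⟨hidx, hle⟩ := index_le n hn hsign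
  have hfin := RankEd_fg (E ℚ (-(n : ℚ))) hidx
  refine ⟨hfin, ?_⟩
  have h2 := index_two (E ℚ (-(n : ℚ))).toAffine.Point
  have hne : Nat.card {g : (E ℚ (-(n : ℚ))).toAffine.Point // 2 • g = 0} ≠ 0 := by
    intro h0
    rw [h0, mul_zero] at h2
    exact hidx.index_ne_zero h2.symm
  have hfin2 : Finite {g : (E ℚ (-(n : ℚ))).toAffine.Point // 2 • g = 0} :=
    Nat.finite_of_card_ne_zero hne
  obtain ⟨f, hf⟩ := RankEd_points (-(n : ℚ)) hd
  have h4 : 4 ≤ Nat.card {g : (E ℚ (-(n : ℚ))).toAffine.Point // 2 • g = 0} := by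
    have h5 := Nat.card_le_card_of_injective f hf
    have h6 : Nat.card (Option (Fin 3)) = 4 := by simp
    rwa [h6] at h5
  calc 2 ^ (Module.finrank ℤ (E ℚ (-(n : ℚ))).toAffine.Point + 2)
      = 2 ^ (Module.finrank ℤ (E ℚ (-(n : ℚ))).toAffine.Point) * 4 := by rw [pow_add]; norm_num
    _ ≤ 2 ^ (Module.finrank ℤ (E ℚ (-(n : ℚ))).toAffine.Point) *
        Nat.card {g : (E ℚ (-(n : ℚ))).toAffine.Point // 2 • g = 0} := Nat.mul_le_mul_left _ h4
    _ = _ := h2
    _ ≤ _ := hle

end X15B
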