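import Pool.Agent.Lib.MP_87c685_nt_X15.Curve

open NumberField WeierstrassCurve Finset

namespace X15B

open X15

private lemma scl_ns {K : Type*} [Field K] [CharZero K] (s : K) (hs : s ≠ 0) (x y : K)
    (h : (E K 1).toAffine.Nonsingular x y) :
    (E K (s ^ 2)).toAffine.Nonsingular (s ^ 2 * x) (s ^ 3 * y) := by
  rw [nonsingular_iff _ _ _ one_ne_zero] at h
  rw [nonsingular_iff _ _ _ (pow_ne_zero 2 hs)]
  linear_combination s ^ 6 * h

private lemma scl_negY {K : Type*} [Field K] (s x y : K) :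
    (E K (s ^ 2)).toAffine.negY (s ^ 2 * x) (s ^ 3 * y) = s ^ 3 * (E K 1).toAffine.negY x y := by
  simp only [Affine.negY, E]
  ring

private lemma scl_slope {K : Type*} [Field K] [DecidableEq K] (s : K) (hs : s ≠ 0)
    (x₁ x₂ y₁ y₂ : K) (hxy : ¬ (x₁ = x₂ ∧ y₁ = (E K 1).toAffine.negY x₂ y₂)) :
    (E K (s ^ 2)).toAffine.slope (s ^ 2 * x₁) (s ^ 2 * x₂) (s ^ 3 * y₁) (s ^ 3 * y₂) =
      s * (E K 1).toAffine.slope x₁ x₂ y₁ y₂ := by
  by_cases hx : x₁ = x₂
  · have hy : y₁ ≠ (E K 1).toAffine.negY x₂ y₂ := fun h => hxy ⟨hx, h⟩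
    have hy' : s ^ 3 * y₁ ≠ (E K (s ^ 2)).toAffine.negY (s ^ 2 * x₂) (s ^ 3 * y₂) := by
      rw [scl_negY]
      intro h
      exact hy (mul_left_cancel₀ (pow_ne_zero 3 hs) h)
    rw [Affine.slope_of_Y_ne (by rw [hx]) hy', Affine.slope_of_Y_ne hx hy, scl_negY, ← mul_sub,
      ← mul_div_assoc]
    have h1 : 3 * (s ^ 2 * x₁) ^ 2 + 2 * (E K (s ^ 2)).toAffine.a₂ * (s ^ 2 * x₁) +
        (E K (s ^ 2)).toAffine.a₄ - (E K (s ^ 2)).toAffine.a₁ * (s ^ 3 * y₁) =
        s ^ 3 * (s * (3 * x₁ ^ 2 + 2 * (E K 1).toAffine.a₂ * x₁ + (E K 1).toAffine.a₄ -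
          (E K 1).toAffine.a₁ * y₁)) := by
      simp only [E]
      ring
    rw [h1, mul_div_mul_left _ _ (pow_ne_zero 3 hs)]
  · have hx' : s ^ 2 * x₁ ≠ s ^ 2 * x₂ := fun h => hx (mul_left_cancel₀ (pow_ne_zero 2 hs) h)
    rw [Affine.slope_of_X_ne hx', Affine.slope_of_X_ne hx, ← mul_sub, ← mul_sub]
    have h1 : x₁ - x₂ ≠ 0 := sub_ne_zero.2 hx
    field_simp

private noncomputable def sclFun {K : Type*} [Field K] [CharZero K] (s : K) (hs : s ≠ 0) :
    (E K 1).toAffine.Point → (E K (s ^ 2)).toAffine.Point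
  | Affine.Point.zero => 0
  | Affine.Point.some x y h => Affine.Point.some (s ^ 2 * x) (s ^ 3 * y) (scl_ns s hs x y h)

private lemma sclFun_zero {K : Type*} [Field K] [CharZero K] (s : K) (hs : s ≠ 0) :
    sclFun s hs 0 = 0 := rfl

private lemma sclFun_some {K : Type*} [Field K] [CharZero K] (s : K) (hs : s ≠ 0) (x y : K)
    (h : (E K 1).toAffine.Nonsingular x y) :
    sclFun s hs (Affine.Point.some x y h) =
      Affine.Point.some (s ^ 2 * x) (s ^ 3 * y) (scl_ns s hs x y h) := rfl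

private lemma sclFun_add {K : Type*} [Field K] [CharZero K] [DecidableEq K] (s : K) (hs : s ≠ 0)
    (P Q : (E K 1).toAffine.Point) :
    sclFun s hs (P + Q) = sclFun s hs P + sclFun s hs Q := by
  cases P with
  | zero =>
    change sclFun s hs (0 + Q) = 0 + sclFun s hs Q
    rw [zero_add, zero_add]
  | some x₁ y₁ h₁ =>
    cases Q with
    | zero =>
      change sclFun s hs (Affine.Point.some x₁ y₁ h₁ + 0) =
        sclFun s hs (Affine.Point.some x₁ y₁ h₁) + 0
      rw [add_zero, add_zero]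
    | some x₂ y₂ h₂ =>
      by_cases hxy : x₁ = x₂ ∧ y₁ = (E K 1).toAffine.negY x₂ y₂
      · rw [Affine.Point.add_of_Y_eq hxy.1 hxy.2, sclFun_zero, sclFun_some, sclFun_some,
          Affine.Point.add_of_Y_eq (by rw [hxy.1]) (by rw [hxy.2, scl_negY])]
      · have hxy' : ¬ (s ^ 2 * x₁ = s ^ 2 * x₂ ∧
            s ^ 3 * y₁ = (E K (s ^ 2)).toAffine.negY (s ^ 2 * x₂) (s ^ 3 * y₂)) := by
          rw [scl_negY]
          rintro ⟨h3, h4⟩
          exact hxy ⟨mul_left_cancel₀ (pow_ne_zero 2 hs) h3,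
            mul_left_cancel₀ (pow_ne_zero 3 hs) h4⟩
        rw [Affine.Point.add_some hxy, sclFun_some, sclFun_some, sclFun_some,
          Affine.Point.add_some hxy', Affine.Point.some.injEq, scl_slope s hs _ _ _ _ hxy]
        constructor
        · simp only [Affine.addX, E]
          ring
        · simp only [Affine.addY, Affine.negAddY, Affine.addX, Affine.negY, E]
          ring

/-- L14: scaling. -/
theorem exists_scale (K : Type*) [Field K] [CharZero K] [DecidableEq K] (s d : K) (hs : s ≠ 0)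
    (hd : s ^ 2 = d) :
    ∃ θ : (E K 1).toAffine.Point →+ (E K d).toAffine.Point, Function.Injective θ ∧
      ∀ x y h, ∃ h', θ (Affine.Point.some x y h) = Affine.Point.some (s ^ 2 * x) (s ^ 3 * y) h' := by
  subst hd
  refine ⟨{ toFun := sclFun s hs, map_zero' := rfl, map_add' := sclFun_add s hs }, ?_, ?_⟩
  · intro P Q hPQ
    have h1 : sclFun s hs P = sclFun s hs Q := hPQ
    cases P with
    | zero =>
      cases Q with
      | zero => rfl
      | some x₂ y₂ h₂ =>
        exact absurd h1.symm (Affine.Point.some_ne_zero _)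
    | some x₁ y₁ h₁ =>
      cases Q with
      | zero => exact absurd h1 (Affine.Point.some_ne_zero _)
      | some x₂ y₂ h₂ =>
        rw [sclFun_some, sclFun_some, Affine.Point.some.injEq] at h1
        rw [Affine.Point.some.injEq]
        exact ⟨mul_left_cancel₀ (pow_ne_zero 2 hs) h1.1,
          mul_left_cancel₀ (pow_ne_zero 3 hs) h1.2⟩
  · intro x y h
    exact ⟨scl_ns s hs x y h, rfl⟩

end X15B
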